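import Pool.Agent.SmoothUC.Reg2

/-!
# The main regime: asymptotics
-/

namespace SmoothUC

open Finset Filter Topology

/-- polynomial times exponential decay -/
theorem tendsto_poly_exp (k : ℕ) (b : ℝ) (hb : 0 < b) :
    Tendsto (fun m : ℕ => (m : ℝ) ^ k * Real.exp (-(b * m))) atTop (𝓝 0) := by
  have h1 := Real.tendsto_pow_mul_exp_neg_atTop_nhds_zero k
  have h2 : Tendsto (fun m : ℕ => b * (m : ℝ)) atTop atTop :=
    Tendsto.const_mul_atTop hb tendsto_natCast_atTop_atTop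
  have h3 := (h1.comp h2).const_mul ((1 / b) ^ k)
  rw [mul_zero] at h3
  refine h3.congr ?_
  intro m
  simp only [Function.comp]
  rw [mul_pow, ← mul_assoc, ← mul_assoc, ← mul_pow]
  rw [one_div, inv_mul_cancel₀ hb.ne', one_pow, one_mul]

theorem tendsto_err (ε : ℝ) (hε : 0 < ε) (hε2 : ε ≤ 1 / 2) (c2 : ℝ) (hc2 : 0 < c2) (κ : ℕ) :
    Tendsto (fun m : ℕ => 8 * (m : ℝ) * (m * Real.exp (-(ε * m)) +
        (((2 * κ + 10 : ℕ) : ℝ) * (m / ε) ^ (2 * κ + 10) *
        (Real.exp (-(ε ^ (2 * κ + 10) * (c2 / 2) * (m / 4))) +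
          (m + 1) ^ 2 * Real.exp (-((m : ℝ) / 8))) + 4 * (1 / ε) ^ κ * (1 / (m : ℝ)) ^ 10)) +
      (m : ℝ) ^ 2 * (1 - ε ^ 2) ^ m) atTop (𝓝 0) := by
  set K := 2 * κ + 10 with hK
  have t1 := (tendsto_poly_exp 2 ε hε).const_mul 8
  have t2 := (tendsto_poly_exp (K + 1) (ε ^ K * (c2 / 2) / 4) (by positivity)).const_mul
    (8 * (K : ℝ) * (1 / ε) ^ K)
  have t3a := (tendsto_poly_exp (K + 3) (1 / 8) (by norm_num)).const_mul (8 * (K : ℝ) * (1 / ε) ^ K)
  have t3b := (tendsto_poly_exp (K + 2) (1 / 8) (by norm_num)).const_mul (16 * (K : ℝ) * (1 / ε) ^ K)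
  have t3c := (tendsto_poly_exp (K + 1) (1 / 8) (by norm_num)).const_mul (8 * (K : ℝ) * (1 / ε) ^ K)
  have t4 : Tendsto (fun m : ℕ => 32 * (1 / ε) ^ κ * (1 / (m : ℝ)) ^ 9) atTop (𝓝 0) := by
    have h1 : Tendsto (fun m : ℕ => 1 / (m : ℝ)) atTop (𝓝 0) := tendsto_one_div_atTop_nhds_zero_nat
    have h2 := (h1.pow 9).const_mul (32 * (1 / ε) ^ κ)
    simpa using h2
  have hb : 0 < -Real.log (1 - ε ^ 2) := by
    have h1 : 0 < 1 - ε ^ 2 := by nlinarith
    have h2 : 1 - ε ^ 2 < 1 := by nlinarith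
    have := Real.log_neg h1 h2
    linarith
  have t5 := tendsto_poly_exp 2 (-Real.log (1 - ε ^ 2)) hb
  have hsum := ((((t1.add t2).add (t3a.add (t3b.add t3c))).add t4).add t5)
  simp only [mul_zero, add_zero] at hsum
  refine hsum.congr' ?_
  filter_upwards [eventually_gt_atTop 0] with m hm
  have hmpos : (0 : ℝ) < m := by exact_mod_cast hm
  have e5 : Real.exp (-(-Real.log (1 - ε ^ 2) * (m : ℝ))) = (1 - ε ^ 2) ^ m := by
    have h1 : 0 < 1 - ε ^ 2 := by nlinarith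
    rw [show -(-Real.log (1 - ε ^ 2) * (m : ℝ)) = (m : ℝ) * Real.log (1 - ε ^ 2) by ring]
    rw [Real.exp_nat_mul, Real.exp_log h1]
  rw [e5]
  have e2 : Real.exp (-(ε ^ K * (c2 / 2) / 4 * (m : ℝ))) =
      Real.exp (-(ε ^ K * (c2 / 2) * ((m : ℝ) / 4))) := by
    congr 1
    ring
  rw [e2]
  have e3 : Real.exp (-(1 / 8 * (m : ℝ))) = Real.exp (-((m : ℝ) / 8)) := by
    congr 1
    ring
  rw [e3]
  have e4 : (m / ε : ℝ) ^ K = (m : ℝ) ^ K * (1 / ε) ^ K := by
    rw [← mul_pow]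
    congr 1
    ring
  rw [e4]
  have e6 : (m : ℝ) * (1 / (m : ℝ)) ^ 10 = (1 / (m : ℝ)) ^ 9 := by
    field_simp
  have e7 : 8 * (m : ℝ) * (4 * (1 / ε) ^ κ * (1 / (m : ℝ)) ^ 10) =
      32 * (1 / ε) ^ κ * (1 / (m : ℝ)) ^ 9 := by
    rw [← e6]
    ring
  have e8 : 8 * (m : ℝ) * (m * Real.exp (-(ε * m)) +
        ((K : ℝ) * ((m : ℝ) ^ K * (1 / ε) ^ K) *
        (Real.exp (-(ε ^ K * (c2 / 2) * (m / 4))) +
          (m + 1) ^ 2 * Real.exp (-((m : ℝ) / 8))) + 4 * (1 / ε) ^ κ * (1 / (m : ℝ)) ^ 10)) =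
      8 * (m : ℝ) * (m * Real.exp (-(ε * m)) +
        ((K : ℝ) * ((m : ℝ) ^ K * (1 / ε) ^ K) *
        (Real.exp (-(ε ^ K * (c2 / 2) * (m / 4))) +
          (m + 1) ^ 2 * Real.exp (-((m : ℝ) / 8))))) +
      8 * (m : ℝ) * (4 * (1 / ε) ^ κ * (1 / (m : ℝ)) ^ 10) := by ring
  rw [e8, e7]
  ring

/-- the logarithmic condition -/
theorem eventually_log (C : ℝ) : ∀ᶠ m : ℕ in atTop, C * Real.log m ^ 4 ≤ m := by
  have h1 := (Real.isLittleO_pow_log_id_atTop (n := 4))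
  have h2 : ∀ᶠ x : ℝ in atTop, C * Real.log x ^ 4 ≤ x := by
    have h3 := h1.def (show (0 : ℝ) < 1 / (|C| + 1) by positivity)
    filter_upwards [h3, eventually_gt_atTop 1] with x hx hx1
    have hlog : 0 < Real.log x := Real.log_pos hx1
    simp only [id, Real.norm_eq_abs] at hx
    rw [abs_of_pos (show 0 < Real.log x ^ 4 by positivity),
      abs_of_pos (show 0 < x by linarith)] at hx
    have h4 : (|C| + 1) * Real.log x ^ 4 ≤ x := by
      have : 0 < |C| + 1 := by positivity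
      calc (|C| + 1) * Real.log x ^ 4 ≤ (|C| + 1) * (1 / (|C| + 1) * x) :=
            mul_le_mul_of_nonneg_left hx this.le
        _ = x := by field_simp
    have h5 : C * Real.log x ^ 4 ≤ (|C| + 1) * Real.log x ^ 4 := by
      refine mul_le_mul_of_nonneg_right ?_ (by positivity)
      have := le_abs_self C
      linarith
    linarith
  exact tendsto_natCast_atTop_atTop.eventually h2

/-- main regime -/
theorem reg_large (ε : ℝ) (hε : 0 < ε) (hε2 : ε ≤ 1 / 2) (c : ℝ) (hc : 0 < c) (η : ℝ) (hη : 0 < η) :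
    ∃ m₀ : ℕ, ∀ m : ℕ, m₀ ≤ m → ∀ n : ℕ, Real.exp (c * m) ≤ n →
    ∀ p : Fin n → Fin m → ℝ, Fair ε p → Pr p (fun ω => ¬ Good (family ω)) ≤ η := by
  set L := Real.log (1 / ε) with hL
  have hLpos : 0 < L := Real.log_pos (by rw [lt_div_iff₀ hε]; linarith)
  set ℓ := -Real.log (1 - ε) with hℓ
  have hℓpos : 0 < ℓ := by
    have := Real.log_neg (show 0 < 1 - ε by linarith) (show 1 - ε < 1 by linarith)
    linarith
  set c2 := c / (2 * L) with hc2def
  have hc2 : 0 < c2 := by positivity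
  obtain ⟨κ, hκ⟩ := exists_pow_lt_of_lt_one (show 0 < c2 / 2 by positivity)
    (show 1 - ε < 1 by linarith)
  set C := 2 / ℓ + 1 with hC
  have hC1 : 1 ≤ C := by
    have : 0 < 2 / ℓ := by positivity
    linarith
  have ev1 := (tendsto_err ε hε hε2 c2 hc2 κ).eventually (Iic_mem_nhds hη)
  have ev2 := eventually_log (14976 * C ^ 3)
  have ev3 : ∀ᶠ m : ℕ in atTop, 3 ≤ m := eventually_ge_atTop 3
  have ev4 : ∀ᶠ m : ℕ in atTop, (m : ℝ) / ε ≤ Real.exp (c / 2 * m) := by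
    have h1 := (tendsto_poly_exp 1 (c / 2) (by positivity)).const_mul (1 / ε)
    rw [mul_zero] at h1
    have h2 := h1.eventually (Iic_mem_nhds (show (0 : ℝ) < 1 by norm_num))
    filter_upwards [h2] with m hm
    simp only [pow_one] at hm
    replace hm : 1 / ε * ((m : ℝ) * Real.exp (-(c / 2 * m))) ≤ 1 := hm
    have h3 : Real.exp (-(c / 2 * (m : ℝ))) = (Real.exp (c / 2 * m))⁻¹ := Real.exp_neg _
    rw [h3] at hm
    have h4 := Real.exp_pos (c / 2 * (m : ℝ))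
    have h5 : 1 / ε * ((m : ℝ) * (Real.exp (c / 2 * m))⁻¹) = (m / ε) / Real.exp (c / 2 * m) := by
      field_simp
    rw [h5, div_le_one h4] at hm
    exact hm
  obtain ⟨m₀, hm₀⟩ := eventually_atTop.mp (ev1.and (ev2.and (ev3.and ev4)))
  refine ⟨m₀, fun m hm n hn p hp => ?_⟩
  obtain ⟨h1, h2, h3, h4⟩ := hm₀ m hm
  have hm3 : (3 : ℝ) ≤ m := by exact_mod_cast h3
  have hmpos : (0 : ℝ) < m := by linarith
  set l := Real.log m with hl
  have hl1 : 1 ≤ l := by
    rw [hl, Real.le_log_iff_exp_le hmpos]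
    have := Real.exp_one_lt_d9
    linarith
  set r := ⌈2 * l / ℓ⌉₊ with hrdef
  have hr1 : 1 ≤ r := Nat.one_le_iff_ne_zero.mpr (by
    rw [hrdef]
    exact (Nat.ceil_pos.mpr (by positivity)).ne')
  have hrl : 2 * l / ℓ ≤ r := Nat.le_ceil _
  have hru : (r : ℝ) ≤ C * l := by
    have := Nat.ceil_lt_add_one (show 0 ≤ 2 * l / ℓ by positivity)
    calc (r : ℝ) ≤ 2 * l / ℓ + 1 := this.le
      _ ≤ 2 * l / ℓ + l := by linarith
      _ = C * l := by rw [hC]; ring
  -- m ≤ n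
  have hexpc : Real.exp (c / 2 * m) ≤ Real.exp (c * m) := by
    rw [Real.exp_le_exp]
    nlinarith
  have hmε : (m : ℝ) ≤ m / ε := by
    rw [le_div_iff₀ hε]
    nlinarith
  have hmn : (m : ℝ) ≤ n := by linarith
  have hpow : (1 - ε) ^ r * (m : ℝ) ^ 2 ≤ 1 := by
    have e1 : (1 - ε) = Real.exp (-ℓ) := by
      rw [hℓ, neg_neg, Real.exp_log (by linarith)]
    have e2 : (m : ℝ) = Real.exp l := by rw [hl, Real.exp_log hmpos]
    have e3 : (1 - ε) ^ r * (m : ℝ) ^ 2 = Real.exp (-(r * ℓ) + 2 * l) := by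
      rw [Real.exp_add]
      congr 1
      · rw [e1, ← Real.exp_nat_mul]
        congr 1
        ring
      · nth_rewrite 1 [e2]
        rw [← Real.exp_nat_mul]
        congr 1
    rw [e3, Real.exp_le_one_iff]
    rw [div_le_iff₀ hℓpos] at hrl
    linarith
  have hw : ∀ A : Finset (Fin m), mu p A ≤ m / ε → c2 * m ≤ ((m - A.card : ℕ) : ℝ) := by
    intro A hA
    have g1 := pow_le_mu hε hp (Finset.subset_univ A)
    rw [mu_univ] at g1
    have g2 : (univ \ A).card = m - A.card := by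
      rw [Finset.card_sdiff_of_subset (Finset.subset_univ A), Finset.card_univ, Fintype.card_fin]
    rw [g2] at g1
    have g3 : ε ^ (m - A.card) * Real.exp (c * m) ≤ Real.exp (c / 2 * m) := by
      calc ε ^ (m - A.card) * Real.exp (c * m) ≤ ε ^ (m - A.card) * n :=
            mul_le_mul_of_nonneg_left hn (by positivity)
        _ ≤ m / ε := g1.trans hA
        _ ≤ _ := h4
    have g4 : ε ^ (m - A.card) = Real.exp (-(((m - A.card : ℕ) : ℝ) * L)) := by
      have : ε = Real.exp (-L) := by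
        rw [hL, one_div, Real.log_inv, neg_neg, Real.exp_log hε]
      nth_rewrite 1 [this]
      rw [← Real.exp_nat_mul]
      congr 1
      ring
    rw [g4, ← Real.exp_add, Real.exp_le_exp] at g3
    rw [hc2def, div_mul_eq_mul_div, div_le_iff₀ (by positivity)]
    nlinarith
  have hr0 : (1 : ℝ) ≤ r := by exact_mod_cast hr1
  have hCl : 0 < C * l := by positivity
  have hr2 : (r : ℝ) ^ 2 ≤ (C * l) ^ 2 := pow_le_pow_left₀ (by linarith) hru 2
  have hl4 : l ^ 2 ≤ l ^ 4 := by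
    have : 1 ≤ l ^ 2 := one_le_pow₀ hl1
    nlinarith
  have hC3 : C ^ 2 ≤ C ^ 3 := by nlinarith [sq_nonneg C]
  have hbig : 100 * r ^ 2 ≤ m := by
    have : (100 : ℝ) * r ^ 2 ≤ m := by
      have hx : C ^ 2 * l ^ 2 ≤ C ^ 3 * l ^ 4 := mul_le_mul hC3 hl4 (by positivity) (by positivity)
      calc (100 : ℝ) * r ^ 2 ≤ 100 * (C ^ 2 * l ^ 2) := by nlinarith
        _ ≤ 14976 * (C ^ 3 * l ^ 4) := by
            have h0 : 0 ≤ C ^ 3 * l ^ 4 := by positivity
            linarith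
        _ ≤ m := by linarith
    exact_mod_cast this
  have hexp : ((m : ℝ) + 1) ^ (r + 4) * Real.exp (-(m : ℝ) / (1152 * r ^ 2)) ≤ 1 / 20 := by
    have hlog1 : Real.log ((m : ℝ) + 1) ≤ 2 * l := by
      have : (m : ℝ) + 1 ≤ (m : ℝ) ^ 2 := by nlinarith
      calc Real.log ((m : ℝ) + 1) ≤ Real.log ((m : ℝ) ^ 2) :=
            Real.log_le_log (by linarith) this
        _ = 2 * l := by rw [Real.log_pow]; norm_num [hl]
    have e1 : ((m : ℝ) + 1) ^ (r + 4) = Real.exp (((r : ℝ) + 4) * Real.log (m + 1)) := by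
      have : ((m : ℝ) + 1) = Real.exp (Real.log (m + 1)) := (Real.exp_log (by linarith)).symm
      nth_rewrite 1 [this]
      rw [← Real.exp_nat_mul]
      congr 1
      push_cast
      ring
    rw [e1, ← Real.exp_add]
    have e2 : (1 / 20 : ℝ) = Real.exp (-Real.log 20) := by
      rw [Real.exp_neg, Real.exp_log (by norm_num), one_div]
    rw [e2, Real.exp_le_exp]
    have hlog20 : Real.log 20 ≤ 3 := by
      rw [Real.log_le_iff_le_exp (by norm_num)]
      have h := Real.exp_one_gt_d9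
      have h' : (2.7182818283 : ℝ) ^ 3 ≤ Real.exp 1 ^ 3 := pow_le_pow_left₀ (by norm_num) h.le 3
      have h'' : Real.exp 1 ^ 3 = Real.exp 3 := by
        rw [← Real.exp_nat_mul]
        norm_num
      rw [h''] at h'
      norm_num at h'
      linarith
    have hlogpos : 0 ≤ Real.log ((m : ℝ) + 1) := Real.log_nonneg (by linarith)
    have k1 : ((r : ℝ) + 4) * Real.log (m + 1) + 3 ≤ 13 * C * l ^ 2 := by
      have a1 : (r : ℝ) + 4 ≤ 5 * C * l := by nlinarith
      have a2 : ((r : ℝ) + 4) * Real.log (m + 1) ≤ (5 * C * l) * (2 * l) :=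
        mul_le_mul a1 hlog1 hlogpos (by positivity)
      have a3 : 1 ≤ C * l ^ 2 := by nlinarith [one_le_pow₀ hl1 (n := 2)]
      nlinarith
    have k2 : (13 * C * l ^ 2) * (1152 * (r : ℝ) ^ 2) ≤ m := by
      calc (13 * C * l ^ 2) * (1152 * (r : ℝ) ^ 2) ≤ (13 * C * l ^ 2) * (1152 * (C * l) ^ 2) := by
            refine mul_le_mul_of_nonneg_left ?_ (by positivity)
            linarith
        _ = 14976 * C ^ 3 * l ^ 4 := by ring
        _ ≤ m := h2
    have k3 : 13 * C * l ^ 2 ≤ (m : ℝ) / (1152 * r ^ 2) := by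
      rw [le_div_iff₀ (by positivity)]
      exact k2
    have k4 : -(m : ℝ) / (1152 * r ^ 2) = -((m : ℝ) / (1152 * r ^ 2)) := by ring
    rw [k4]
    linarith
  have hfin := reg_large_bound hε hε2 hp (by omega) hc2 κ hκ.le r hr1 hpow hmn hw hbig hexp
  refine hfin.trans (le_trans ?_ h1)
  have : (1 - ε ^ 2) ^ n ≤ (1 - ε ^ 2) ^ m := by
    refine pow_le_pow_of_le_one (by nlinarith) (by nlinarith) ?_
    exact_mod_cast hmn
  have h6 : (m : ℝ) ^ 2 * (1 - ε ^ 2) ^ n ≤ (m : ℝ) ^ 2 * (1 - ε ^ 2) ^ m :=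
    mul_le_mul_of_nonneg_left this (by positivity)
  linarith

end SmoothUC
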