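import Mathlib

/-!
# Union-closed families generated by random sets (definitions)

`ω : Fin n → Fin m → Bool` encodes `n` subsets of `Fin m` (the rows).
-/

namespace SmoothUC

open Finset

/-- The `i`-th generating set: all `x` with `ω i x = true`. -/
def row {n m : ℕ} (ω : Fin n → Fin m → Bool) (i : Fin n) : Finset (Fin m) :=
  univ.filter (fun x => ω i x = true)

/-- The family of all unions of generating sets (the empty union included). -/
def family {n m : ℕ} (ω : Fin n → Fin m → Bool) : Finset (Finset (Fin m)) :=
  (univ : Finset (Finset (Fin n))).image (fun T => T.biUnion (row ω))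

/-- `F` is a power set, or some element lies in strictly more than half of the members. -/
def Good {m : ℕ} (F : Finset (Finset (Fin m))) : Prop :=
  F = (F.sup id).powerset ∨ ∃ x, F.card < 2 * (F.filter (fun A => x ∈ A)).card

/-- Probability of the single outcome `ω` if the events `ω i x = true` are independent and have
probabilities `p i x`. -/
def weight {n m : ℕ} (p : Fin n → Fin m → ℝ) (ω : Fin n → Fin m → Bool) : ℝ :=
  ∏ i, ∏ x, (if ω i x = true then p i x else 1 - p i x)

open Classical in
/-- Probability of an event. -/
noncomputable def Pr {n m : ℕ} (p : Fin n → Fin m → ℝ) (E : (Fin n → Fin m → Bool) → Prop) : ℝ :=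
  ∑ ω ∈ univ.filter E, weight p ω

/-- all probabilities lie in `[ε, 1 - ε]` -/
def Fair {n m : ℕ} (ε : ℝ) (p : Fin n → Fin m → ℝ) : Prop :=
  ∀ i x, ε ≤ p i x ∧ p i x ≤ 1 - ε

end SmoothUC
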