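import Mathlib

/-!
Poonen's strengthening of the union-closed sets conjecture for dense families.
-/

namespace SmoothUC.Dense

open Finset

variable {α : Type*} [Fintype α] [DecidableEq α]

/-- Characters of the cube. -/
noncomputable def chi (S A : Finset α) : ℝ := ∏ i ∈ S, (if i ∈ A then (-1 : ℝ) else 1)

lemma sum_chi (A B : Finset α) :
    ∑ S : Finset α, chi S A * chi S B = if A = B then (2 : ℝ) ^ Fintype.card α else 0 := by
  have h1 : ∑ S : Finset α, chi S A * chi S B =
      ∏ i : α, (1 + (if i ∈ A then (-1 : ℝ) else 1) * (if i ∈ B then (-1 : ℝ) else 1)) := by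
    rw [Finset.prod_one_add, Finset.powerset_univ]
    refine Finset.sum_congr rfl fun S _ => ?_
    rw [chi, chi, ← Finset.prod_mul_distrib]
  rw [h1]
  split_ifs with h
  · subst h
    rw [show (2 : ℝ) ^ Fintype.card α = ∏ _i : α, (2 : ℝ) by simp [Finset.card_univ]]
    refine Finset.prod_congr rfl fun i _ => ?_
    split_ifs <;> norm_num
  · have : ∃ i, ¬ (i ∈ A ↔ i ∈ B) := by
      by_contra hcon
      push Not at hcon
      exact h (Finset.ext hcon)
    obtain ⟨i, hi⟩ := this
    apply Finset.prod_eq_zero (Finset.mem_univ i)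
    by_cases ha : i ∈ A <;> by_cases hb : i ∈ B <;> simp_all

/-- Fourier coefficients. -/
noncomputable def ft (g : Finset α → ℝ) (S : Finset α) : ℝ :=
  (∑ A : Finset α, g A * chi S A) / 2 ^ Fintype.card α

lemma pow_pos' : (0 : ℝ) < 2 ^ Fintype.card α := by positivity

lemma inversion (g : Finset α → ℝ) (B : Finset α) : ∑ S : Finset α, ft g S * chi S B = g B := by
  have h1 : ∀ S : Finset α, ft g S * chi S B =
      ∑ A : Finset α, (g A / 2 ^ Fintype.card α) * (chi S A * chi S B) := by
    intro S
    rw [ft, Finset.sum_div, Finset.sum_mul]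
    refine Finset.sum_congr rfl fun A _ => ?_
    ring
  simp only [h1]
  rw [Finset.sum_comm]
  have h2 : ∀ A : Finset α, ∑ S : Finset α, (g A / 2 ^ Fintype.card α) * (chi S A * chi S B) =
      if A = B then g A else 0 := by
    intro A
    rw [← Finset.mul_sum, sum_chi]
    split_ifs
    · field_simp
    · ring
  simp only [h2]
  simp

lemma parseval (g : Finset α → ℝ) :
    ∑ S : Finset α, ft g S ^ 2 = (∑ A : Finset α, g A ^ 2) / 2 ^ Fintype.card α := by
  have h1 : ∀ S : Finset α, ft g S ^ 2 =
      ∑ A : Finset α, (g A / 2 ^ Fintype.card α) * (ft g S * chi S A) := by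
    intro S
    have h0 : ft g S = ∑ A : Finset α, g A / 2 ^ Fintype.card α * chi S A := by
      rw [ft, Finset.sum_div]
      refine Finset.sum_congr rfl fun A _ => ?_
      ring
    calc ft g S ^ 2 = (∑ A : Finset α, g A / 2 ^ Fintype.card α * chi S A) * ft g S := by
          rw [← h0, sq]
      _ = _ := by
          rw [Finset.sum_mul]
          refine Finset.sum_congr rfl fun A _ => ?_
          ring
  simp only [h1]
  rw [Finset.sum_comm, Finset.sum_div]
  refine Finset.sum_congr rfl fun A _ => ?_
  rw [← Finset.mul_sum, inversion]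
  ring

/-- Change the membership of `i`. -/
def flip (i : α) (A : Finset α) : Finset α := if i ∈ A then A.erase i else insert i A

lemma mem_flip_self (i : α) (A : Finset α) : i ∈ flip i A ↔ i ∉ A := by
  unfold flip
  split_ifs with h <;> simp [h]

lemma mem_flip_ne {i j : α} (A : Finset α) (h : j ≠ i) : j ∈ flip i A ↔ j ∈ A := by
  unfold flip
  split_ifs <;> simp [h]

lemma flip_flip (i : α) (A : Finset α) : flip i (flip i A) = A := by
  ext j
  by_cases h : j = i
  · subst h
    rw [mem_flip_self, mem_flip_self, not_not]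
  · rw [mem_flip_ne _ h, mem_flip_ne _ h]

lemma chi_flip (i : α) (S A : Finset α) :
    chi S (flip i A) = (if i ∈ S then (-1 : ℝ) else 1) * chi S A := by
  unfold chi
  by_cases h : i ∈ S
  · rw [← Finset.mul_prod_erase _ _ h, ← Finset.mul_prod_erase _ (fun i => if i ∈ A then (-1 : ℝ) else 1) h,
      if_pos h, ← mul_assoc]
    congr 1
    · by_cases ha : i ∈ A <;> simp [ha, mem_flip_self]
    · refine Finset.prod_congr rfl fun j hj => ?_
      simp only [mem_flip_ne _ (Finset.ne_of_mem_erase hj)]
  · rw [if_neg h, one_mul]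
    refine Finset.prod_congr rfl fun j hj => ?_
    have hne : j ≠ i := fun e => h (e ▸ hj)
    simp only [mem_flip_ne _ hne]

lemma sum_flip (i : α) (f : Finset α → ℝ) : ∑ A : Finset α, f (flip i A) = ∑ A : Finset α, f A := by
  apply Finset.sum_nbij' (flip i) (flip i) <;> simp [flip_flip]

lemma ft_flip (g : Finset α → ℝ) (i : α) (S : Finset α) :
    ft (fun A => g A - g (flip i A)) S = (if i ∈ S then 2 * ft g S else 0) := by
  have h1 : ∑ A : Finset α, g (flip i A) * chi S A =
      (if i ∈ S then (-1 : ℝ) else 1) * ∑ A : Finset α, g A * chi S A := by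
    rw [← sum_flip i, Finset.mul_sum]
    refine Finset.sum_congr rfl fun A _ => ?_
    rw [flip_flip, chi_flip]
    ring
  unfold ft
  rw [show (∑ A : Finset α, (g A - g (flip i A)) * chi S A) =
    ∑ A : Finset α, g A * chi S A - ∑ A : Finset α, g (flip i A) * chi S A by
      rw [← Finset.sum_sub_distrib]; exact Finset.sum_congr rfl fun A _ => by ring, h1]
  split_ifs <;> ring

lemma energy (g : Finset α → ℝ) :
    ∑ i : α, ∑ A : Finset α, (g A - g (flip i A)) ^ 2 =
      4 * 2 ^ Fintype.card α * ∑ S : Finset α, (S.card : ℝ) * ft g S ^ 2 := by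
  have h1 : ∀ i : α, ∑ A : Finset α, (g A - g (flip i A)) ^ 2 =
      2 ^ Fintype.card α * ∑ S : Finset α, (if i ∈ S then 4 * ft g S ^ 2 else 0) := by
    intro i
    have := parseval (fun A => g A - g (flip i A))
    rw [eq_div_iff pow_pos'.ne'] at this
    rw [← this, mul_comm]
    congr 1
    refine Finset.sum_congr rfl fun S _ => ?_
    rw [ft_flip]
    split_ifs <;> ring
  simp only [h1]
  rw [← Finset.mul_sum, Finset.sum_comm]
  rw [show (4 : ℝ) * 2 ^ Fintype.card α * ∑ S : Finset α, (S.card : ℝ) * ft g S ^ 2 =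
    2 ^ Fintype.card α * ∑ S : Finset α, (S.card : ℝ) * (4 * ft g S ^ 2) by
      rw [Finset.mul_sum, Finset.mul_sum]; exact Finset.sum_congr rfl fun S _ => by ring]
  congr 1
  refine Finset.sum_congr rfl fun S _ => ?_
  rw [← Finset.sum_filter, Finset.filter_univ_mem, Finset.sum_const, nsmul_eq_mul]

lemma laplace (g : Finset α → ℝ) (A : Finset α) :
    ∑ i : α, (g A - g (flip i A)) = ∑ S : Finset α, 2 * (S.card : ℝ) * (ft g S * chi S A) := by
  have h1 : ∀ i : α, g A - g (flip i A) =
      ∑ S : Finset α, (if i ∈ S then 2 * (ft g S * chi S A) else 0) := by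
    intro i
    have := inversion (fun A => g A - g (flip i A)) A
    rw [← this]
    refine Finset.sum_congr rfl fun S _ => ?_
    rw [ft_flip]
    split_ifs <;> ring
  simp only [h1]
  rw [Finset.sum_comm]
  refine Finset.sum_congr rfl fun S _ => ?_
  rw [← Finset.sum_filter, Finset.filter_univ_mem, Finset.sum_const, nsmul_eq_mul]
  ring


lemma chi_empty (A : Finset α) : chi ∅ A = 1 := by simp [chi]

lemma chi_single (i : α) (A : Finset α) : chi {i} A = if i ∈ A then (-1 : ℝ) else 1 := by
  rw [chi, Finset.prod_singleton]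

lemma sum_chi_single (i : α) : ∑ A : Finset α, chi {i} A = 0 := by
  have h := sum_flip i (fun A => chi {i} A)
  simp only [chi_flip, Finset.mem_singleton, if_true] at h
  rw [← Finset.mul_sum] at h
  linarith

lemma sum_card_one (f : Finset α → ℝ) :
    ∑ S : Finset α, (if S.card = 1 then f S else 0) = ∑ i : α, f {i} := by
  rw [← Finset.sum_filter]
  have : (Finset.univ.filter fun S : Finset α => S.card = 1) =
      (Finset.univ : Finset α).map ⟨fun i => ({i} : Finset α), Finset.singleton_injective⟩ := by
    ext S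
    simp only [Finset.mem_filter, Finset.mem_univ, true_and, Finset.mem_map,
      Function.Embedding.coeFn_mk, Finset.card_eq_one]
    constructor
    · rintro ⟨a, rfl⟩; exact ⟨a, rfl⟩
    · rintro ⟨a, rfl⟩; exact ⟨a, rfl⟩
  rw [this, Finset.sum_map]
  rfl

/-- The level inequality with its defect. -/
lemma level (g : Finset α → ℝ) :
    ∑ S : Finset α, (S.card : ℝ) * ft g S ^ 2 =
      2 * (∑ S : Finset α, ft g S ^ 2 - ft g ∅ ^ 2) - ∑ i : α, ft g {i} ^ 2 +
      ∑ S : Finset α, (if 2 ≤ S.card then ((S.card : ℝ) - 2) * ft g S ^ 2 else 0) := by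
  have h1 : ∑ i : α, ft g {i} ^ 2 =
      ∑ S : Finset α, (if S.card = 1 then ft g S ^ 2 else 0) :=
    (sum_card_one (fun S => ft g S ^ 2)).symm
  have h2 : ft g ∅ ^ 2 = ∑ S : Finset α, (if S = ∅ then ft g S ^ 2 else 0) := by
    simp
  rw [h1, h2, ← Finset.sum_sub_distrib, Finset.mul_sum, ← Finset.sum_sub_distrib,
    ← Finset.sum_add_distrib]
  refine Finset.sum_congr rfl fun S _ => ?_
  rcases Nat.lt_or_ge S.card 2 with h | h
  · interval_cases hS : S.card
    · have : S = ∅ := Finset.card_eq_zero.1 hS
      simp [this]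
    · have : S ≠ ∅ := by
        intro e
        rw [e] at hS
        simp at hS
      simp [this]
      ring
  · have h3 : S ≠ ∅ := by
      intro e
      rw [e] at h
      simp at h
    have h4 : S.card ≠ 1 := by omega
    rw [if_neg h3, if_neg h4, if_pos h]
    ring

/-- The indicator of the complement. -/
noncomputable def ind (F : Finset (Finset α)) (A : Finset α) : ℝ := if A ∈ F then 0 else 1

section main

variable (F : Finset (Finset α))

lemma ind_sq (A : Finset α) : ind F A ^ 2 = ind F A := by
  unfold ind; split_ifs <;> norm_num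

lemma ind_nonneg (A : Finset α) : 0 ≤ ind F A := by unfold ind; split_ifs <;> norm_num

lemma ind_le (A : Finset α) : ind F A ≤ 1 := by unfold ind; split_ifs <;> norm_num

lemma sum_ind : ∑ A : Finset α, ind F A = 2 ^ Fintype.card α - F.card := by
  have h1 : ∀ A : Finset α, ind F A = 1 - (if A ∈ F then (1 : ℝ) else 0) := by
    intro A; unfold ind; split_ifs <;> norm_num
  simp only [h1, Finset.sum_sub_distrib]
  simp [Finset.card_univ]

lemma ft_empty : ft (ind F) ∅ = (2 ^ Fintype.card α - F.card) / 2 ^ Fintype.card α := by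
  unfold ft
  simp only [chi_empty, mul_one]
  rw [sum_ind]

lemma sum_ft_sq : ∑ S : Finset α, ft (ind F) S ^ 2 =
    (2 ^ Fintype.card α - F.card) / 2 ^ Fintype.card α := by
  rw [parseval]
  simp only [ind_sq]
  rw [sum_ind]

lemma ft_single (i : α) : 2 ^ Fintype.card α * ft (ind F) {i} =
    2 * ((F.filter (fun A => i ∈ A)).card : ℝ) - F.card := by
  unfold ft
  rw [mul_div_cancel₀ _ pow_pos'.ne']
  have h1 : ∀ A : Finset α, ind F A * chi {i} A = chi {i} A -
      (if A ∈ F then chi {i} A else 0) := by
    intro A; unfold ind; split_ifs <;> ring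
  simp only [h1, Finset.sum_sub_distrib]
  rw [sum_chi_single, Finset.sum_ite_mem, Finset.univ_inter]
  have h2 : ∀ A : Finset α, chi {i} A = 1 - 2 * (if i ∈ A then (1 : ℝ) else 0) := by
    intro A; rw [chi_single]; split_ifs <;> norm_num
  simp only [h2, Finset.sum_sub_distrib]
  rw [← Finset.mul_sum, Finset.sum_boole]
  simp

/-- Number of lower neighbours in `F` of a set outside `F`. -/
noncomputable def low (A : Finset α) : ℝ :=
  ∑ i : α, if i ∈ A then ind F A * (1 - ind F (flip i A)) else 0

lemma low_le (huc : ∀ A ∈ F, ∀ B ∈ F, A ∪ B ∈ F) (A : Finset α) : low F A ≤ ind F A := by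
  by_cases hA : A ∈ F
  · have h0 : ind F A = 0 := by simp [ind, hA]
    unfold low
    rw [h0]
    simp
  · have h1 : ind F A = 1 := by simp [ind, hA]
    unfold low
    rw [h1]
    have h2 : ∀ i : α, (if i ∈ A then (1 : ℝ) * (1 - ind F (flip i A)) else 0) =
        if (i ∈ A ∧ A.erase i ∈ F) then 1 else 0 := by
      intro i
      by_cases hi : i ∈ A
      · have : flip i A = A.erase i := by simp [flip, hi]
        rw [this]
        by_cases he : A.erase i ∈ F <;> simp [hi, he, ind]
      · simp [hi]
    simp only [h2]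
    rw [Finset.sum_boole]
    norm_cast
    rw [Finset.card_le_one]
    intro i hi j hj
    simp only [Finset.mem_filter, Finset.mem_univ, true_and] at hi hj
    by_contra hne
    apply hA
    have h3 := huc _ hi.2 _ hj.2
    have h4 : A.erase i ∪ A.erase j = A := by
      ext k
      simp only [Finset.mem_union, Finset.mem_erase]
      constructor
      · rintro (h | h) <;> exact h.2
      · intro hk
        by_cases e : k = i
        · right; exact ⟨fun e2 => hne (e ▸ e2), hk⟩
        · left; exact ⟨e, hk⟩
    rwa [h4] at h3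

/-- The edge boundary, counted once. -/
noncomputable def bd : ℝ := ∑ A : Finset α, ∑ i : α, ind F A * (1 - ind F (flip i A))

lemma energy_bd : ∑ i : α, ∑ A : Finset α, (ind F A - ind F (flip i A)) ^ 2 = 2 * bd F := by
  have h1 : ∀ i : α, ∑ A : Finset α, (ind F A - ind F (flip i A)) ^ 2 =
      2 * ∑ A : Finset α, ind F A * (1 - ind F (flip i A)) := by
    intro i
    have h2 : ∀ A : Finset α, (ind F A - ind F (flip i A)) ^ 2 =
        ind F A * (1 - ind F (flip i A)) + ind F (flip i A) * (1 - ind F A) := by
      intro A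
      have e1 := ind_sq F A
      have e2 := ind_sq F (flip i A)
      nlinarith
    simp only [h2, Finset.sum_add_distrib]
    have h3 := sum_flip i (fun A => ind F A * (1 - ind F (flip i A)))
    simp only [flip_flip] at h3
    rw [h3]
    ring
  simp only [h1]
  rw [← Finset.mul_sum, bd, Finset.sum_comm]

lemma sum_single : ∑ i : α, 2 ^ Fintype.card α * ft (ind F) {i} =
    bd F - 2 * ∑ A : Finset α, low F A := by
  have h1 : ∀ i : α, 2 ^ Fintype.card α * ft (ind F) {i} =
      ∑ A : Finset α, (ind F A * (1 - ind F (flip i A)) -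
        2 * (if i ∈ A then ind F A * (1 - ind F (flip i A)) else 0)) := by
    intro i
    unfold ft
    rw [mul_div_cancel₀ _ pow_pos'.ne']
    have h2 : ∑ A : Finset α, ind F A * ind F (flip i A) * chi {i} A = 0 := by
      have h3 := sum_flip i (fun A => ind F A * ind F (flip i A) * chi {i} A)
      simp only [flip_flip, chi_flip, Finset.mem_singleton, if_true] at h3
      have h4 : ∑ A : Finset α, ind F (flip i A) * ind F A * (-1 * chi {i} A) =
          - ∑ A : Finset α, ind F A * ind F (flip i A) * chi {i} A := by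
        rw [← Finset.sum_neg_distrib]
        exact Finset.sum_congr rfl fun A _ => by ring
      rw [h4] at h3
      linarith
    have h5 : ∀ A : Finset α, ind F A * chi {i} A =
        (ind F A * (1 - ind F (flip i A)) -
        2 * (if i ∈ A then ind F A * (1 - ind F (flip i A)) else 0)) +
        ind F A * ind F (flip i A) * chi {i} A := by
      intro A
      rw [chi_single]
      split_ifs <;> ring
    simp only [h5]
    rw [Finset.sum_add_distrib, h2, add_zero]
  simp only [h1]
  rw [Finset.sum_comm]
  simp only [Finset.sum_sub_distrib]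
  rw [bd]
  congr 1
  rw [Finset.mul_sum]
  refine Finset.sum_congr rfl fun A _ => ?_
  rw [low, Finset.mul_sum]

/-- Pure degree two functions are eigenfunctions. -/
lemma laplace_of (g : Finset α → ℝ) (h0 : ft g ∅ = 1 / 2)
    (hft : ∀ S : Finset α, S ≠ ∅ → S.card ≠ 2 → ft g S = 0) (A : Finset α) :
    ∑ i : α, (g A - g (flip i A)) = 4 * (g A - 1 / 2) := by
  rw [laplace]
  have h1 : ∀ S : Finset α, 2 * (S.card : ℝ) * (ft g S * chi S A) =
      4 * (ft g S * chi S A) - (if S = ∅ then (2 : ℝ) else 0) := by
    intro S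
    by_cases hS : S = ∅
    · rw [if_pos hS, hS, h0, chi_empty, Finset.card_empty]
      norm_num
    · rw [if_neg hS]
      by_cases h2 : S.card = 2
      · rw [h2]
        push_cast
        ring
      · rw [hft S hS h2]
        ring
  rw [Finset.sum_congr rfl fun S _ => h1 S, Finset.sum_sub_distrib, ← Finset.mul_sum, inversion,
    Finset.sum_ite_eq' Finset.univ ∅ (fun _ => (2 : ℝ)), if_pos (Finset.mem_univ _)]
  ring

/-- All consequences of extremality. -/
lemma extremal (huc : ∀ A ∈ F, ∀ B ∈ F, A ∪ B ∈ F) (hbig : 2 ^ Fintype.card α ≤ 2 * F.card)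
    (hmax : ∀ i : α, 2 * (F.filter (fun A => i ∈ A)).card ≤ F.card) (hne : F ≠ Finset.univ)
    (hcov : ∀ i : α, ∃ A ∈ F, i ∈ A) :
    (∀ A : Finset α, low F A = ind F A) ∧ (2 ^ Fintype.card α : ℝ) = 2 * F.card ∧
      ∀ A : Finset α, ∑ i : α, (ind F A - ind F (flip i A)) = 4 * (ind F A - 1 / 2) := by
  set M : ℝ := 2 ^ Fintype.card α with hM
  have hM0 : 0 < M := by rw [hM]; positivity
  set m : ℝ := M - F.card with hm
  have hbig' : M ≤ 2 * F.card := by rw [hM]; exact_mod_cast hbig
  have hm0 : 0 < m := by
    have h1 : F.card < 2 ^ Fintype.card α := by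
      have h2 : F ⊂ Finset.univ := lt_of_le_of_ne (Finset.subset_univ _) hne
      have h3 := Finset.card_lt_card h2
      simpa [Finset.card_univ] using h3
    have h4 : (F.card : ℝ) < M := by rw [hM]; exact_mod_cast h1
    rw [hm]; linarith
  have hmM : m ≤ M / 2 := by rw [hm]; linarith
  set a : α → ℝ := fun i => ft (ind F) {i} with ha
  have haM : ∀ i, M * a i = 2 * ((F.filter (fun A => i ∈ A)).card : ℝ) - F.card :=
    fun i => ft_single F i
  have ha0 : ∀ i, a i ≤ 0 := by
    intro i
    have h1 : (2 * ((F.filter (fun A => i ∈ A)).card : ℝ)) ≤ F.card := by exact_mod_cast hmax i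
    have h2 := haM i
    by_contra hcon
    push Not at hcon
    nlinarith
  have hah : ∀ i, -(1 / 2) ≤ a i := by
    intro i
    have h1 : M * a i = ∑ A : Finset α, ind F A * chi {i} A := by
      rw [ha, hM]
      simp only [ft]
      rw [mul_div_cancel₀ _ pow_pos'.ne']
    have h2 : -m ≤ ∑ A : Finset α, ind F A * chi {i} A := by
      rw [hm, hM, ← sum_ind F, ← Finset.sum_neg_distrib]
      apply Finset.sum_le_sum
      intro A _
      have h3 := ind_nonneg F A
      rw [chi_single]
      split_ifs <;> linarith
    have h4 : -(M / 2) ≤ M * a i := by rw [h1]; linarith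
    by_contra hcon
    push Not at hcon
    nlinarith
  have haa : ∀ i, a i ^ 2 ≤ -(a i) / 2 := fun i => by nlinarith [ha0 i, hah i]
  have hN : ∑ A : Finset α, low F A ≤ m := by
    rw [hm, hM, ← sum_ind F]
    exact Finset.sum_le_sum fun A _ => low_le F huc A
  have hE : 2 * bd F = 4 * M * ∑ S : Finset α, (S.card : ℝ) * ft (ind F) S ^ 2 := by
    rw [← energy_bd, energy]
  have hL := level (ind F)
  rw [sum_ft_sq, ft_empty, ← hM, ← hm] at hL
  set W : ℝ := ∑ i : α, ft (ind F) {i} ^ 2 with hW
  set D : ℝ := ∑ S : Finset α, (if 2 ≤ S.card then ((S.card : ℝ) - 2) * ft (ind F) S ^ 2 else 0)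
    with hD
  have hDt : ∀ S : Finset α,
      0 ≤ (if 2 ≤ S.card then ((S.card : ℝ) - 2) * ft (ind F) S ^ 2 else 0) := by
    intro S
    split_ifs with h
    · have : (2 : ℝ) ≤ S.card := by exact_mod_cast h
      have h2 : (0 : ℝ) ≤ (S.card : ℝ) - 2 := by linarith
      positivity
    · exact le_rfl
  have hD0 : 0 ≤ D := Finset.sum_nonneg fun S _ => hDt S
  have hS : M * ∑ i : α, a i = bd F - 2 * ∑ A : Finset α, low F A := by
    rw [Finset.mul_sum]
    exact sum_single F
  have hW2 : W ≤ -(∑ i : α, a i) / 2 := by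
    rw [hW]
    have : -(∑ i : α, a i) / 2 = ∑ i : α, -(a i) / 2 := by
      rw [← Finset.sum_neg_distrib, Finset.sum_div]
    rw [this]
    exact Finset.sum_le_sum fun i _ => haa i
  have hmain : bd F = 2 * M * (2 * (m / M - (m / M) ^ 2) - W + D) := by
    rw [← hL]; linarith
  have hexp : 2 * M * (2 * (m / M - (m / M) ^ 2)) = 4 * m - 4 * m ^ 2 / M := by
    field_simp
    ring
  have hq : m ^ 2 / M ≤ m / 2 := by
    rw [div_le_iff₀ hM0]
    nlinarith
  set s : ℝ := ∑ i : α, a i with hs
  set Lw : ℝ := ∑ A : Finset α, low F A with hLw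
  -- the chain of inequalities, all of them are equalities
  have k1 : M * s = 4 * m - 4 * (m ^ 2 / M) - 2 * M * W + 2 * M * D - 2 * Lw := by
    rw [hS, hmain]
    have : 2 * M * (2 * (m / M - (m / M) ^ 2) - W + D) =
        2 * M * (2 * (m / M - (m / M) ^ 2)) - 2 * M * W + 2 * M * D := by ring
    rw [this, hexp]
    ring
  have hMW : 2 * M * W ≤ - (M * s) := by
    have := mul_le_mul_of_nonneg_left hW2 (by positivity : (0 : ℝ) ≤ 2 * M)
    linarith
  have hMD : 0 ≤ 2 * M * D := by positivity
  have e1 : m ^ 2 / M = m / 2 := by linarith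
  have e2 : Lw = m := by linarith
  have e3 : 2 * M * D = 0 := by linarith
  have e4 : 2 * M * W = - (M * s) := by linarith
  have hD00 : D = 0 := by
    rcases mul_eq_zero.1 e3 with h | h
    · linarith
    · exact h
  have hmM2 : M = 2 * m := by
    rw [div_eq_iff hM0.ne'] at e1
    have : m * (2 * m - M) = 0 := by nlinarith
    rcases mul_eq_zero.1 this with h | h
    · linarith
    · linarith
  have hFc : M = 2 * F.card := by rw [hm] at hmM2; linarith
  -- every low degree is one
  have hlow : ∀ A : Finset α, low F A = ind F A := by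
    have h1 : ∑ A : Finset α, (ind F A - low F A) = 0 := by
      rw [Finset.sum_sub_distrib, sum_ind F, ← hM, ← hm]
      linarith
    intro A
    have h2 := (Finset.sum_eq_zero_iff_of_nonneg (fun A _ => sub_nonneg.2 (low_le F huc A))).1 h1 A
      (Finset.mem_univ A)
    linarith
  -- the coefficients
  have haz : ∀ i, a i = 0 := by
    have h1 : ∑ i : α, (-(a i) / 2 - a i ^ 2) = 0 := by
      rw [Finset.sum_sub_distrib, ← Finset.sum_div, Finset.sum_neg_distrib]
      have h2 : W = -s / 2 := by
        have : M * (2 * W + s) = 0 := by linarith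
        rcases mul_eq_zero.1 this with h | h
        · linarith
        · linarith
      rw [← hs]
      have h3 : ∑ i : α, a i ^ 2 = W := rfl
      rw [h3, h2]
      ring
    intro i
    have h2 := (Finset.sum_eq_zero_iff_of_nonneg (fun i _ => sub_nonneg.2 (haa i))).1 h1 i
      (Finset.mem_univ i)
    have h2' : -(a i) / 2 - a i ^ 2 = 0 := h2
    have h3 : a i * (a i + 1 / 2) = 0 := by linear_combination (-1 : ℝ) * h2'
    rcases mul_eq_zero.1 h3 with h | h
    · exact h
    · exfalso
      have h4 : a i = -(1 / 2) := by linarith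
      have h5 := haM i
      rw [h4] at h5
      have h6 : ((F.filter (fun A => i ∈ A)).card : ℝ) = 0 := by linarith
      have h7 : (F.filter (fun A => i ∈ A)).card = 0 := by exact_mod_cast h6
      obtain ⟨A, hA, hiA⟩ := hcov i
      rw [Finset.card_eq_zero] at h7
      have : A ∈ F.filter (fun A => i ∈ A) := Finset.mem_filter.2 ⟨hA, hiA⟩
      rw [h7] at this
      simp at this
  have hft : ∀ S : Finset α, 2 ≤ S.card → S.card ≠ 2 → ft (ind F) S = 0 := by
    intro S h1 h2
    have h3 := (Finset.sum_eq_zero_iff_of_nonneg (fun S _ => hDt S)).1 hD00 S (Finset.mem_univ S)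
    rw [if_pos h1] at h3
    rcases mul_eq_zero.1 h3 with h | h
    · exfalso
      have : (S.card : ℝ) = 2 := by linarith
      exact h2 (by exact_mod_cast this)
    · exact pow_eq_zero_iff (by norm_num) |>.1 h
  have h0 : ft (ind F) ∅ = 1 / 2 := by
    rw [ft_empty, ← hM, ← hm, hmM2]
    field_simp
  refine ⟨hlow, hFc, laplace_of _ h0 ?_⟩
  intro S hS1 hS2
  rcases Nat.lt_or_ge S.card 2 with h | h
  · have h1 : 0 < S.card := Finset.card_pos.2 (Finset.nonempty_iff_ne_empty.2 hS1)
    obtain ⟨i, rfl⟩ := Finset.card_eq_one.1 (by omega : S.card = 1)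
    exact haz i
  · exact hft S h hS2

lemma ind_zero {A : Finset α} (h : A ∈ F) : ind F A = 0 := by simp [ind, h]

lemma ind_one {A : Finset α} (h : A ∉ F) : ind F A = 1 := by simp [ind, h]

lemma ind_eq_zero {A : Finset α} (h : ind F A = 0) : A ∈ F := by
  by_contra hA
  rw [ind_one F hA] at h
  norm_num at h

lemma ind_eq_one {A : Finset α} (h : ind F A = 1) : A ∉ F := by
  intro hA
  rw [ind_zero F hA] at h
  norm_num at h

/-- The classification on the ground set `α`. -/
lemma classify (huc : ∀ A ∈ F, ∀ B ∈ F, A ∪ B ∈ F) (hbig : 2 ^ Fintype.card α ≤ 2 * F.card)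
    (hmax : ∀ i : α, 2 * (F.filter (fun A => i ∈ A)).card ≤ F.card)
    (hcov : ∀ i : α, ∃ A ∈ F, i ∈ A) :
    F = Finset.univ ∨ ∃ i j : α, i ≠ j ∧ ∀ A : Finset α, A ∈ F ↔ (i ∈ A ↔ j ∈ A) := by
  by_cases hne : F = Finset.univ
  · exact Or.inl hne
  right
  obtain ⟨hlow, -, hlap⟩ := extremal F huc hbig hmax hne hcov
  -- the empty set
  have hemp : ∅ ∈ F := by
    apply ind_eq_zero
    rw [← hlow ∅]
    simp [low]
  have h1 := hlap ∅
  rw [ind_zero F hemp] at h1
  have h2 : ∑ i : α, ind F {i} = 2 := by
    have h3 : ∀ i : α, (0 : ℝ) - ind F (flip i ∅) = - ind F {i} := by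
      intro i
      have : flip i (∅ : Finset α) = {i} := by simp [flip]
      rw [this]
      ring
    rw [Finset.sum_congr rfl fun i _ => h3 i, Finset.sum_neg_distrib] at h1
    linarith
  set Z : Finset α := Finset.univ.filter (fun i => ({i} : Finset α) ∉ F) with hZ
  have hZc : Z.card = 2 := by
    have h3 : ∑ i : α, ind F {i} = Z.card := by
      have : ∀ i : α, ind F {i} = if ({i} : Finset α) ∉ F then (1 : ℝ) else 0 := by
        intro i
        unfold ind
        split_ifs <;> simp_all
      rw [Finset.sum_congr rfl fun i _ => this i, Finset.sum_boole]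
    rw [h3] at h2
    exact_mod_cast h2
  obtain ⟨i, j, hij, hZij⟩ := Finset.card_eq_two.1 hZc
  have hZm : ∀ k, k ≠ i → k ≠ j → ({k} : Finset α) ∈ F := by
    intro k hk1 hk2
    by_contra hcon
    have : k ∈ Z := by rw [hZ]; simp [hcon]
    rw [hZij] at this
    simp [hk1, hk2] at this
  have hiF : ({i} : Finset α) ∉ F := by
    have : i ∈ Z := by rw [hZij]; simp
    rw [hZ] at this
    simpa using this
  -- sets avoiding i and j
  have hK : ∀ K : Finset α, i ∉ K → j ∉ K → K ∈ F := by
    intro K
    induction K using Finset.induction_on with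
    | empty => intro _ _; exact hemp
    | insert k K hk ih =>
      intro hi hj
      rw [Finset.mem_insert, not_or] at hi hj
      have h3 := huc _ (hZm k (Ne.symm hi.1) (Ne.symm hj.1)) _ (ih hi.2 hj.2)
      rwa [← Finset.insert_eq] at h3
  -- the two special neighbours
  have hKij : ∀ K : Finset α, i ∉ K → j ∉ K → insert i K ∉ F ∧ insert j K ∉ F := by
    intro K hi hj
    have h3 := hlap K
    rw [ind_zero F (hK K hi hj)] at h3
    have h4 : ∑ k : α, (0 - ind F (flip k K)) =
        -(ind F (insert i K) + ind F (insert j K)) := by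
      rw [← Finset.add_sum_erase _ _ (Finset.mem_univ i),
        ← Finset.add_sum_erase _ _ (Finset.mem_erase.2 ⟨Ne.symm hij, Finset.mem_univ j⟩)]
      have h5 : ∑ k ∈ (Finset.univ.erase i).erase j, (0 - ind F (flip k K)) = 0 := by
        apply Finset.sum_eq_zero
        intro k hk
        simp only [Finset.mem_erase, Finset.mem_univ, and_true] at hk
        rw [ind_zero F (hK _ ?_ ?_)]
        · ring
        · rw [mem_flip_ne _ (Ne.symm hk.2)]; exact hi
        · rw [mem_flip_ne _ (Ne.symm hk.1)]; exact hj
      rw [h5]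
      have e1 : flip i K = insert i K := by simp [flip, hi]
      have e2 : flip j K = insert j K := by simp [flip, hj]
      rw [e1, e2]
      ring
    rw [h4] at h3
    have a1 := ind_le F (insert i K)
    have a2 := ind_le F (insert j K)
    exact ⟨ind_eq_one F (by linarith), ind_eq_one F (by linarith)⟩
  -- the pair
  have hpair : ({i, j} : Finset α) ∈ F := by
    have h3 := hlap {i}
    rw [ind_one F hiF] at h3
    have h4 : ∑ k : α, (1 - ind F (flip k {i})) = 1 + (1 - ind F {i, j}) := by
      rw [← Finset.add_sum_erase _ _ (Finset.mem_univ i),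
        ← Finset.add_sum_erase _ _ (Finset.mem_erase.2 ⟨Ne.symm hij, Finset.mem_univ j⟩)]
      have h5 : ∑ k ∈ (Finset.univ.erase i).erase j, (1 - ind F (flip k {i})) = 0 := by
        apply Finset.sum_eq_zero
        intro k hk
        simp only [Finset.mem_erase, Finset.mem_univ, and_true] at hk
        have e1 : flip k ({i} : Finset α) = insert i {k} := by
          have : k ∉ ({i} : Finset α) := by simp [hk.2]
          rw [flip, if_neg this]
          exact Finset.pair_comm k i
        rw [e1, ind_one F (hKij {k} (by simp [Ne.symm hk.2]) (by simp [Ne.symm hk.1])).1]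
        ring
      rw [h5]
      have e1 : flip i ({i} : Finset α) = ∅ := by simp [flip]
      have e2 : flip j ({i} : Finset α) = {i, j} := by
        have : j ∉ ({i} : Finset α) := by simp [Ne.symm hij]
        rw [flip, if_neg this]
        exact Finset.pair_comm j i
      rw [e1, e2, ind_zero F hemp]
      ring
    rw [h4] at h3
    exact ind_eq_zero F (by linarith)
  refine ⟨i, j, hij, fun A => ?_⟩
  by_cases hi : i ∈ A
  · by_cases hj : j ∈ A
    · simp only [hi, hj, iff_self, iff_true]
      have h3 : A = {i, j} ∪ ((A.erase i).erase j) := by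
        ext k
        simp only [Finset.mem_union, Finset.mem_insert, Finset.mem_singleton, Finset.mem_erase]
        constructor
        · intro hk
          by_cases e1 : k = i
          · left; left; exact e1
          · by_cases e2 : k = j
            · left; right; exact e2
            · right; exact ⟨e2, e1, hk⟩
        · rintro ((rfl | rfl) | h)
          · exact hi
          · exact hj
          · exact h.2.2
      rw [h3]
      exact huc _ hpair _ (hK _ (by simp) (by simp))
    · have h3 := (hKij (A.erase i) (by simp) (by simp [hj])).1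
      rw [Finset.insert_erase hi] at h3
      exact ⟨fun h => absurd h h3, fun h => absurd (h.1 hi) hj⟩
  · by_cases hj : j ∈ A
    · have h3 := (hKij (A.erase j) (by simp [hi]) (by simp)).2
      rw [Finset.insert_erase hj] at h3
      exact ⟨fun h => absurd h h3, fun h => absurd (h.2 hj) hi⟩
    · simp only [hi, hj, iff_self, iff_true]
      exact hK A hi hj

end main

/-- Poonen's statement for dense families, with the complete list of exceptions: a union-closed
family `F` of finite sets with ground set `U` (the union of its members) and at least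
`2 ^ (|U| - 1)` members has an element of frequency strictly greater than `|F| / 2`, unless `F` is
the power set of `U`, or for two distinct elements `i`, `j` of `U` the family consists of
all subsets of `U` which contain both or none of `i`, `j`. -/
theorem dense_poonen {β : Type*} [DecidableEq β] (F : Finset (Finset β))
    (huc : ∀ A ∈ F, ∀ B ∈ F, A ∪ B ∈ F) (hbig : 2 ^ (F.sup id).card ≤ 2 * F.card) :
    (∃ x ∈ F.sup id, F.card < 2 * (F.filter (fun A => x ∈ A)).card) ∨
      F = (F.sup id).powerset ∨
      ∃ i ∈ F.sup id, ∃ j ∈ F.sup id, i ≠ j ∧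
        F = (F.sup id).powerset.filter (fun A => i ∈ A ↔ j ∈ A) := by
  classical
  set U : Finset β := F.sup id with hU
  set e : {x // x ∈ U} ↪ β := Function.Embedding.subtype _ with he
  set G : Finset (Finset {x // x ∈ U}) :=
    Finset.univ.filter (fun B : Finset {x // x ∈ U} => B.map e ∈ F) with hG
  have hsub : ∀ A ∈ F, A ⊆ U := fun A hA => Finset.le_sup (f := id) hA
  have hmap : ∀ A : Finset β, A ⊆ U → (A.subtype (fun x => x ∈ U)).map e = A := by
    intro A hA
    rw [he]
    exact Finset.subtype_map_of_mem fun x hx => hA hx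
  have hmemG : ∀ B, B ∈ G ↔ B.map e ∈ F := by intro B; simp [hG]
  have hmapU : ∀ B : Finset {x // x ∈ U}, B.map e ⊆ U := by
    intro B x hx
    rw [Finset.mem_map] at hx
    obtain ⟨y, -, rfl⟩ := hx
    exact y.2
  have hinj : Function.Injective (fun B : Finset {x // x ∈ U} => B.map e) := Finset.map_injective e
  have himg : G.image (fun B => B.map e) = F := by
    ext A
    rw [Finset.mem_image]
    constructor
    · rintro ⟨B, hB, rfl⟩
      exact (hmemG B).1 hB
    · intro hA
      refine ⟨A.subtype (fun x => x ∈ U), ?_, hmap A (hsub A hA)⟩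
      rw [hmemG, hmap A (hsub A hA)]
      exact hA
  have hcard : G.card = F.card := by
    rw [← himg, Finset.card_image_of_injective _ hinj]
  have hmem : ∀ (B : Finset {x // x ∈ U}) (i : {x // x ∈ U}), (i : β) ∈ B.map e ↔ i ∈ B := by
    intro B i
    rw [Finset.mem_map]
    constructor
    · rintro ⟨y, hy, hyi⟩
      have : y = i := Subtype.ext hyi
      rwa [← this]
    · intro hi
      exact ⟨i, hi, rfl⟩
  have hcardf : ∀ i : {x // x ∈ U}, (G.filter (fun B => i ∈ B)).card =
      (F.filter (fun A => (i : β) ∈ A)).card := by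
    intro i
    rw [← Finset.card_image_of_injective (G.filter (fun B => i ∈ B)) hinj]
    congr 1
    ext A
    rw [Finset.mem_image, Finset.mem_filter]
    constructor
    · rintro ⟨B, hB, rfl⟩
      rw [Finset.mem_filter] at hB
      exact ⟨(hmemG B).1 hB.1, (hmem B i).2 hB.2⟩
    · rintro ⟨hA, hi⟩
      refine ⟨A.subtype (fun x => x ∈ U), ?_, hmap A (hsub A hA)⟩
      rw [Finset.mem_filter, hmemG, hmap A (hsub A hA), ← hmem, hmap A (hsub A hA)]
      exact ⟨hA, hi⟩
  by_cases hfr : ∃ x ∈ U, F.card < 2 * (F.filter (fun A => x ∈ A)).card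
  · exact Or.inl hfr
  right
  push Not at hfr
  have hcl := classify G
    (fun A hA B hB => by
      rw [hmemG, Finset.map_union]
      exact huc _ ((hmemG A).1 hA) _ ((hmemG B).1 hB))
    (by rw [Fintype.card_coe, hcard]; exact hbig)
    (fun i => by rw [hcardf, hcard]; exact hfr i i.2)
    (fun i => by
      have hi : (i : β) ∈ F.sup id := i.2
      rw [Finset.mem_sup] at hi
      obtain ⟨A, hA, hiA⟩ := hi
      refine ⟨A.subtype (fun x => x ∈ U), ?_, ?_⟩
      · rw [hmemG, hmap A (hsub A hA)]; exact hA
      · rw [← hmem, hmap A (hsub A hA)]; exact hiA)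
  rcases hcl with h | ⟨i, j, hij, h⟩
  · left
    ext A
    rw [Finset.mem_powerset]
    refine ⟨fun hA => hsub A hA, fun hA => ?_⟩
    have h1 : A.subtype (fun x => x ∈ U) ∈ G := by rw [h]; exact Finset.mem_univ _
    rwa [hmemG, hmap A hA] at h1
  · right
    refine ⟨i, i.2, j, j.2, fun hcon => hij (Subtype.ext hcon), ?_⟩
    ext A
    rw [Finset.mem_filter, Finset.mem_powerset]
    constructor
    · intro hA
      refine ⟨hsub A hA, ?_⟩
      have h1 : A.subtype (fun x => x ∈ U) ∈ G := by rw [hmemG, hmap A (hsub A hA)]; exact hA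
      have h2 := (h _).1 h1
      rwa [← hmem, ← hmem, hmap A (hsub A hA)] at h2
    · rintro ⟨hA, hij'⟩
      have h2 : A.subtype (fun x => x ∈ U) ∈ G := by
        rw [h, ← hmem, ← hmem, hmap A hA]
        exact hij'
      rwa [hmemG, hmap A hA] at h2

end SmoothUC.Dense
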