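import Pool.Agent.SmoothUC.Rare
import Pool.Agent.SmoothUC.Dense

/-!
# Deterministic part of the main regime
-/

namespace SmoothUC

open Finset

variable {n m : ℕ}

theorem family_union (ω : Fin n → Fin m → Bool) : ∀ A ∈ family ω, ∀ B ∈ family ω,
    A ∪ B ∈ family ω := by
  classical
  intro A hA B hB
  unfold family at *
  rw [Finset.mem_image] at hA hB ⊢
  obtain ⟨T, _, rfl⟩ := hA
  obtain ⟨T', _, rfl⟩ := hB
  refine ⟨T ∪ T', Finset.mem_univ _, ?_⟩
  ext x
  simp only [Finset.mem_biUnion, Finset.mem_union]
  constructor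
  · rintro ⟨i, hi | hi, hx⟩
    · exact Or.inl ⟨i, hi, hx⟩
    · exact Or.inr ⟨i, hi, hx⟩
  · rintro (⟨i, hi, hx⟩ | ⟨i, hi, hx⟩)
    · exact ⟨i, Or.inl hi, hx⟩
    · exact ⟨i, Or.inr hi, hx⟩

theorem row_mem_family (ω : Fin n → Fin m → Bool) (i : Fin n) : row ω i ∈ family ω := by
  classical
  unfold family
  rw [Finset.mem_image]
  exact ⟨{i}, Finset.mem_univ _, by simp⟩

theorem good_of_close (hm : 2 ≤ m) (F U U' : Finset (Finset (Fin m)))
    (huc : ∀ A ∈ F, ∀ B ∈ F, A ∪ B ∈ F)
    (hstar : 5 * U.card ≤ 3 * 2 ^ m →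
      (1 / 4 : ℝ) * U.card ≤ ∑ B ∈ U.filter (fun B => m < 2 * B.card), (2 * (B.card : ℝ) - m)
      - ∑ B ∈ U'.filter (fun B => 2 * B.card < m), ((m : ℝ) - 2 * B.card))
    (hst : (m : ℝ) * (((U.filter (fun B => B ∉ F)).card : ℝ) +
      ((F.filter (fun B => B ∉ U')).card : ℝ)) < U.card / 4)
    (hsep : ∀ i j : Fin m, i ≠ j → ∃ A ∈ F, i ∈ A ∧ j ∉ A) : Good F := by
  classical
  have hm0 : (2 : ℝ) ≤ m := by exact_mod_cast hm
  set s : ℝ := ((U.filter (fun B => B ∉ F)).card : ℝ) with hs
  set t : ℝ := ((F.filter (fun B => B ∉ U')).card : ℝ) with ht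
  have hs0 : 0 ≤ s := Nat.cast_nonneg _
  have ht0 : 0 ≤ t := Nat.cast_nonneg _
  have hcardm : ∀ B : Finset (Fin m), B.card ≤ m := by
    intro B
    have := Finset.card_le_univ B
    rwa [Fintype.card_fin] at this
  by_cases hcase : 5 * U.card ≤ 3 * 2 ^ m
  · right
    by_contra hcon
    push Not at hcon
    have h1 := hstar hcase
    -- total excess
    have hsum : ∑ B ∈ F, (2 * (B.card : ℝ) - m) ≤ 0 := by
      have h2 : ∑ B ∈ F, B.card = ∑ x : Fin m, (F.filter (fun A => x ∈ A)).card := by
        simp_rw [Finset.card_filter]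
        rw [Finset.sum_comm]
        refine Finset.sum_congr rfl fun B _ => ?_
        simp
      have h3 : 2 * ∑ B ∈ F, B.card ≤ m * F.card := by
        rw [h2, Finset.mul_sum]
        calc ∑ x : Fin m, 2 * (F.filter (fun A => x ∈ A)).card ≤ ∑ _x : Fin m, F.card :=
              Finset.sum_le_sum fun x _ => hcon x
          _ = m * F.card := by simp
      rw [Finset.sum_sub_distrib, ← Finset.mul_sum, Finset.sum_const, nsmul_eq_mul]
      have h3' : (2 : ℝ) * ∑ B ∈ F, (B.card : ℝ) ≤ m * F.card := by exact_mod_cast h3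
      linarith
    have hsplit : ∑ B ∈ F, (2 * (B.card : ℝ) - m) =
        ∑ B ∈ F, (if m < 2 * B.card then 2 * (B.card : ℝ) - m else 0) -
        ∑ B ∈ F, (if 2 * B.card < m then (m : ℝ) - 2 * B.card else 0) := by
      rw [← Finset.sum_sub_distrib]
      refine Finset.sum_congr rfl fun B _ => ?_
      rcases lt_trichotomy m (2 * B.card) with h | h | h
      · rw [if_pos h, if_neg (by omega)]
        ring
      · rw [if_neg (by omega), if_neg (by omega)]
        have : (m : ℝ) = 2 * B.card := by exact_mod_cast h
        rw [this]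
        ring
      · rw [if_neg (by omega), if_pos h]
        ring
    have hplus : ∑ B ∈ U.filter (fun B => m < 2 * B.card), (2 * (B.card : ℝ) - m) ≤
        ∑ B ∈ F, (if m < 2 * B.card then 2 * (B.card : ℝ) - m else 0) + m * s := by
      rw [Finset.sum_filter]
      have h4 : ∀ B ∈ U, (if m < 2 * B.card then 2 * (B.card : ℝ) - m else 0) ≤
          (if B ∈ F then (if m < 2 * B.card then 2 * (B.card : ℝ) - m else 0) else 0) +
          (if B ∉ F then (m : ℝ) else 0) := by
        intro B _
        by_cases hB : B ∈ F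
        · simp [hB]
        · rw [if_neg hB, if_pos hB, zero_add]
          split_ifs
          · have : (B.card : ℝ) ≤ m := by exact_mod_cast hcardm B
            linarith
          · linarith
      refine (Finset.sum_le_sum h4).trans ?_
      rw [Finset.sum_add_distrib]
      refine add_le_add ?_ ?_
      · rw [← Finset.sum_filter]
        refine Finset.sum_le_sum_of_subset_of_nonneg ?_ ?_
        · intro B hB
          exact (Finset.mem_filter.mp hB).2
        · intro B _ _
          split_ifs with h
          · have : (m : ℝ) < 2 * B.card := by exact_mod_cast h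
            linarith
          · exact le_refl _
      · rw [← Finset.sum_filter, Finset.sum_const, nsmul_eq_mul, hs, mul_comm]
    have hminus : ∑ B ∈ F, (if 2 * B.card < m then (m : ℝ) - 2 * B.card else 0) ≤
        ∑ B ∈ U'.filter (fun B => 2 * B.card < m), ((m : ℝ) - 2 * B.card) + m * t := by
      rw [Finset.sum_filter]
      have h4 : ∀ B ∈ F, (if 2 * B.card < m then (m : ℝ) - 2 * B.card else 0) ≤
          (if B ∈ U' then (if 2 * B.card < m then (m : ℝ) - 2 * B.card else 0) else 0) +
          (if B ∉ U' then (m : ℝ) else 0) := by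
        intro B _
        by_cases hB : B ∈ U'
        · simp [hB]
        · rw [if_neg hB, if_pos hB, zero_add]
          split_ifs
          · have : (0 : ℝ) ≤ B.card := Nat.cast_nonneg _
            linarith
          · linarith
      refine (Finset.sum_le_sum h4).trans ?_
      rw [Finset.sum_add_distrib]
      refine add_le_add ?_ ?_
      · rw [← Finset.sum_filter]
        refine Finset.sum_le_sum_of_subset_of_nonneg ?_ ?_
        · intro B hB
          exact (Finset.mem_filter.mp hB).2
        · intro B _ _
          split_ifs with h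
          · have : (2 : ℝ) * B.card < m := by exact_mod_cast h
            linarith
          · exact le_refl _
      · rw [← Finset.sum_filter, Finset.sum_const, nsmul_eq_mul, ht, mul_comm]
    rw [hsplit] at hsum
    have h5 : (m : ℝ) * (s + t) = m * s + m * t := by ring
    rw [h5] at hst
    linarith
  · -- dense case
    push Not at hcase
    have hUc : U.card ≤ (U.filter (fun B => B ∉ F)).card + F.card := by
      rw [← Finset.card_filter_add_card_filter_not (s := U) (fun B => B ∉ F)]
      refine Nat.add_le_add_left ?_ _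
      refine Finset.card_le_card ?_
      intro B hB
      have := (Finset.mem_filter.mp hB).2
      exact not_not.mp this
    have hdense : 2 ^ m ≤ 2 * F.card := by
      have h6 : (U.card : ℝ) ≤ s + F.card := by
        rw [hs]
        exact_mod_cast hUc
      have h7 : (3 : ℝ) * 2 ^ m < 5 * U.card := by exact_mod_cast hcase
      have h8 : 8 * s ≤ U.card := by nlinarith
      have h9 : (2 : ℝ) ^ m ≤ 2 * F.card := by nlinarith
      exact_mod_cast h9
    have hdense' : 2 ^ (F.sup id).card ≤ 2 * F.card :=
      (Nat.pow_le_pow_right (by norm_num) (hcardm _)).trans hdense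
    rcases Dense.dense_poonen F huc hdense' with ⟨x, _, hx⟩ | h | ⟨i, _, j, _, hij, hF⟩
    · exact Or.inr ⟨x, hx⟩
    · exact Or.inl h
    · exfalso
      obtain ⟨A, hA, hi, hj⟩ := hsep i j hij
      rw [hF] at hA
      have := (Finset.mem_filter.mp hA).2
      exact hj (this.mp hi)

end SmoothUC
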