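import Pool.Agent.SmoothUC.Prob

/-!
# The expected number of generators inside a set
-/

namespace SmoothUC

open Finset

variable {n m : ℕ}

/-- the probability that row `i` is contained in `B` -/
noncomputable def av (p : Fin n → Fin m → ℝ) (i : Fin n) (B : Finset (Fin m)) : ℝ :=
  ∏ y ∈ Bᶜ, (1 - p i y)

/-- the expected number of generators inside `B` -/
noncomputable def mu (p : Fin n → Fin m → ℝ) (B : Finset (Fin m)) : ℝ := ∑ i, av p i B

/-- the probability that `y` is in no row with index in `T` -/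
noncomputable def rho (p : Fin n → Fin m → ℝ) (T : Finset (Fin n)) (y : Fin m) : ℝ :=
  ∏ i ∈ T, (1 - p i y)

variable {p : Fin n → Fin m → ℝ} {ε : ℝ}

theorem av_nonneg (hε : 0 < ε) (hp : Fair ε p) (i : Fin n) (B : Finset (Fin m)) :
    0 ≤ av p i B :=
  Finset.prod_nonneg fun y _ => by have := hp i y; linarith

theorem mu_nonneg (hε : 0 < ε) (hp : Fair ε p) (B : Finset (Fin m)) : 0 ≤ mu p B :=
  Finset.sum_nonneg fun i _ => av_nonneg hε hp i B

theorem mu_univ : mu p univ = n := by
  simp [mu, av]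

theorem av_split {A B : Finset (Fin m)} (h : B ⊆ A) (i : Fin n) :
    av p i B = av p i A * ∏ y ∈ A \ B, (1 - p i y) := by
  unfold av
  rw [← Finset.prod_union]
  · congr 1
    ext y
    simp only [Finset.mem_compl, Finset.mem_union, Finset.mem_sdiff]
    constructor
    · intro hy
      by_cases hA : y ∈ A
      · exact Or.inr ⟨hA, hy⟩
      · exact Or.inl hA
    · rintro (hy | hy)
      · exact fun hB => hy (h hB)
      · exact hy.2
  · rw [Finset.disjoint_left]
    intro y hy hy2
    exact (Finset.mem_compl.mp hy) (Finset.mem_sdiff.mp hy2).1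

theorem mu_le_pow (hε : 0 < ε) (hp : Fair ε p) {A B : Finset (Fin m)} (h : B ⊆ A) :
    mu p B ≤ (1 - ε) ^ (A \ B).card * mu p A := by
  unfold mu
  rw [Finset.mul_sum]
  refine Finset.sum_le_sum fun i _ => ?_
  rw [av_split h, mul_comm]
  refine mul_le_mul_of_nonneg_right ?_ (av_nonneg hε hp i A)
  calc ∏ y ∈ A \ B, (1 - p i y) ≤ ∏ _y ∈ A \ B, (1 - ε) :=
        Finset.prod_le_prod (fun y _ => by have := hp i y; linarith)
          (fun y _ => by have := hp i y; linarith)
    _ = _ := by rw [Finset.prod_const]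

theorem pow_le_mu (hε : 0 < ε) (hp : Fair ε p) {A B : Finset (Fin m)} (h : B ⊆ A) :
    ε ^ (A \ B).card * mu p A ≤ mu p B := by
  unfold mu
  rw [Finset.mul_sum]
  refine Finset.sum_le_sum fun i _ => ?_
  rw [av_split h, mul_comm]
  refine mul_le_mul_of_nonneg_left ?_ (av_nonneg hε hp i A)
  calc ε ^ (A \ B).card = ∏ _y ∈ A \ B, ε := by rw [Finset.prod_const]
    _ ≤ ∏ y ∈ A \ B, (1 - p i y) :=
        Finset.prod_le_prod (fun y _ => hε.le) (fun y _ => by have := hp i y; linarith)

theorem mu_mono (hε : 0 < ε) (hp : Fair ε p) {A B : Finset (Fin m)} (h : B ⊆ A) :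
    mu p B ≤ mu p A := by
  unfold mu
  refine Finset.sum_le_sum fun i _ => ?_
  rw [av_split h]
  calc av p i A * ∏ y ∈ A \ B, (1 - p i y) ≤ av p i A * 1 := by
        refine mul_le_mul_of_nonneg_left ?_ (av_nonneg hε hp i A)
        exact Finset.prod_le_one (fun y _ => by have := hp i y; linarith)
          (fun y _ => by have := hp i y; linarith)
    _ = _ := mul_one _

/-- coordinate events in one vector -/
theorem sum_coord {k : ℕ} (a : Fin k → ℝ) (D : Fin k → Bool → Prop) [∀ i b, Decidable (D i b)] :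
    (∑ c : Fin k → Bool, if (∀ i, D i (c i)) then
      ∏ i, (if c i = true then a i else 1 - a i) else 0) =
      ∏ i, ((if D i true then a i else 0) + (if D i false then 1 - a i else 0)) := by
  classical
  have h1 : ∀ c : Fin k → Bool, (if (∀ i, D i (c i)) then
      ∏ i, (if c i = true then a i else 1 - a i) else 0) =
      ∏ i, (if D i (c i) then (if c i = true then a i else 1 - a i) else 0) := by
    intro c
    split_ifs with h
    · refine Finset.prod_congr rfl fun i _ => ?_
      rw [if_pos (h i)]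
    · push Not at h
      obtain ⟨i, hi⟩ := h
      rw [Finset.prod_eq_zero (Finset.mem_univ i)]
      rw [if_neg hi]
  simp_rw [h1]
  rw [sum_bool_fun (fun i (b : Bool) => if D i b then (if b = true then a i else 1 - a i) else 0)]
  refine Finset.prod_congr rfl fun i _ => ?_
  simp

/-- probability of `row i` containing `x` and lying inside `B` -/
theorem sum_in {k : ℕ} (a : Fin k → ℝ) (B : Finset (Fin k)) (x : Fin k) (hx : x ∈ B) :
    (∑ c : Fin k → Bool, if (c x = true ∧ ∀ y ∈ Bᶜ, c y = false) then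
      ∏ i, (if c i = true then a i else 1 - a i) else 0) = a x * ∏ y ∈ Bᶜ, (1 - a y) := by
  classical
  have h1 : ∀ c : Fin k → Bool, (c x = true ∧ ∀ y ∈ Bᶜ, c y = false) ↔
      (∀ i, (i = x → c i = true) ∧ (i ∉ B → c i = false)) := by
    intro c
    constructor
    · rintro ⟨h1, h2⟩ i
      exact ⟨fun h => by rw [h]; exact h1, fun h => h2 i (Finset.mem_compl.mpr h)⟩
    · intro h
      exact ⟨(h x).1 rfl, fun y hy => (h y).2 (Finset.mem_compl.mp hy)⟩
  simp_rw [h1]
  rw [sum_coord a (fun i b => (i = x → b = true) ∧ (i ∉ B → b = false))]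
  rw [← Finset.mul_prod_erase univ _ (Finset.mem_univ x)]
  have hx1 : ((if ((x = x → true = true) ∧ (x ∉ B → true = false)) then a x else 0) +
      (if ((x = x → false = true) ∧ (x ∉ B → false = false)) then 1 - a x else 0)) = a x := by
    simp [hx]
  rw [hx1]
  congr 1
  have hsub : Bᶜ ⊆ univ.erase x := by
    intro y hy
    rw [Finset.mem_erase]
    refine ⟨?_, Finset.mem_univ y⟩
    rintro rfl
    exact (Finset.mem_compl.mp hy) hx
  rw [← Finset.prod_subset hsub]
  · refine Finset.prod_congr rfl fun y hy => ?_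
    have hyB := Finset.mem_compl.mp hy
    have hyx : y ≠ x := fun h => hyB (h ▸ hx)
    simp [hyB, hyx]
  · intro y hy hyB
    have hyx : y ≠ x := (Finset.mem_erase.mp hy).1
    have hyB' : y ∈ B := by simpa using hyB
    simp [hyB', hyx]

/-- `B` is not generated: `P(B ∉ F) ≤ m exp(-ε μ(B))`. -/
theorem Pr_not_mem (hε : 0 < ε) (hp : Fair ε p) (B : Finset (Fin m)) :
    Pr p (fun ω => B ∉ family ω) ≤ m * Real.exp (-(ε * mu p B)) := by
  classical
  have h1 : ∀ ω : Fin n → Fin m → Bool, B ∉ family ω →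
      ∃ x ∈ B, ∀ i, ¬ (ω i x = true ∧ ∀ y ∈ Bᶜ, ω i y = false) := by
    intro ω hB
    by_contra hcon
    push Not at hcon
    apply hB
    unfold family
    rw [Finset.mem_image]
    refine ⟨univ.filter (fun i => row ω i ⊆ B), Finset.mem_univ _, ?_⟩
    apply Finset.Subset.antisymm
    · intro x hx
      rw [Finset.mem_biUnion] at hx
      obtain ⟨i, hi, hi2⟩ := hx
      exact (Finset.mem_filter.mp hi).2 hi2
    · intro x hx
      obtain ⟨i, hi, hi2⟩ := hcon x hx
      rw [Finset.mem_biUnion]
      refine ⟨i, ?_, ?_⟩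
      · rw [Finset.mem_filter]
        refine ⟨Finset.mem_univ i, ?_⟩
        intro y hy
        by_contra hyB
        have := hi2 y (Finset.mem_compl.mpr hyB)
        simp only [row, Finset.mem_filter, Finset.mem_univ, true_and] at hy
        rw [hy] at this
        exact absurd this (by simp)
      · simp only [row, Finset.mem_filter, Finset.mem_univ, true_and]
        exact hi
  refine (Pr_mono hε.le hp h1).trans ?_
  refine (Pr_exists hε.le hp B _).trans ?_
  have h2 : ∀ x ∈ B, Pr p (fun ω => ∀ i, ¬ (ω i x = true ∧ ∀ y ∈ Bᶜ, ω i y = false)) ≤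
      Real.exp (-(ε * mu p B)) := by
    intro x hx
    rw [Pr_rows p (fun i r => ¬ (r x = true ∧ ∀ y ∈ Bᶜ, r y = false))]
    have h3 : ∀ i : Fin n, (∑ r : Fin m → Bool,
        if ¬ (r x = true ∧ ∀ y ∈ Bᶜ, r y = false) then
          ∏ x, (if r x = true then p i x else 1 - p i x) else 0) = 1 - p i x * av p i B := by
      intro i
      unfold av
      rw [← sum_in (fun y => p i y) B x hx, ← sum_vec_compl]
      refine Finset.sum_congr rfl fun r _ => ?_
      by_cases h : (r x = true ∧ ∀ y ∈ Bᶜ, r y = false)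
      · rw [if_neg (not_not.mpr h), if_pos h]
      · rw [if_pos h, if_neg h]
    simp_rw [h3]
    have h4 : Real.exp (-(ε * mu p B)) = ∏ i : Fin n, Real.exp (-(ε * av p i B)) := by
      rw [← Real.exp_sum]
      congr 1
      unfold mu
      rw [Finset.mul_sum, Finset.sum_neg_distrib]
    rw [h4]
    refine Finset.prod_le_prod (fun i _ => ?_) (fun i _ => ?_)
    · have ha : av p i B ≤ 1 := by
        unfold av
        exact Finset.prod_le_one (fun y _ => by have := hp i y; linarith)
          (fun y _ => by have := hp i y; linarith)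
      have ha0 := av_nonneg hε hp i B
      have := hp i x
      nlinarith
    · have ha0 := av_nonneg hε hp i B
      have h5 : ε * av p i B ≤ p i x * av p i B := mul_le_mul_of_nonneg_right (hp i x).1 ha0
      have h6 := Real.add_one_le_exp (-(ε * av p i B))
      linarith
  refine (Finset.sum_le_sum h2).trans ?_
  rw [Finset.sum_const, nsmul_eq_mul]
  refine mul_le_mul_of_nonneg_right ?_ (Real.exp_pos _).le
  exact_mod_cast (Finset.card_le_univ B).trans (by simp)

/-- membership needs some `T` -/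
theorem Pr_mem_le (hε : 0 < ε) (hp : Fair ε p) (B : Finset (Fin m)) :
    Pr p (fun ω => B ∈ family ω) ≤ ∑ T : Finset (Fin n), Pr p (fun ω => T.biUnion (row ω) = B) := by
  classical
  refine le_trans (Pr_mono hε.le hp ?_) (Pr_exists hε.le hp univ _)
  intro ω h
  unfold family at h
  rw [Finset.mem_image] at h
  exact h

theorem rho_nonneg (hε : 0 < ε) (hp : Fair ε p) (T : Finset (Fin n)) (y : Fin m) :
    0 ≤ rho p T y :=
  Finset.prod_nonneg fun i _ => by have := hp i y; linarith

theorem rho_le_one (hε : 0 < ε) (hp : Fair ε p) (T : Finset (Fin n)) (y : Fin m) :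
    rho p T y ≤ 1 :=
  Finset.prod_le_one (fun i _ => by have := hp i y; linarith)
    (fun i _ => by have := hp i y; linarith)

theorem pow_le_rho (hε : 0 < ε) (hp : Fair ε p) (T : Finset (Fin n)) (y : Fin m) :
    ε ^ T.card ≤ rho p T y := by
  unfold rho
  calc ε ^ T.card = ∏ _i ∈ T, ε := by rw [Finset.prod_const]
    _ ≤ _ := Finset.prod_le_prod (fun i _ => hε.le) (fun i _ => by have := hp i y; linarith)

theorem Pr_biUnion (T : Finset (Fin n)) (B : Finset (Fin m)) :
    Pr p (fun ω => T.biUnion (row ω) = B) =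
      (∏ y ∈ Bᶜ, rho p T y) * ∏ x ∈ B, (1 - rho p T x) := by
  classical
  rw [Pr_biUnion_eq]
  have h1 : ∀ x : Fin m, (if x ∈ B then 1 - ∏ i ∈ T, (1 - p i x) else ∏ i ∈ T, (1 - p i x)) =
      (if x ∈ B then 1 - rho p T x else rho p T x) := fun x => rfl
  simp_rw [h1]
  rw [Finset.prod_ite, mul_comm]
  congr 1
  · apply Finset.prod_congr
    · ext y
      simp
    · intro _ _
      rfl
  · apply Finset.prod_congr
    · ext y
      simp
    · intro _ _
      rfl

theorem prod_rho (T : Finset (Fin n)) (B : Finset (Fin m)) :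
    ∏ y ∈ Bᶜ, rho p T y = ∏ i ∈ T, av p i B := by
  unfold rho av
  rw [Finset.prod_comm]

theorem Pr_biUnion_le (hε : 0 < ε) (hp : Fair ε p) (T : Finset (Fin n)) (B : Finset (Fin m)) :
    Pr p (fun ω => T.biUnion (row ω) = B) ≤ ∏ i ∈ T, av p i B := by
  rw [Pr_biUnion, prod_rho]
  have h1 : ∏ x ∈ B, (1 - rho p T x) ≤ 1 :=
    Finset.prod_le_one (fun x _ => by have := rho_le_one hε hp T x; linarith)
      (fun x _ => by have := rho_nonneg hε hp T x; linarith)
  have h2 : 0 ≤ ∏ i ∈ T, av p i B := Finset.prod_nonneg fun i _ => av_nonneg hε hp i B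
  calc _ ≤ (∏ i ∈ T, av p i B) * 1 := mul_le_mul_of_nonneg_left h1 h2
    _ = _ := mul_one _

/-- elementary symmetric sums are at most powers of the sum -/
theorem esymm_le {ι : Type*} [DecidableEq ι] (a : ι → ℝ) (ha : ∀ i, 0 ≤ a i) (s : Finset ι) (k : ℕ) :
    ∑ T ∈ s.powersetCard k, ∏ i ∈ T, a i ≤ (∑ i ∈ s, a i) ^ k := by
  induction s using Finset.induction_on generalizing k with
  | empty =>
    rcases k with _ | k
    · simp
    · rw [Finset.powersetCard_eq_empty.mpr (by simp)]
      simp
  | insert i s hi ih =>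
    rcases k with _ | k
    · simp
    · rw [Finset.powersetCard_succ_insert hi, Finset.sum_union, Finset.sum_image,
        Finset.sum_insert hi]
      · have h1 : ∑ T ∈ s.powersetCard k, ∏ j ∈ insert i T, a j =
            a i * ∑ T ∈ s.powersetCard k, ∏ j ∈ T, a j := by
          rw [Finset.mul_sum]
          refine Finset.sum_congr rfl fun T hT => ?_
          rw [Finset.prod_insert]
          intro h
          exact hi ((Finset.mem_powersetCard.mp hT).1 h)
        rw [h1]
        have hs : 0 ≤ ∑ j ∈ s, a j := Finset.sum_nonneg fun j _ => ha j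
        calc ∑ T ∈ s.powersetCard (k + 1), ∏ j ∈ T, a j +
              a i * ∑ T ∈ s.powersetCard k, ∏ j ∈ T, a j
            ≤ (∑ j ∈ s, a j) ^ (k + 1) + a i * (∑ j ∈ s, a j) ^ k :=
              add_le_add (ih (k + 1)) (mul_le_mul_of_nonneg_left (ih k) (ha i))
          _ = (a i + ∑ j ∈ s, a j) * (∑ j ∈ s, a j) ^ k := by ring
          _ ≤ (a i + ∑ j ∈ s, a j) * (a i + ∑ j ∈ s, a j) ^ k := by
              refine mul_le_mul_of_nonneg_left ?_ (by have := ha i; linarith)
              exact pow_le_pow_left₀ hs (by have := ha i; linarith) k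
          _ = _ := by ring
      · intro T hT T' hT' h
        have h1 : i ∉ T := fun h => hi ((Finset.mem_powersetCard.mp hT).1 h)
        have h2 : i ∉ T' := fun h => hi ((Finset.mem_powersetCard.mp hT').1 h)
        rw [← Finset.erase_insert h1, ← Finset.erase_insert h2, h]
      · rw [Finset.disjoint_left]
        intro T hT hT'
        obtain ⟨T'', _, rfl⟩ := Finset.mem_image.mp hT'
        exact hi ((Finset.mem_powersetCard.mp hT).1 (Finset.mem_insert_self i T''))

theorem esymm_mu_le (hε : 0 < ε) (hp : Fair ε p) (A : Finset (Fin m)) (k : ℕ) :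
    ∑ T ∈ (univ : Finset (Fin n)).powersetCard k, ∏ i ∈ T, av p i A ≤ mu p A ^ k :=
  esymm_le _ (fun i => av_nonneg hε hp i A) _ k

/-- large `T`: the sum is at most `2 μ^K` if `μ ≤ 1/2` -/
theorem sum_large_T (hε : 0 < ε) (hp : Fair ε p) (B : Finset (Fin m)) (K : ℕ)
    (hmu : mu p B ≤ 1 / 2) :
    ∑ T ∈ (univ : Finset (Finset (Fin n))).filter (fun T => K ≤ T.card),
      Pr p (fun ω => T.biUnion (row ω) = B) ≤ 2 * mu p B ^ K := by
  classical
  have h0 := mu_nonneg hε hp B
  have h1 : ∑ T ∈ (univ : Finset (Finset (Fin n))).filter (fun T => K ≤ T.card),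
      Pr p (fun ω => T.biUnion (row ω) = B) ≤
      ∑ T ∈ (univ : Finset (Finset (Fin n))).filter (fun T => K ≤ T.card), ∏ i ∈ T, av p i B :=
    Finset.sum_le_sum fun T _ => Pr_biUnion_le hε hp T B
  refine h1.trans ?_
  have h2 : ∑ T ∈ (univ : Finset (Finset (Fin n))).filter (fun T => K ≤ T.card),
      ∏ i ∈ T, av p i B = ∑ k ∈ Finset.Ico K (n + 1),
        ∑ T ∈ (univ : Finset (Fin n)).powersetCard k, ∏ i ∈ T, av p i B := by
    rw [← Finset.sum_fiberwise_of_maps_to (s := (univ : Finset (Finset (Fin n))).filter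
      (fun T => K ≤ T.card)) (t := Finset.Ico K (n + 1)) (g := fun T => T.card)]
    · refine Finset.sum_congr rfl fun k hk => ?_
      refine Finset.sum_congr ?_ fun _ _ => rfl
      ext T
      simp only [Finset.mem_filter, Finset.mem_univ, true_and, Finset.mem_powersetCard,
        Finset.subset_univ]
      constructor
      · exact fun h => h.2
      · exact fun h => ⟨h ▸ (Finset.mem_Ico.mp hk).1, h⟩
    · intro T hT
      rw [Finset.mem_Ico]
      refine ⟨(Finset.mem_filter.mp hT).2, ?_⟩
      have := Finset.card_le_univ T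
      rw [Fintype.card_fin] at this
      omega
  rw [h2]
  have h3 : ∑ k ∈ Finset.Ico K (n + 1),
        ∑ T ∈ (univ : Finset (Fin n)).powersetCard k, ∏ i ∈ T, av p i B ≤
      ∑ k ∈ Finset.Ico K (n + 1), mu p B ^ k :=
    Finset.sum_le_sum fun k _ => esymm_mu_le hε hp B k
  refine h3.trans ?_
  rw [Finset.sum_Ico_eq_sum_range]
  have h4 : ∀ j, mu p B ^ (K + j) = mu p B ^ K * mu p B ^ j := fun j => pow_add _ _ _
  simp_rw [h4]
  rw [← Finset.mul_sum, mul_comm 2]
  refine mul_le_mul_of_nonneg_left ?_ (pow_nonneg h0 K)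
  have h5 : ∑ j ∈ Finset.range (n + 1 - K), mu p B ^ j ≤
      ∑ j ∈ Finset.range (n + 1 - K), (1 / 2 : ℝ) ^ j :=
    Finset.sum_le_sum fun j _ => pow_le_pow_left₀ h0 hmu j
  refine h5.trans ?_
  have h6 := geom_sum_eq (x := (1 / 2 : ℝ)) (by norm_num) (n + 1 - K)
  rw [h6]
  have h7 : (0 : ℝ) < (1 / 2) ^ (n + 1 - K) := by positivity
  rw [div_le_iff_of_neg (by norm_num)]
  linarith

end SmoothUC
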