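import Pool.Agent.SmoothUC.Defs

/-!
# Finite product probability for `SmoothUC`
-/

namespace SmoothUC

open Finset

variable {n m : ℕ}

/-- rows factorisation -/
theorem sum_rows (G : Fin n → (Fin m → Bool) → ℝ) :
    ∑ ω : Fin n → Fin m → Bool, ∏ i, G i (ω i) = ∏ i, ∑ ρ : Fin m → Bool, G i ρ := by
  rw [Finset.prod_univ_sum]
  simp [Fintype.piFinset_univ]

/-- columns factorisation -/
theorem sum_cols (G : Fin m → (Fin n → Bool) → ℝ) :
    ∑ ω : Fin n → Fin m → Bool, ∏ x, G x (fun i => ω i x) = ∏ x, ∑ c : Fin n → Bool, G x c := by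
  rw [← sum_rows (n := m) (m := n) G]
  exact Fintype.sum_equiv (Equiv.piComm (fun (_ : Fin n) (_ : Fin m) => Bool)) _ _ (fun ω => rfl)

/-- entries factorisation -/
theorem sum_entries (f : Fin n → Fin m → Bool → ℝ) :
    ∑ ω : Fin n → Fin m → Bool, ∏ i, ∏ x, f i x (ω i x) =
      ∏ i, ∏ x, (f i x true + f i x false) := by
  rw [sum_rows (fun i ρ => ∏ x, f i x (ρ x))]
  refine Finset.prod_congr rfl fun i _ => ?_
  have := Finset.prod_univ_sum (fun _ : Fin m => (univ : Finset Bool)) (f i)
  rw [Fintype.piFinset_univ] at this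
  rw [← this]
  refine Finset.prod_congr rfl fun x _ => ?_
  simp

theorem sum_bool_fun (f : Fin m → Bool → ℝ) :
    ∑ ρ : Fin m → Bool, ∏ x, f x (ρ x) = ∏ x, (f x true + f x false) := by
  have := Finset.prod_univ_sum (fun _ : Fin m => (univ : Finset Bool)) f
  rw [Fintype.piFinset_univ] at this
  rw [← this]
  refine Finset.prod_congr rfl fun x _ => ?_
  simp

/-- expectation -/
noncomputable def Ex (p : Fin n → Fin m → ℝ) (f : (Fin n → Fin m → Bool) → ℝ) : ℝ :=
  ∑ ω, weight p ω * f ω

theorem Pr_eq_Ex (p : Fin n → Fin m → ℝ) (E : (Fin n → Fin m → Bool) → Prop)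
    [DecidablePred E] : Pr p E = Ex p (fun ω => if E ω then 1 else 0) := by
  classical
  unfold Pr Ex
  rw [Finset.sum_filter]
  refine Finset.sum_congr rfl fun ω _ => ?_
  by_cases h : E ω <;> simp [h]

theorem weight_nonneg {ε : ℝ} (hε : 0 ≤ ε) {p : Fin n → Fin m → ℝ} (hp : Fair ε p)
    (ω : Fin n → Fin m → Bool) : 0 ≤ weight p ω := by
  unfold weight
  refine Finset.prod_nonneg fun i _ => Finset.prod_nonneg fun x _ => ?_
  have := hp i x
  split_ifs
  · linarith
  · linarith

theorem sum_weight (p : Fin n → Fin m → ℝ) : ∑ ω, weight p ω = 1 := by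
  unfold weight
  have := sum_entries (fun i x (b : Bool) => if b = true then p i x else 1 - p i x)
  rw [this]
  simp

theorem Pr_true (p : Fin n → Fin m → ℝ) : Pr p (fun _ => True) = 1 := by
  unfold Pr
  simp [sum_weight]

theorem Pr_nonneg {ε : ℝ} (hε : 0 ≤ ε) {p : Fin n → Fin m → ℝ} (hp : Fair ε p)
    (E : (Fin n → Fin m → Bool) → Prop) : 0 ≤ Pr p E :=
  Finset.sum_nonneg fun ω _ => weight_nonneg hε hp ω

theorem Pr_mono {ε : ℝ} (hε : 0 ≤ ε) {p : Fin n → Fin m → ℝ} (hp : Fair ε p)
    {E E' : (Fin n → Fin m → Bool) → Prop} (h : ∀ ω, E ω → E' ω) : Pr p E ≤ Pr p E' := by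
  classical
  unfold Pr
  refine Finset.sum_le_sum_of_subset_of_nonneg ?_ (fun ω _ _ => weight_nonneg hε hp ω)
  intro ω hω
  simp only [Finset.mem_filter, Finset.mem_univ, true_and] at hω ⊢
  exact h ω hω

theorem Pr_le_one {ε : ℝ} (hε : 0 ≤ ε) {p : Fin n → Fin m → ℝ} (hp : Fair ε p)
    (E : (Fin n → Fin m → Bool) → Prop) : Pr p E ≤ 1 := by
  rw [← Pr_true p]
  exact Pr_mono hε hp (fun _ _ => trivial)

theorem Pr_compl (p : Fin n → Fin m → ℝ) (E : (Fin n → Fin m → Bool) → Prop) :
    Pr p E + Pr p (fun ω => ¬ E ω) = 1 := by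
  classical
  rw [← sum_weight p, Pr_eq_Ex, Pr_eq_Ex p (fun ω => ¬ E ω)]
  unfold Ex
  rw [← Finset.sum_add_distrib]
  refine Finset.sum_congr rfl fun ω _ => ?_
  by_cases h : E ω <;> simp [h]

theorem Pr_or {ε : ℝ} (hε : 0 ≤ ε) {p : Fin n → Fin m → ℝ} (hp : Fair ε p)
    (E E' : (Fin n → Fin m → Bool) → Prop) :
    Pr p (fun ω => E ω ∨ E' ω) ≤ Pr p E + Pr p E' := by
  classical
  rw [Pr_eq_Ex, Pr_eq_Ex p E, Pr_eq_Ex p E']
  unfold Ex
  rw [← Finset.sum_add_distrib]
  refine Finset.sum_le_sum fun ω _ => ?_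
  rw [← mul_add]
  refine mul_le_mul_of_nonneg_left ?_ (weight_nonneg hε hp ω)
  by_cases h : E ω <;> by_cases h' : E' ω <;> simp [h, h']

/-- union bound -/
theorem Pr_exists {ε : ℝ} (hε : 0 ≤ ε) {p : Fin n → Fin m → ℝ} (hp : Fair ε p) {ι : Type*}
    (s : Finset ι) (E : ι → (Fin n → Fin m → Bool) → Prop) :
    Pr p (fun ω => ∃ j ∈ s, E j ω) ≤ ∑ j ∈ s, Pr p (E j) := by
  classical
  simp_rw [Pr_eq_Ex]
  unfold Ex
  rw [Finset.sum_comm]
  refine Finset.sum_le_sum fun ω _ => ?_
  rw [← Finset.mul_sum]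
  refine mul_le_mul_of_nonneg_left ?_ (weight_nonneg hε hp ω)
  dsimp only
  split_ifs with h
  · obtain ⟨j, hj, hE⟩ := h
    calc (1 : ℝ) = if E j ω then 1 else 0 := by simp [hE]
      _ ≤ _ := Finset.single_le_sum (f := fun j => if E j ω then (1 : ℝ) else 0)
          (fun j _ => by split_ifs <;> norm_num) hj
  · exact Finset.sum_nonneg fun j _ => by split_ifs <;> norm_num

/-- expected number -/
theorem Ex_card {ι : Type*} (p : Fin n → Fin m → ℝ) (s : Finset ι)
    (E : ι → (Fin n → Fin m → Bool) → Prop) [∀ j ω, Decidable (E j ω)] :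
    Ex p (fun ω => ((s.filter (fun j => E j ω)).card : ℝ)) = ∑ j ∈ s, Pr p (E j) := by
  classical
  simp_rw [Pr_eq_Ex]
  unfold Ex
  rw [Finset.sum_comm]
  refine Finset.sum_congr rfl fun ω _ => ?_
  rw [← Finset.mul_sum]
  congr 1
  dsimp only
  rw [Finset.card_filter]
  push_cast
  rfl

/-- Markov -/
theorem markov {ε : ℝ} (hε : 0 ≤ ε) {p : Fin n → Fin m → ℝ} (hp : Fair ε p)
    (f : (Fin n → Fin m → Bool) → ℝ) (hf : ∀ ω, 0 ≤ f ω) (a : ℝ) (ha : 0 < a) :
    Pr p (fun ω => a < f ω) ≤ Ex p f / a := by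
  classical
  rw [le_div_iff₀ ha, Pr_eq_Ex]
  unfold Ex
  rw [Finset.sum_mul]
  refine Finset.sum_le_sum fun ω _ => ?_
  rw [mul_assoc]
  refine mul_le_mul_of_nonneg_left ?_ (weight_nonneg hε hp ω)
  dsimp only
  split_ifs with h
  · linarith
  · simpa using hf ω

/-- Product events over columns: `E` holds iff every column `x` satisfies `C x`. -/
theorem Pr_cols (p : Fin n → Fin m → ℝ) (C : Fin m → (Fin n → Bool) → Prop)
    [∀ x c, Decidable (C x c)] :
    Pr p (fun ω => ∀ x, C x (fun i => ω i x)) =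
      ∏ x, ∑ c : Fin n → Bool, if C x c then ∏ i, (if c i = true then p i x else 1 - p i x)
        else 0 := by
  classical
  rw [Pr_eq_Ex, ← sum_cols (fun x c => if C x c then
    ∏ i, (if c i = true then p i x else 1 - p i x) else 0)]
  unfold Ex weight
  refine Finset.sum_congr rfl fun ω _ => ?_
  rw [Finset.prod_comm]
  dsimp only
  by_cases h : ∀ x, C x (fun i => ω i x)
  · rw [if_pos h, mul_one]
    refine Finset.prod_congr rfl fun x _ => ?_
    rw [if_pos (h x)]
  · rw [if_neg h, mul_zero]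
    push Not at h
    obtain ⟨x, hx⟩ := h
    rw [Finset.prod_eq_zero (Finset.mem_univ x)]
    rw [if_neg hx]

/-- Product events over rows. -/
theorem Pr_rows (p : Fin n → Fin m → ℝ) (C : Fin n → (Fin m → Bool) → Prop)
    [∀ i r, Decidable (C i r)] :
    Pr p (fun ω => ∀ i, C i (ω i)) =
      ∏ i, ∑ r : Fin m → Bool, if C i r then ∏ x, (if r x = true then p i x else 1 - p i x)
        else 0 := by
  classical
  rw [Pr_eq_Ex, ← sum_rows (fun i r => if C i r then
    ∏ x, (if r x = true then p i x else 1 - p i x) else 0)]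
  unfold Ex weight
  refine Finset.sum_congr rfl fun ω _ => ?_
  dsimp only
  by_cases h : ∀ i, C i (ω i)
  · rw [if_pos h, mul_one]
    refine Finset.prod_congr rfl fun x _ => ?_
    rw [if_pos (h x)]
  · rw [if_neg h, mul_zero]
    push Not at h
    obtain ⟨x, hx⟩ := h
    rw [Finset.prod_eq_zero (Finset.mem_univ x)]
    rw [if_neg hx]

/-- sum over one column/row vector with all coordinates in `T` false: `∏_{i∈T}(1-a i)`. -/
theorem sum_all_false {k : ℕ} (a : Fin k → ℝ) (T : Finset (Fin k)) :
    (∑ c : Fin k → Bool, if (∀ i ∈ T, c i = false) then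
      ∏ i, (if c i = true then a i else 1 - a i) else 0) = ∏ i ∈ T, (1 - a i) := by
  classical
  have h1 : ∀ c : Fin k → Bool, (if (∀ i ∈ T, c i = false) then
      ∏ i, (if c i = true then a i else 1 - a i) else 0) =
      ∏ i, (if c i = true then (if i ∈ T then 0 else a i) else 1 - a i) := by
    intro c
    split_ifs with h
    · refine Finset.prod_congr rfl fun i _ => ?_
      by_cases hc : c i = true
      · have : i ∉ T := fun hi => by
          have := h i hi
          rw [hc] at this
          exact absurd this (by simp)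
        simp [hc, this]
      · simp [hc]
    · push Not at h
      obtain ⟨i, hi, hc⟩ := h
      have hc' : c i = true := by
        cases hci : c i
        · exact absurd hci hc
        · rfl
      rw [Finset.prod_eq_zero (Finset.mem_univ i)]
      simp [hc', hi]
  simp_rw [h1]
  rw [sum_bool_fun (fun i (b : Bool) => if b = true then (if i ∈ T then 0 else a i) else 1 - a i)]
  simp only [if_true, Bool.false_eq_true, if_false]
  rw [← Finset.prod_subset (Finset.subset_univ T)]
  · refine Finset.prod_congr rfl fun i hi => ?_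
    simp [hi]
  · intro i _ hi
    simp [hi]

theorem sum_one_vec {k : ℕ} (a : Fin k → ℝ) :
    (∑ c : Fin k → Bool, ∏ i, (if c i = true then a i else 1 - a i)) = 1 := by
  have := sum_all_false a ∅
  simpa using this

/-- complement event in one vector -/
theorem sum_vec_compl {k : ℕ} (a : Fin k → ℝ) (C : (Fin k → Bool) → Prop) [DecidablePred C] :
    (∑ c : Fin k → Bool, if C c then 0 else ∏ i, (if c i = true then a i else 1 - a i)) =
      1 - ∑ c : Fin k → Bool, if C c then ∏ i, (if c i = true then a i else 1 - a i) else 0 := by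
  have h1 := sum_one_vec a
  rw [eq_sub_iff_add_eq, ← Finset.sum_add_distrib]
  refine Eq.trans (Finset.sum_congr rfl fun c _ => ?_) h1
  by_cases h : C c <;> simp [h]

/-- `P(∪_{i∈T} S_i = B)` -/
theorem Pr_biUnion_eq (p : Fin n → Fin m → ℝ) (T : Finset (Fin n)) (B : Finset (Fin m)) :
    Pr p (fun ω => T.biUnion (row ω) = B) =
      ∏ x, (if x ∈ B then 1 - ∏ i ∈ T, (1 - p i x) else ∏ i ∈ T, (1 - p i x)) := by
  classical
  have h0 : (fun ω : Fin n → Fin m → Bool => T.biUnion (row ω) = B) =
      fun ω => ∀ x, ((if x ∈ B then ¬ (∀ i ∈ T, (fun i => ω i x) i = false)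
        else (∀ i ∈ T, (fun i => ω i x) i = false)) : Prop) := by
    funext ω
    apply propext
    constructor
    · intro h x
      by_cases hx : x ∈ B
      · rw [if_pos hx]
        rw [← h] at hx
        simp only [Finset.mem_biUnion, row, Finset.mem_filter, Finset.mem_univ, true_and] at hx
        obtain ⟨i, hi, hi2⟩ := hx
        intro hall
        have := hall i hi
        simp [hi2] at this
      · rw [if_neg hx]
        intro i hi
        by_contra hne
        apply hx
        rw [← h]
        simp only [Finset.mem_biUnion, row, Finset.mem_filter, Finset.mem_univ, true_and]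
        exact ⟨i, hi, by simpa using hne⟩
    · intro h
      ext x
      have hx := h x
      simp only [Finset.mem_biUnion, row, Finset.mem_filter, Finset.mem_univ, true_and]
      by_cases hB : x ∈ B
      · rw [if_pos hB] at hx
        push Not at hx
        obtain ⟨i, hi, hi2⟩ := hx
        simp only [hB, iff_true]
        exact ⟨i, hi, by simpa using hi2⟩
      · rw [if_neg hB] at hx
        simp only [hB, iff_false]
        rintro ⟨i, hi, hi2⟩
        have := hx i hi
        simp [hi2] at this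
  rw [h0, Pr_cols p (fun x c => if x ∈ B then ¬ (∀ i ∈ T, c i = false)
        else (∀ i ∈ T, c i = false))]
  refine Finset.prod_congr rfl fun x _ => ?_
  by_cases hB : x ∈ B
  · simp only [hB, if_true]
    rw [← sum_all_false (fun i => p i x) T, ← sum_vec_compl]
    refine Finset.sum_congr rfl fun c _ => ?_
    by_cases hc : ∀ i ∈ T, c i = false
    · rw [if_neg (not_not.mpr hc), if_pos hc]
    · rw [if_pos hc, if_neg hc]
  · simp only [hB, if_false]
    rw [← sum_all_false (fun i => p i x) T]

end SmoothUC
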