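import Mathlib

/-!
# Up-sets of the cube: LYM-type inequality on the boundary, small members, mean size
-/

namespace SmoothUC

open Finset

/-- up-sets -/
def UpSet {m : ℕ} (U : Finset (Finset (Fin m))) : Prop := ∀ A ∈ U, ∀ B, A ⊆ B → B ∈ U

namespace StarAux

lemma erase_count {α : Type*} [DecidableEq α] (C D : Finset α) (hD : D ⊆ C) :
    ∑ x ∈ C, ((D.erase x).card : ℝ) = D.card * ((C.card : ℝ) - 1) := by
  have h1 : ∀ x ∈ C, ((D.erase x).card : ℝ) = D.card - if x ∈ D then 1 else 0 := by
    intro x _
    by_cases hx : x ∈ D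
    · rw [card_erase_of_mem hx, if_pos hx]
      have := card_pos.2 ⟨x, hx⟩
      push_cast [Nat.cast_sub this]
      ring
    · rw [erase_eq_of_notMem hx, if_neg hx, sub_zero]
  rw [sum_congr rfl h1, sum_sub_distrib, sum_const, nsmul_eq_mul, ← sum_filter, sum_const,
    nsmul_eq_mul, mul_one]
  have h2 : C.filter (fun x => x ∈ D) = D := by
    ext x
    simp only [mem_filter]
    exact ⟨fun h => h.2, fun h => ⟨hD h, h⟩⟩
  rw [h2]
  ring

/-- the summand of the LYM sum -/
noncomputable def term {m : ℕ} (U : Finset (Finset (Fin m))) (B A : Finset (Fin m)) : ℝ :=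
  (((A \ B).filter (fun x => A.erase x ∉ U)).card : ℝ) /
    (((A.card - B.card : ℕ) : ℝ) * ((m - B.card).choose (A.card - B.card) : ℝ))

lemma term_nonneg {m : ℕ} (U : Finset (Finset (Fin m))) (B A : Finset (Fin m)) :
    0 ≤ term U B A := by
  unfold term
  positivity

lemma choose_id (n t : ℕ) (hn : 1 ≤ n) (ht : 1 ≤ t) :
    (n : ℝ) * ((n - 1).choose (t - 1) : ℝ) = t * (n.choose t : ℝ) := by
  obtain ⟨n, rfl⟩ : ∃ k, n = k + 1 := ⟨n - 1, by omega⟩
  obtain ⟨t, rfl⟩ : ∃ k, t = k + 1 := ⟨t - 1, by omega⟩
  have h := Nat.add_one_mul_choose_eq n t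
  simp only [Nat.add_sub_cancel]
  rw [mul_comm ((t + 1 : ℕ) : ℝ)]
  exact_mod_cast h

lemma lym_step {m : ℕ} (U : Finset (Finset (Fin m))) (B : Finset (Fin m)) (hB : B ∉ U)
    (hBm : B.card < m) :
    ∑ x ∈ Bᶜ, (if insert x B ∈ U then (1 : ℝ) else
      ∑ A ∈ U.filter (fun A => insert x B ⊆ A), term U (insert x B) A) ≤
      ((m - B.card : ℕ) : ℝ) * ∑ A ∈ U.filter (fun A => B ⊆ A), term U B A := by
  set n := m - B.card with hn
  have hn1 : 1 ≤ n := by omega
  -- the majorant
  set τ : Finset (Fin m) → Fin m → ℝ := fun A x =>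
    if A.card = B.card + 1 then 1 else term U (insert x B) A with hτ
  have hτ0 : ∀ A x, 0 ≤ τ A x := by
    intro A x
    simp only [hτ]
    split_ifs
    · exact zero_le_one
    · exact term_nonneg _ _ _
  have h1 : ∀ x ∈ Bᶜ, (if insert x B ∈ U then (1 : ℝ) else
      ∑ A ∈ U.filter (fun A => insert x B ⊆ A), term U (insert x B) A) ≤
      ∑ A ∈ U.filter (fun A => insert x B ⊆ A), τ A x := by
    intro x hx
    have hxB : x ∉ B := by simpa using hx
    have hcard : (insert x B).card = B.card + 1 := card_insert_of_notMem hxB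
    split_ifs with hU
    · have h2 : τ (insert x B) x = 1 := by simp [hτ, hcard]
      rw [← h2]
      exact single_le_sum (f := fun A => τ A x) (fun A _ => hτ0 A x)
        (mem_filter.2 ⟨hU, Subset.refl _⟩)
    · apply le_of_eq
      refine sum_congr rfl fun A hA => ?_
      rw [mem_filter] at hA
      simp only [hτ]
      rw [if_neg]
      intro hAc
      have : insert x B = A := eq_of_subset_of_card_le hA.2 (by omega)
      exact hU (this ▸ hA.1)
  refine (sum_le_sum h1).trans ?_
  rw [sum_comm' (t' := U.filter (fun A => B ⊆ A)) (s' := fun A => A \ B) (by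
    intro x A
    simp only [mem_compl, mem_filter, mem_sdiff]
    constructor
    · rintro ⟨h2, h3, h4⟩
      exact ⟨⟨h4 (mem_insert_self _ _), h2⟩, h3, (subset_insert _ _).trans h4⟩
    · rintro ⟨⟨h2, h3⟩, h4, h5⟩
      exact ⟨h3, h4, insert_subset h2 h5⟩), mul_sum]
  refine sum_le_sum fun A hA => ?_
  rw [mem_filter] at hA
  obtain ⟨hAU, hBA⟩ := hA
  have hne : A ≠ B := fun h => hB (h ▸ hAU)
  have hlt : B.card < A.card := card_lt_card (hBA.ssubset_of_ne hne.symm)
  have hAm : A.card ≤ m := by simpa using card_le_univ A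
  set t := A.card - B.card with ht
  have ht1 : 1 ≤ t := by omega
  set D := (A \ B).filter (fun x => A.erase x ∉ U) with hD
  have hterm : (n : ℝ) * term U B A = D.card / ((n - 1).choose (t - 1) : ℝ) := by
    unfold term
    rw [← hD, ← ht, ← hn, ← choose_id n t hn1 ht1]
    have h2 : ((n - 1).choose (t - 1) : ℝ) ≠ 0 := by
      have := Nat.choose_pos (show t - 1 ≤ n - 1 by omega)
      positivity
    have h3 : (n : ℝ) ≠ 0 := by positivity
    field_simp
  rw [hterm]
  have hcardAB : (A \ B).card = t := by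
    rw [card_sdiff_of_subset hBA]
  by_cases hAc : A.card = B.card + 1
  · have h2 : t = 1 := by omega
    have h3 : ∀ x ∈ A \ B, τ A x = 1 := by
      intro x _
      simp only [hτ]
      rw [if_pos hAc]
    rw [sum_congr rfl h3, sum_const, hcardAB, h2]
    have h4 : D = A \ B := by
      rw [hD, filter_eq_self]
      intro x hx
      rw [mem_sdiff] at hx
      have h5 : A.erase x = B := by
        symm
        apply eq_of_subset_of_card_le
        · intro y hy
          rw [mem_erase]
          exact ⟨fun h => hx.2 (h ▸ hy), hBA hy⟩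
        · rw [card_erase_of_mem hx.1]
          omega
      rw [h5]
      exact hB
    rw [h4, hcardAB, h2]
    simp
  · have h2 : 2 ≤ t := by omega
    have h3 : ∀ x ∈ A \ B, τ A x = ((D.erase x).card : ℝ) /
        (((t - 1 : ℕ) : ℝ) * ((n - 1).choose (t - 1) : ℝ)) := by
      intro x hx
      rw [mem_sdiff] at hx
      simp only [hτ]
      rw [if_neg hAc]
      unfold term
      have h4 : (insert x B).card = B.card + 1 := card_insert_of_notMem hx.2
      have h5 : (A \ insert x B).filter (fun x => A.erase x ∉ U) = D.erase x := by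
        ext y
        simp only [hD, mem_filter, mem_sdiff, mem_insert, mem_erase, not_or]
        tauto
      rw [h5, h4, show A.card - (B.card + 1) = t - 1 from by omega,
        show m - (B.card + 1) = n - 1 from by omega]
    rw [sum_congr rfl h3, ← sum_div, erase_count (A \ B) D (filter_subset _ _), hcardAB]
    have h4 : ((t - 1 : ℕ) : ℝ) = (t : ℝ) - 1 := by
      rw [Nat.cast_sub ht1, Nat.cast_one]
    have h5 : (0 : ℝ) < (t : ℝ) - 1 := by
      have : (2 : ℝ) ≤ t := by exact_mod_cast h2
      linarith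
    have h6 : ((n - 1).choose (t - 1) : ℝ) ≠ 0 := by
      have := Nat.choose_pos (show t - 1 ≤ n - 1 by omega)
      positivity
    rw [h4]
    apply le_of_eq
    field_simp

end StarAux

open StarAux in
theorem lym_hit {m : ℕ} (U : Finset (Finset (Fin m))) (h1 : univ ∈ U) (B : Finset (Fin m))
    (hB : B ∉ U) :
    (1 : ℝ) ≤ ∑ A ∈ U.filter (fun A => B ⊆ A),
      (((A \ B).filter (fun x => A.erase x ∉ U)).card : ℝ) /
        (((A.card - B.card : ℕ) : ℝ) * ((m - B.card).choose (A.card - B.card) : ℝ)) := by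
  change (1 : ℝ) ≤ ∑ A ∈ U.filter (fun A => B ⊆ A), term U B A
  induction hk : m - B.card using Nat.strong_induction_on generalizing B with
  | _ k ih =>
    have hBm : B.card < m := by
      have h2 : B.card ≤ m := by simpa using card_le_univ B
      rcases h2.lt_or_eq with h | h
      · exact h
      · exfalso
        apply hB
        have : B = univ := eq_univ_of_card B (by simpa using h)
        rw [this]
        exact h1
    have hstep := lym_step U B hB hBm
    have hge : ((m - B.card : ℕ) : ℝ) ≤ ∑ x ∈ Bᶜ, (if insert x B ∈ U then (1 : ℝ) else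
        ∑ A ∈ U.filter (fun A => insert x B ⊆ A), term U (insert x B) A) := by
      have h2 : ((m - B.card : ℕ) : ℝ) = ∑ x ∈ Bᶜ, (1 : ℝ) := by
        rw [sum_const, card_compl, Fintype.card_fin, nsmul_eq_mul, mul_one]
      rw [h2]
      refine sum_le_sum fun x hx => ?_
      have hxB : x ∉ B := by simpa using hx
      split_ifs with hU
      · exact le_rfl
      · refine ih (m - (insert x B).card) ?_ (insert x B) hU rfl
        rw [card_insert_of_notMem hxB]
        omega
    have hpos : (0 : ℝ) < ((m - B.card : ℕ) : ℝ) := by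
      have : 0 < m - B.card := by omega
      exact_mod_cast this
    have h3 := hge.trans hstep
    have h4 : ((m - B.card : ℕ) : ℝ) * 1 ≤
        ((m - B.card : ℕ) : ℝ) * ∑ A ∈ U.filter (fun A => B ⊆ A), term U B A := by
      rw [mul_one]
      exact h3
    exact le_of_mul_le_mul_left h4 hpos

/-- Chernoff bound for the number of small subsets -/
lemma StarAux.low_card {m : ℕ} (hm : 0 < m) (g : ℝ) :
    (((univ : Finset (Finset (Fin m))).filter (fun A => (A.card : ℝ) ≤ m / 2 - g)).card : ℝ) ≤
      2 ^ m * Real.exp (-2 * g ^ 2 / m) ∨ g < 0 := by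
  by_cases hg : g < 0
  · exact Or.inr hg
  left
  push Not at hg
  have hm0 : (0 : ℝ) < m := by exact_mod_cast hm
  set l : ℝ := 4 * g / m with hl
  have hl0 : 0 ≤ l := by positivity
  have h1 : (((univ : Finset (Finset (Fin m))).filter
      (fun A => (A.card : ℝ) ≤ m / 2 - g)).card : ℝ) ≤
      ∑ A : Finset (Fin m), Real.exp (l * (m / 2 - g - A.card)) := by
    rw [card_eq_sum_ones, Nat.cast_sum, Nat.cast_one]
    refine le_trans (sum_le_sum fun A hA => ?_)
      (sum_le_sum_of_subset_of_nonneg (filter_subset _ _) fun A _ _ => (Real.exp_pos _).le)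
    rw [mem_filter] at hA
    apply Real.one_le_exp
    apply mul_nonneg hl0
    linarith [hA.2]
  have h2 : ∑ A : Finset (Fin m), Real.exp (l * (m / 2 - g - A.card)) =
      Real.exp (-(l * g)) * (Real.exp (-(l / 2)) + Real.exp (l / 2)) ^ m := by
    have h3 := Fintype.sum_pow_mul_eq_add_pow (Fin m) (Real.exp (-(l / 2))) (Real.exp (l / 2))
    rw [Fintype.card_fin] at h3
    rw [← h3, mul_sum]
    refine sum_congr rfl fun A _ => ?_
    have hA : A.card ≤ m := by simpa using card_le_univ A
    rw [← Real.exp_nat_mul, ← Real.exp_nat_mul, ← Real.exp_add, ← Real.exp_add,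
      Nat.cast_sub hA]
    congr 1
    ring
  have h4 : Real.exp (-(l / 2)) + Real.exp (l / 2) = 2 * Real.cosh (l / 2) := by
    rw [Real.cosh_eq]
    ring
  have h5 := Real.cosh_le_exp_half_sq (l / 2)
  rw [h2, h4] at h1
  refine h1.trans ?_
  calc Real.exp (-(l * g)) * (2 * Real.cosh (l / 2)) ^ m
      ≤ Real.exp (-(l * g)) * (2 * Real.exp ((l / 2) ^ 2 / 2)) ^ m := by
        have := Real.cosh_pos (l / 2)
        gcongr
    _ = 2 ^ m * Real.exp (-2 * g ^ 2 / m) := by
        rw [mul_pow, ← Real.exp_nat_mul, mul_left_comm, ← Real.exp_add]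
        congr 2
        rw [hl]
        field_simp
        ring

theorem small_upset {m : ℕ} (hm : 0 < m) (U : Finset (Finset (Fin m))) (hU : UpSet U) (g : ℝ)
    (hg : 0 ≤ g) :
    ((U.filter (fun A => (A.card : ℝ) ≤ m / 2 - g)).card : ℝ) ≤
      (m + 1) ^ 2 * Real.exp (-2 * g ^ 2 / m) * U.card := by
  classical
  set L := (univ : Finset (Finset (Fin m))).filter (fun A => (A.card : ℝ) ≤ m / 2 - g) with hL
  have h1 : U.filter (fun A => (A.card : ℝ) ≤ m / 2 - g) = U ∩ L := by
    ext A
    simp [hL]
  have hup : IsUpperSet (U : Set (Finset (Fin m))) := by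
    intro A B hAB hA
    exact hU A hA B hAB
  have hlow : IsLowerSet (L : Set (Finset (Fin m))) := by
    intro A B hBA hA
    simp only [hL, coe_filter, mem_univ, true_and, Set.mem_ofPred_eq] at hA ⊢
    have : (B.card : ℝ) ≤ A.card := by exact_mod_cast card_le_card hBA
    linarith
  have h2 := hup.card_inter_le_finset hlow
  rw [Fintype.card_fin] at h2
  have h3 : (2 : ℝ) ^ m * ((U ∩ L).card : ℝ) ≤ (U.card : ℝ) * L.card := by exact_mod_cast h2
  have h4 := (StarAux.low_card hm g).resolve_right (not_lt.2 hg)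
  rw [← hL] at h4
  rw [h1]
  have h5 : (2 : ℝ) ^ m * ((U ∩ L).card : ℝ) ≤
      2 ^ m * (Real.exp (-2 * g ^ 2 / m) * U.card) := by
    refine h3.trans ?_
    calc (U.card : ℝ) * L.card ≤ U.card * (2 ^ m * Real.exp (-2 * g ^ 2 / m)) := by gcongr
      _ = _ := by ring
  have h6 : ((U ∩ L).card : ℝ) ≤ Real.exp (-2 * g ^ 2 / m) * U.card :=
    le_of_mul_le_mul_left h5 (by positivity)
  refine h6.trans ?_
  have h7 : (1 : ℝ) ≤ ((m : ℝ) + 1) ^ 2 := by
    have : (0 : ℝ) ≤ m := Nat.cast_nonneg m
    nlinarith
  have h8 : 0 ≤ Real.exp (-2 * g ^ 2 / m) * U.card := by positivity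
  calc Real.exp (-2 * g ^ 2 / m) * U.card = 1 * (Real.exp (-2 * g ^ 2 / m) * U.card) := by ring
    _ ≤ ((m : ℝ) + 1) ^ 2 * (Real.exp (-2 * g ^ 2 / m) * U.card) := by gcongr
    _ = _ := by ring

namespace StarAux

/-! ### The edge Poincare inequality -/

lemma sum_symmDiff {m : ℕ} (F : Finset (Fin m) → ℝ) (T : Finset (Fin m)) :
    ∑ A, F (symmDiff A T) = ∑ A, F A := by
  have h : Function.Involutive (fun A : Finset (Fin m) => symmDiff A T) := by
    intro A
    exact symmDiff_symmDiff_cancel_right T A
  exact Equiv.sum_comp h.toPerm F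

/-- the variance along the coordinates in `S` -/
noncomputable def VV {m : ℕ} (f : Finset (Fin m) → ℝ) (S : Finset (Fin m)) : ℝ :=
  ∑ A, ∑ T ∈ S.powerset, (f (symmDiff A T) - f A) ^ 2

/-- the energy of the coordinate `i` -/
noncomputable def DD {m : ℕ} (f : Finset (Fin m) → ℝ) (i : Fin m) : ℝ :=
  ∑ A, (f (symmDiff A {i}) - f A) ^ 2

lemma quad {m : ℕ} (f : Finset (Fin m) → ℝ) (T : Finset (Fin m)) (i : Fin m) :
    ∑ A, (f (symmDiff (symmDiff A T) {i}) - f A) ^ 2 ≤
      ∑ A, (f (symmDiff A T) - f A) ^ 2 + DD f i := by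
  have h1 : ∑ A, ((f (symmDiff (symmDiff A T) {i}) - f A) ^ 2 +
      (f (symmDiff A T) - f (symmDiff A {i})) ^ 2) ≤
      ∑ A, ((f (symmDiff A T) - f A) ^ 2 +
        (f (symmDiff (symmDiff A T) {i}) - f (symmDiff A {i})) ^ 2 +
        (f (symmDiff A {i}) - f A) ^ 2 +
        (f (symmDiff (symmDiff A T) {i}) - f (symmDiff A T)) ^ 2) := by
    refine sum_le_sum fun A _ => ?_
    nlinarith [sq_nonneg (f A - f (symmDiff A T) + f (symmDiff (symmDiff A T) {i}) -
      f (symmDiff A {i}))]
  have hcomm : ∀ A : Finset (Fin m), symmDiff (symmDiff A {i}) T =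
      symmDiff (symmDiff A T) {i} := by
    intro A
    rw [symmDiff_assoc, symmDiff_comm {i} T, ← symmDiff_assoc]
  have h2 : ∑ A, (f (symmDiff A T) - f (symmDiff A {i})) ^ 2 =
      ∑ A, (f (symmDiff (symmDiff A T) {i}) - f A) ^ 2 := by
    rw [← sum_symmDiff (fun A => (f (symmDiff A T) - f (symmDiff A {i})) ^ 2) {i}]
    refine sum_congr rfl fun A _ => ?_
    rw [hcomm, symmDiff_symmDiff_cancel_right]
  have h3 : ∑ A, (f (symmDiff (symmDiff A T) {i}) - f (symmDiff A {i})) ^ 2 =
      ∑ A, (f (symmDiff A T) - f A) ^ 2 := by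
    rw [← sum_symmDiff (fun A => (f (symmDiff A T) - f A) ^ 2) {i}]
    refine sum_congr rfl fun A _ => ?_
    rw [hcomm]
  have h4 : ∑ A, (f (symmDiff (symmDiff A T) {i}) - f (symmDiff A T)) ^ 2 = DD f i :=
    sum_symmDiff (fun A => (f (symmDiff A {i}) - f A) ^ 2) T
  rw [sum_add_distrib, sum_add_distrib, sum_add_distrib, sum_add_distrib, h2, h3, h4] at h1
  change _ ≤ _ + _ + DD f i + _ at h1
  linarith

lemma poincare {m : ℕ} (f : Finset (Fin m) → ℝ) (S : Finset (Fin m)) :
    2 * VV f S ≤ 2 ^ S.card * ∑ i ∈ S, DD f i := by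
  induction S using Finset.induction_on with
  | empty =>
    have h0 : ∀ A : Finset (Fin m), symmDiff A ∅ = A := fun A => symmDiff_bot A
    simp [VV, h0]
  | insert i S hi ih =>
    have h1 : VV f (insert i S) = VV f S +
        ∑ T ∈ S.powerset, ∑ A, (f (symmDiff (symmDiff A T) {i}) - f A) ^ 2 := by
      unfold VV
      rw [sum_comm (s := S.powerset), ← sum_add_distrib]
      refine sum_congr rfl fun A _ => ?_
      rw [sum_powerset_insert hi]
      congr 1
      refine sum_congr rfl fun T hT => ?_
      have hiT : i ∉ T := fun h => hi (mem_powerset.1 hT h)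
      have h2 : insert i T = symmDiff T {i} := by
        ext y
        simp only [mem_insert, mem_symmDiff, mem_singleton]
        by_cases hy : y = i
        · subst hy
          simp [hiT]
        · simp [hy]
      rw [h2, ← symmDiff_assoc]
    have h2 : ∑ T ∈ S.powerset, ∑ A, (f (symmDiff (symmDiff A T) {i}) - f A) ^ 2 ≤
        VV f S + 2 ^ S.card * DD f i := by
      calc _ ≤ ∑ T ∈ S.powerset, (∑ A, (f (symmDiff A T) - f A) ^ 2 + DD f i) :=
            sum_le_sum fun T _ => quad f T i
        _ = VV f S + 2 ^ S.card * DD f i := by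
            rw [sum_add_distrib, sum_const, card_powerset, nsmul_eq_mul]
            unfold VV
            rw [sum_comm]
            push_cast
            ring
    rw [h1, card_insert_of_notMem hi, sum_insert hi, pow_succ]
    nlinarith

/-- the edge boundary of `U` -/
noncomputable def bd {m : ℕ} (U : Finset (Finset (Fin m))) : ℝ :=
  ∑ A ∈ U, ((A.filter (fun x => A.erase x ∉ U)).card : ℝ)

lemma symmDiff_single {m : ℕ} (A : Finset (Fin m)) (i : Fin m) :
    symmDiff A {i} = if i ∈ A then A.erase i else insert i A := by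
  ext y
  split_ifs with h
  · simp only [mem_symmDiff, mem_singleton, mem_erase]
    by_cases hy : y = i
    · subst hy
      simp [h]
    · simp [hy]
  · simp only [mem_symmDiff, mem_singleton, mem_insert]
    by_cases hy : y = i
    · subst hy
      simp [h]
    · simp [hy]

lemma sum_DD {m : ℕ} (U : Finset (Finset (Fin m))) (hU : UpSet U) :
    ∑ i, DD (fun A => if A ∈ U then (1 : ℝ) else 0) i = 2 * bd U := by
  classical
  set f : Finset (Fin m) → ℝ := fun A => if A ∈ U then (1 : ℝ) else 0 with hf
  have h1 : ∀ i, DD f i = 2 * ∑ A, if (A ∈ U ∧ symmDiff A {i} ∉ U) then (1 : ℝ) else 0 := by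
    intro i
    unfold DD
    have h2 : ∀ A, (f (symmDiff A {i}) - f A) ^ 2 =
        (if (A ∈ U ∧ symmDiff A {i} ∉ U) then (1 : ℝ) else 0) +
        (if (symmDiff A {i} ∈ U ∧ symmDiff (symmDiff A {i}) {i} ∉ U) then (1 : ℝ) else 0) := by
      intro A
      rw [symmDiff_symmDiff_cancel_right]
      simp only [hf]
      by_cases hA : A ∈ U <;> by_cases hB : symmDiff A {i} ∈ U <;> simp [hA, hB]
    rw [sum_congr rfl fun A _ => h2 A, sum_add_distrib,
      sum_symmDiff (fun A => if (A ∈ U ∧ symmDiff A {i} ∉ U) then (1 : ℝ) else 0) {i}]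
    ring
  rw [sum_congr rfl fun i _ => h1 i, ← mul_sum, sum_comm]
  congr 1
  unfold bd
  rw [← sum_subset (subset_univ U)]
  · refine sum_congr rfl fun A hA => ?_
    rw [card_filter]
    push_cast
    rw [← sum_subset (subset_univ A)]
    · refine sum_congr rfl fun i hi => ?_
      rw [symmDiff_single, if_pos hi]
      simp [hA]
    · intro i _ hi
      rw [symmDiff_single, if_neg hi]
      have : insert i A ∈ U := hU A hA _ (subset_insert _ _)
      simp [this]
  · intro A _ hA
    refine sum_eq_zero fun i _ => ?_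
    simp [hA]

lemma bd_ge {m : ℕ} (U : Finset (Finset (Fin m))) (hU : UpSet U) :
    2 * (U.card : ℝ) * (2 ^ m - U.card) ≤ 2 ^ m * bd U := by
  classical
  set f : Finset (Fin m) → ℝ := fun A => if A ∈ U then (1 : ℝ) else 0 with hf
  have h1 := poincare f univ
  rw [sum_DD U hU, card_univ, Fintype.card_fin] at h1
  have hsum : ∑ A, f A = U.card := by
    simp [hf]
  have hsq : ∑ A, f A ^ 2 = U.card := by
    have : ∀ A, f A ^ 2 = f A := by
      intro A
      simp only [hf]
      split_ifs <;> norm_num
    rw [sum_congr rfl fun A _ => this A, hsum]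
  have h2 : VV f univ = 2 * (U.card : ℝ) * (2 ^ m - U.card) := by
    unfold VV
    have h3 : ∀ A : Finset (Fin m), ∑ T ∈ (univ : Finset (Fin m)).powerset,
        (f (symmDiff A T) - f A) ^ 2 = U.card - 2 * f A * U.card + 2 ^ m * f A ^ 2 := by
      intro A
      rw [powerset_univ]
      have h4 : ∑ T, (f (symmDiff A T) - f A) ^ 2 = ∑ T, (f T - f A) ^ 2 := by
        rw [← sum_symmDiff (fun T => (f T - f A) ^ 2) A]
        refine sum_congr rfl fun T _ => ?_
        rw [symmDiff_comm]
      rw [h4]
      have h5 : ∀ T, (f T - f A) ^ 2 = f T ^ 2 - 2 * f A * f T + f A ^ 2 := fun T => by ring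
      rw [sum_congr rfl fun T _ => h5 T, sum_add_distrib, sum_sub_distrib, ← mul_sum, hsum, hsq,
        sum_const, card_univ, Fintype.card_finset, Fintype.card_fin, nsmul_eq_mul]
      push_cast
      ring
    rw [sum_congr rfl fun A _ => h3 A, sum_add_distrib, sum_sub_distrib, ← mul_sum, hsq,
      sum_const, card_univ, Fintype.card_finset, Fintype.card_fin, nsmul_eq_mul]
    have h6 : ∑ A, 2 * f A * (U.card : ℝ) = 2 * U.card * U.card := by
      rw [← sum_mul, ← mul_sum, hsum]
    rw [h6]
    push_cast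
    ring
  rw [h2] at h1
  linarith

lemma bd_eq {m : ℕ} (U : Finset (Finset (Fin m))) (hU : UpSet U) :
    bd U = ∑ A ∈ U, (2 * (A.card : ℝ) - m) := by
  classical
  have h1 : ∑ A ∈ U, ((A.filter (fun x => A.erase x ∈ U)).card : ℝ) =
      ∑ B ∈ U, ((Bᶜ).card : ℝ) := by
    have h2 : ∀ A ∈ U, ((A.filter (fun x => A.erase x ∈ U)).card : ℝ) =
        ∑ x ∈ A.filter (fun x => A.erase x ∈ U), (1 : ℝ) := by
      intro A _
      simp
    have h3 : ∀ B ∈ U, ((Bᶜ).card : ℝ) = ∑ x ∈ Bᶜ, (1 : ℝ) := by
      intro B _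
      simp
    rw [sum_congr rfl h2, sum_congr rfl h3, sum_sigma', sum_sigma']
    refine sum_bij' (fun p _ => ⟨p.1.erase p.2, p.2⟩) (fun p _ => ⟨insert p.2 p.1, p.2⟩)
      ?_ ?_ ?_ ?_ ?_
    · rintro ⟨A, x⟩ h
      simp only [mem_sigma, mem_filter] at h ⊢
      exact ⟨h.2.2, by simp⟩
    · rintro ⟨B, x⟩ h
      simp only [mem_sigma, mem_filter, mem_compl] at h ⊢
      refine ⟨hU B h.1 _ (subset_insert _ _), mem_insert_self _ _, ?_⟩
      rw [erase_insert h.2]
      exact h.1
    · rintro ⟨A, x⟩ h
      simp only [mem_sigma, mem_filter] at h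
      simp [insert_erase h.2.1]
    · rintro ⟨B, x⟩ h
      simp only [mem_sigma, mem_compl] at h
      simp [erase_insert h.2]
    · intro _ _
      rfl
  have h4 : ∀ A ∈ U, ((A.filter (fun x => A.erase x ∉ U)).card : ℝ) =
      A.card - ((A.filter (fun x => A.erase x ∈ U)).card : ℝ) := by
    intro A _
    have h5 := card_filter_add_card_filter_not (s := A) (fun x => A.erase x ∈ U)
    have h6 : ((A.filter (fun x => A.erase x ∈ U)).card : ℝ) +
        ((A.filter (fun x => ¬ A.erase x ∈ U)).card : ℝ) = A.card := by exact_mod_cast h5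
    linarith
  unfold bd
  rw [sum_congr rfl h4, sum_sub_distrib, h1, ← sum_sub_distrib]
  refine sum_congr rfl fun A _ => ?_
  have hA : A.card ≤ m := by simpa using card_le_univ A
  rw [card_compl, Fintype.card_fin, Nat.cast_sub hA]
  ring

/-! ### Counting near the boundary -/

/-- the weight of a set `B` of `b` elements below a boundary edge at distance `t` -/
lemma ratio {m r : ℕ} (hr : 1 ≤ r) (hbig : 100 * r ^ 2 ≤ m) (b : ℕ) (hb : 2 * b < m) (t : ℕ)
    (ht : 1 ≤ t) (htr : t ≤ r) :
    ((b + t - 1).choose (t - 1) : ℝ) / ((t : ℝ) * ((m - b).choose t : ℝ)) ≤ 6 / m := by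
  have hm0 : (0 : ℝ) < m := by
    have : 0 < m := by nlinarith
    exact_mod_cast this
  have hrr : (r : ℝ) * 100 * r ≤ m := by
    have : ((100 * r ^ 2 : ℕ) : ℝ) ≤ m := by exact_mod_cast hbig
    push_cast at this
    linarith
  have hr1 : (1 : ℝ) ≤ r := by exact_mod_cast hr
  have hb' : 2 * (b : ℝ) + 1 ≤ m := by exact_mod_cast hb
  have hrm : 100 * (r : ℝ) ≤ m := by nlinarith
  have hrmn : 100 * r ≤ m := by nlinarith
  have key : ∀ t : ℕ, 1 ≤ t → t ≤ r →
      ((b + t - 1).choose (t - 1) : ℝ) / ((t : ℝ) * ((m - b).choose t : ℝ)) ≤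
        2 / m * (1 + 8 * r / m) ^ (t - 1) := by
    intro t ht
    induction t, ht using Nat.le_induction with
    | base =>
      intro _
      simp only [Nat.sub_self, Nat.choose_zero_right, Nat.cast_one, Nat.choose_one_right, one_mul,
        pow_zero, mul_one]
      rw [Nat.cast_sub (by omega), div_le_div_iff₀ (by linarith) hm0]
      linarith
    | succ t ht ih =>
      intro htr
      have ih' := ih (by omega)
      have htr' : (t : ℝ) + 1 ≤ r := by exact_mod_cast htr
      have ht1 : (1 : ℝ) ≤ t := by exact_mod_cast ht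
      have hn : t + 1 ≤ m - b := by omega
      -- the quotient of consecutive terms
      have e1 : ((b + t).choose t : ℝ) * t = (b + t) * ((b + t - 1).choose (t - 1) : ℝ) := by
        have := choose_id (b + t) t (by omega) ht
        push_cast at this
        linarith
      have e2 : (((t + 1 : ℕ) : ℝ)) * ((m - b).choose (t + 1) : ℝ) =
          (m - b - t) * ((m - b).choose t : ℝ) := by
        have h := Nat.choose_succ_right_eq (m - b) t
        have h' : (((m - b).choose (t + 1) * (t + 1) : ℕ) : ℝ) =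
            (((m - b).choose t * (m - b - t) : ℕ) : ℝ) := by exact_mod_cast h
        push_cast at h'
        rw [Nat.cast_sub (show t ≤ m - b by omega), Nat.cast_sub (show b ≤ m by omega)] at h'
        push_cast
        linarith
      have hpos : (0 : ℝ) < m - b - t := by linarith
      have hc : (0 : ℝ) < ((m - b).choose t : ℝ) := by
        have := Nat.choose_pos (show t ≤ m - b by omega)
        exact_mod_cast this
      have e3 : ((b + (t + 1) - 1).choose (t + 1 - 1) : ℝ) /
          ((((t + 1 : ℕ) : ℝ)) * ((m - b).choose (t + 1) : ℝ)) =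
          ((b + t - 1).choose (t - 1) : ℝ) / ((t : ℝ) * ((m - b).choose t : ℝ)) *
            ((b + t) / (m - b - t)) := by
        rw [e2, show b + (t + 1) - 1 = b + t from by omega, show t + 1 - 1 = t from by omega]
        have e4 : ((b + t).choose t : ℝ) =
            (b + t) * ((b + t - 1).choose (t - 1) : ℝ) / t := by
          rw [eq_div_iff (by linarith)]
          exact e1
        rw [e4]
        field_simp
      rw [e3, show t + 1 - 1 = (t - 1) + 1 from by omega, pow_succ, ← mul_assoc]
      have e5 : ((b : ℝ) + t) / (m - b - t) ≤ 1 + 8 * r / m := by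
        rw [div_le_iff₀ hpos, add_mul, one_mul, div_mul_eq_mul_div, ← sub_le_iff_le_add',
          le_div_iff₀ hm0]
        nlinarith
      apply mul_le_mul ih' e5 (by positivity) (by positivity)
  refine (key t ht htr).trans ?_
  have h1 : (1 + 8 * (r : ℝ) / m) ^ (t - 1) ≤ 3 := by
    have h2 : 1 + 8 * (r : ℝ) / m ≤ Real.exp (8 * r / m) := by
      have := Real.add_one_le_exp (8 * (r : ℝ) / m)
      linarith
    calc (1 + 8 * (r : ℝ) / m) ^ (t - 1) ≤ (1 + 8 * (r : ℝ) / m) ^ r := by
          apply pow_le_pow_right₀ _ (by omega)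
          have : 0 ≤ 8 * (r : ℝ) / m := by positivity
          linarith
      _ ≤ Real.exp (8 * r / m) ^ r := by
          apply pow_le_pow_left₀ (by positivity) h2
      _ = Real.exp (8 * r * r / m) := by
          rw [← Real.exp_nat_mul]
          congr 1
          ring
      _ ≤ Real.exp 1 := by
          apply Real.exp_le_exp.2
          rw [div_le_one hm0]
          nlinarith
      _ ≤ 3 := Real.exp_one_lt_d9.le.trans (by norm_num)
  calc 2 / (m : ℝ) * (1 + 8 * r / m) ^ (t - 1) ≤ 2 / m * 3 := by gcongr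
    _ = 6 / m := by ring

/-- few members of `U'` below the middle are outside `U` -/
lemma near_card {m r : ℕ} (U U' : Finset (Finset (Fin m))) (hU' : UpSet U') (huniv : univ ∈ U)
    (hr : 1 ≤ r) (hstep : ∀ B ∈ U', ∀ A, B ⊆ A → B.card + r ≤ A.card → A ∈ U)
    (hbig : 100 * r ^ 2 ≤ m) :
    (((U' \ U).filter (fun B => 2 * B.card < m)).card : ℝ) ≤ 6 * r / m * bd U := by
  classical
  set W := (U' \ U).filter (fun B => 2 * B.card < m) with hW
  have hm0 : 0 < m := by nlinarith
  have hWmem : ∀ B ∈ W, B ∈ U' ∧ B ∉ U ∧ 2 * B.card < m := by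
    intro B hB
    rw [hW, mem_filter, mem_sdiff] at hB
    exact ⟨hB.1.1, hB.1.2, hB.2⟩
  -- the weight
  set w : Finset (Fin m) → Finset (Fin m) → ℝ := fun A B =>
    1 / (((A.card - B.card : ℕ) : ℝ) * ((m - B.card).choose (A.card - B.card) : ℝ)) with hw
  have h1 : (W.card : ℝ) ≤ ∑ B ∈ W, ∑ A ∈ U.filter (fun A => B ⊆ A), term U B A := by
    rw [card_eq_sum_ones, Nat.cast_sum, Nat.cast_one]
    refine sum_le_sum fun B hB => ?_
    exact lym_hit U huniv B (hWmem B hB).2.1
  have h2 : ∑ B ∈ W, ∑ A ∈ U.filter (fun A => B ⊆ A), term U B A =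
      ∑ A ∈ U, ∑ x ∈ A.filter (fun x => A.erase x ∉ U),
        ∑ B ∈ W.filter (fun B => B ⊆ A.erase x), w A B := by
    rw [sum_comm' (t' := U) (s' := fun A => W.filter (fun B => B ⊆ A)) (by
      intro B A
      simp only [mem_filter]
      tauto)]
    refine sum_congr rfl fun A _ => ?_
    have h3 : ∀ B ∈ W.filter (fun B => B ⊆ A), term U B A =
        ∑ x ∈ (A \ B).filter (fun x => A.erase x ∉ U), w A B := by
      intro B _
      rw [sum_const, nsmul_eq_mul]
      unfold term
      simp only [hw]
      rw [mul_one_div]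
    rw [sum_congr rfl h3, sum_comm' (t' := A.filter (fun x => A.erase x ∉ U))
      (s' := fun x => W.filter (fun B => B ⊆ A.erase x)) (by
      intro B x
      simp only [mem_filter, mem_sdiff, subset_erase]
      tauto)]
  have h4 : ∀ A ∈ U, ∀ x ∈ A.filter (fun x => A.erase x ∉ U),
      ∑ B ∈ W.filter (fun B => B ⊆ A.erase x), w A B ≤ 6 * r / m := by
    intro A hA x hx
    rw [mem_filter] at hx
    obtain ⟨hxA, hxU⟩ := hx
    have hAe : (A.erase x).card = A.card - 1 := card_erase_of_mem hxA
    have hA1 : 1 ≤ A.card := card_pos.2 ⟨x, hxA⟩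
    have hmaps : ∀ B ∈ W.filter (fun B => B ⊆ A.erase x), A.card - B.card ∈ Icc 1 r := by
      intro B hB
      rw [mem_filter] at hB
      have h5 := card_le_card hB.2
      rw [hAe] at h5
      rw [mem_Icc]
      refine ⟨by omega, ?_⟩
      by_contra h6
      apply hxU
      exact hstep B (hWmem B hB.1).1 _ hB.2 (by omega)
    rw [← sum_fiberwise_of_maps_to hmaps]
    calc _ ≤ ∑ t ∈ Icc 1 r, (6 / m : ℝ) := by
          refine sum_le_sum fun t ht => ?_
          rw [mem_Icc] at ht
          rcases ((W.filter (fun B => B ⊆ A.erase x)).filter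
            (fun B => A.card - B.card = t)).eq_empty_or_nonempty with he | ⟨B₀, hB₀⟩
          · rw [he, sum_empty]
            positivity
          · rw [mem_filter, mem_filter] at hB₀
            obtain ⟨⟨hB₀W, hB₀A⟩, hB₀t⟩ := hB₀
            have h5 := card_le_card hB₀A
            rw [hAe] at h5
            have hb2 := (hWmem B₀ hB₀W).2.2
            set b := B₀.card with hb
            have hab : A.card = b + t := by omega
            have h6 : ∀ B ∈ (W.filter (fun B => B ⊆ A.erase x)).filter
                (fun B => A.card - B.card = t),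
                w A B = 1 / ((t : ℝ) * ((m - b).choose t : ℝ)) := by
              intro B hB
              rw [mem_filter, mem_filter] at hB
              have h7 := card_le_card hB.1.2
              rw [hAe] at h7
              have h8 : B.card = b := by omega
              simp only [hw]
              rw [h8, show A.card - b = t from by omega]
            have h7 : (((W.filter (fun B => B ⊆ A.erase x)).filter
                (fun B => A.card - B.card = t)).card : ℝ) ≤
                ((b + t - 1).choose (t - 1) : ℝ) := by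
              have h8 : (W.filter (fun B => B ⊆ A.erase x)).filter
                  (fun B => A.card - B.card = t) ⊆ powersetCard b (A.erase x) := by
                intro B hB
                rw [mem_filter, mem_filter] at hB
                rw [mem_powersetCard]
                have h9 := card_le_card hB.1.2
                rw [hAe] at h9
                exact ⟨hB.1.2, by omega⟩
              have h9 := card_le_card h8
              have h10 : (A.card - 1).choose b = (b + t - 1).choose (t - 1) := by
                rw [hab, ← Nat.choose_symm (by omega),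
                  show b + t - 1 - b = t - 1 from by omega]
              rw [card_powersetCard, hAe, h10] at h9
              exact_mod_cast h9
            rw [sum_congr rfl h6, sum_const, nsmul_eq_mul]
            calc _ ≤ ((b + t - 1).choose (t - 1) : ℝ) *
                  (1 / ((t : ℝ) * ((m - b).choose t : ℝ))) := by gcongr
              _ = ((b + t - 1).choose (t - 1) : ℝ) / ((t : ℝ) * ((m - b).choose t : ℝ)) := by
                  rw [mul_one_div]
              _ ≤ 6 / m := ratio hr hbig b hb2 t ht.1 ht.2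
      _ = 6 * r / m := by
          rw [sum_const, Nat.card_Icc, nsmul_eq_mul, Nat.add_sub_cancel]
          ring
  rw [h2] at h1
  refine h1.trans ?_
  unfold bd
  rw [mul_sum]
  refine sum_le_sum fun A hA => ?_
  calc _ ≤ ∑ x ∈ A.filter (fun x => A.erase x ∉ U), (6 * r / m : ℝ) :=
        sum_le_sum fun x hx => h4 A hA x hx
    _ = _ := by
        rw [sum_const, nsmul_eq_mul]
        ring

/-- the number of small subsets -/
lemma few_small (m r : ℕ) :
    ((univ : Finset (Finset (Fin m))).filter (fun R => R.card ≤ r)).card ≤ (m + 1) ^ r := by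
  classical
  induction r with
  | zero =>
    have : (univ : Finset (Finset (Fin m))).filter (fun R => R.card ≤ 0) = {∅} := by
      ext R
      simp
    rw [this]
    simp
  | succ r ih =>
    have hsub : (univ : Finset (Finset (Fin m))).filter (fun R => R.card ≤ r + 1) ⊆
        ((univ : Finset (Finset (Fin m))).filter (fun R => R.card ≤ r)) ∪
        ((univ : Finset (Fin m)) ×ˢ
          ((univ : Finset (Finset (Fin m))).filter (fun R => R.card ≤ r))).image
            (fun p => insert p.1 p.2) := by
      intro R hR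
      rw [mem_filter] at hR
      rw [mem_union]
      by_cases h : R.card ≤ r
      · left
        exact mem_filter.2 ⟨mem_univ _, h⟩
      · right
        obtain ⟨x, hx⟩ : R.Nonempty := card_pos.1 (by omega)
        rw [mem_image]
        refine ⟨(x, R.erase x), ?_, insert_erase hx⟩
        simp only [mem_product, mem_univ, mem_filter, true_and]
        rw [card_erase_of_mem hx]
        omega
    refine (card_le_card hsub).trans ((card_union_le _ _).trans ?_)
    have h1 := (card_image_le (s := (univ : Finset (Fin m)) ×ˢ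
          ((univ : Finset (Finset (Fin m))).filter (fun R => R.card ≤ r)))
            (f := fun p => insert p.1 p.2))
    rw [card_product, card_univ, Fintype.card_fin] at h1
    calc _ ≤ (m + 1) ^ r + m * (m + 1) ^ r :=
          add_le_add ih (h1.trans (Nat.mul_le_mul_left _ ih))
      _ = (m + 1) ^ (r + 1) := by ring

lemma card_le_up {m r : ℕ} (U U' : Finset (Finset (Fin m))) (huniv : univ ∈ U)
    (hstep : ∀ B ∈ U', ∀ A, B ⊆ A → B.card + r ≤ A.card → A ∈ U) :
    (U'.card : ℝ) ≤ ((m : ℝ) + 1) ^ r * U.card := by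
  classical
  have h1 : ∀ B : Finset (Fin m), ∃ A, B ∈ U' → A ∈ U ∧ B ⊆ A ∧ (A \ B).card ≤ r := by
    intro B
    by_cases hB : B ∈ U'
    · by_cases h2 : B.card + r ≤ m
      · obtain ⟨A, hBA, hA⟩ := exists_superset_card_eq (s := B) (n := B.card + r) (by omega)
          (by simpa using h2)
        refine ⟨A, fun _ => ⟨hstep B hB A hBA hA.ge, hBA, ?_⟩⟩
        rw [card_sdiff_of_subset hBA]
        omega
      · refine ⟨univ, fun _ => ⟨huniv, subset_univ _, ?_⟩⟩
        rw [card_sdiff_of_subset (subset_univ _), card_univ, Fintype.card_fin]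
        omega
    · exact ⟨∅, fun h => absurd h hB⟩
  choose g hg using h1
  have h2 : U'.card ≤ (U ×ˢ ((univ : Finset (Finset (Fin m))).filter
      (fun R => R.card ≤ r))).card := by
    apply card_le_card_of_injOn (fun B => (g B, g B \ B))
    · intro B hB
      have h3 := hg B hB
      simp only [coe_product, Set.mem_prod, mem_coe, mem_filter, mem_univ, true_and]
      exact ⟨h3.1, h3.2.2⟩
    · intro B hB B' hB' h
      simp only [Prod.mk.injEq] at h
      have h3 := hg B hB
      have h4 := hg B' hB'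
      rw [← Finset.sdiff_sdiff_eq_self h3.2.1, ← Finset.sdiff_sdiff_eq_self h4.2.1, h.2, h.1]
  rw [card_product] at h2
  have h3 := few_small m r
  have h4 : U'.card ≤ U.card * (m + 1) ^ r := h2.trans (Nat.mul_le_mul_left _ h3)
  have h5 : (U'.card : ℝ) ≤ ((U.card * (m + 1) ^ r : ℕ) : ℝ) := by exact_mod_cast h4
  push_cast at h5
  linarith

end StarAux

open StarAux in
theorem star {m r : ℕ} (U U' : Finset (Finset (Fin m))) (hU : UpSet U) (hU' : UpSet U')
    (hsub : U ⊆ U') (huniv : univ ∈ U) (hr : 1 ≤ r)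
    (hstep : ∀ B ∈ U', ∀ A, B ⊆ A → B.card + r ≤ A.card → A ∈ U)
    (hbig : 100 * r ^ 2 ≤ m)
    (hexp : ((m : ℝ) + 1) ^ (r + 4) * Real.exp (-(m : ℝ) / (1152 * r ^ 2)) ≤ 1 / 20)
    (hhalf : 5 * U.card ≤ 3 * 2 ^ m) :
    (1 / 4 : ℝ) * U.card ≤ ∑ B ∈ U.filter (fun B => m < 2 * B.card), (2 * (B.card : ℝ) - m)
      - ∑ B ∈ U'.filter (fun B => 2 * B.card < m), ((m : ℝ) - 2 * B.card) := by
  classical
  have hm0 : 0 < m := by nlinarith
  have hm0' : (0 : ℝ) < m := by exact_mod_cast hm0
  have hr0 : (0 : ℝ) < r := by exact_mod_cast hr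
  set W := (U' \ U).filter (fun B => 2 * B.card < m) with hW
  -- the boundary is large
  have hbd : (4 / 5 : ℝ) * U.card ≤ bd U := by
    have h1 := bd_ge U hU
    have h2 : (5 : ℝ) * U.card ≤ 3 * 2 ^ m := by exact_mod_cast hhalf
    have h3 : (0 : ℝ) < 2 ^ m := by positivity
    have h4 : (0 : ℝ) ≤ U.card := Nat.cast_nonneg _
    have h5 : (2 : ℝ) ^ m * (4 / 5 * U.card) ≤ 2 ^ m * bd U := by
      refine le_trans ?_ h1
      nlinarith
    exact le_of_mul_le_mul_left h5 h3
  -- decomposition
  have hdec1 : ∑ B ∈ U.filter (fun B => m < 2 * B.card), (2 * (B.card : ℝ) - m) =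
      bd U + ∑ B ∈ U.filter (fun B => 2 * B.card < m), ((m : ℝ) - 2 * B.card) := by
    rw [bd_eq U hU, sum_filter, sum_filter, ← sum_add_distrib]
    refine sum_congr rfl fun B _ => ?_
    rcases lt_trichotomy (2 * B.card) m with h | h | h
    · rw [if_neg (by omega), if_pos h]
      ring
    · rw [if_neg (by omega), if_neg (by omega)]
      have : 2 * (B.card : ℝ) = m := by exact_mod_cast h
      linarith
    · rw [if_pos h, if_neg (by omega)]
      ring
  have hdec2 : ∑ B ∈ U'.filter (fun B => 2 * B.card < m), ((m : ℝ) - 2 * B.card) =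
      ∑ B ∈ U.filter (fun B => 2 * B.card < m), ((m : ℝ) - 2 * B.card) +
      ∑ B ∈ W, ((m : ℝ) - 2 * B.card) := by
    rw [← sum_union]
    · congr 1
      ext B
      simp only [hW, mem_filter, mem_union, mem_sdiff]
      constructor
      · rintro ⟨h1, h2⟩
        by_cases h3 : B ∈ U
        · exact Or.inl ⟨h3, h2⟩
        · exact Or.inr ⟨⟨h1, h3⟩, h2⟩
      · rintro (⟨h1, h2⟩ | ⟨⟨h1, -⟩, h2⟩)
        · exact ⟨hsub h1, h2⟩
        · exact ⟨h1, h2⟩
    · rw [disjoint_left]
      intro B h1 h2
      rw [mem_filter] at h1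
      rw [hW, mem_filter, mem_sdiff] at h2
      exact h2.1.2 h1.1
  -- the sum over `W`
  set g : ℝ := m / (48 * r) with hg
  have hg0 : 0 ≤ g := by positivity
  set W' := U'.filter (fun A => (A.card : ℝ) ≤ m / 2 - g) with hW'
  have hWsum : ∑ B ∈ W, ((m : ℝ) - 2 * B.card) ≤ W.card * (m / (24 * r)) + m * W'.card := by
    have h1 : ∀ B ∈ W, ((m : ℝ) - 2 * B.card) ≤
        m / (24 * r) + if (B.card : ℝ) ≤ m / 2 - g then (m : ℝ) else 0 := by
      intro B _
      have h2 : (0 : ℝ) ≤ B.card := Nat.cast_nonneg _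
      have h3 : (0 : ℝ) ≤ m / (24 * r) := by positivity
      split_ifs with h
      · linarith
      · push Not at h
        have h4 : 2 * g = m / (24 * r) := by
          rw [hg]
          field_simp
          norm_num
        linarith
    refine (sum_le_sum h1).trans ?_
    rw [sum_add_distrib, sum_const, nsmul_eq_mul, ← sum_filter, sum_const, nsmul_eq_mul,
      mul_comm (_ : ℝ) (m : ℝ)]
    have h2 : (((W.filter (fun B => (B.card : ℝ) ≤ m / 2 - g)).card : ℕ) : ℝ) ≤ W'.card := by
      have : W.filter (fun B => (B.card : ℝ) ≤ m / 2 - g) ⊆ W' := by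
        intro B hB
        rw [mem_filter, hW, mem_filter, mem_sdiff] at hB
        exact mem_filter.2 ⟨hB.1.1.1, hB.2⟩
      exact_mod_cast card_le_card this
    gcongr
  have hWc := near_card U U' hU' huniv hr hstep hbig
  rw [← hW] at hWc
  have h1 : (W.card : ℝ) * (m / (24 * r)) ≤ bd U / 4 := by
    calc (W.card : ℝ) * (m / (24 * r)) ≤ (6 * r / m * bd U) * (m / (24 * r)) := by gcongr
      _ = bd U / 4 := by
        field_simp
        ring
  have h2 : (m : ℝ) * W'.card ≤ U.card / 20 := by
    have h3 := small_upset hm0 U' hU' g hg0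
    rw [← hW'] at h3
    have h4 := card_le_up U U' huniv hstep
    have h5 : Real.exp (-2 * g ^ 2 / m) = Real.exp (-(m : ℝ) / (1152 * r ^ 2)) := by
      congr 1
      rw [hg]
      field_simp
      norm_num
    rw [h5] at h3
    set e := Real.exp (-(m : ℝ) / (1152 * r ^ 2)) with he
    have he0 : 0 < e := Real.exp_pos _
    have hU0 : (0 : ℝ) ≤ U.card := Nat.cast_nonneg _
    calc (m : ℝ) * W'.card ≤ (m + 1) * (((m : ℝ) + 1) ^ 2 * e * (((m : ℝ) + 1) ^ r * U.card)) := by
          have h6 : (W'.card : ℝ) ≤ ((m : ℝ) + 1) ^ 2 * e * (((m : ℝ) + 1) ^ r * U.card) :=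
            h3.trans (by gcongr)
          have h7 : (0 : ℝ) ≤ W'.card := Nat.cast_nonneg _
          have h8 : (m : ℝ) ≤ m + 1 := by linarith
          gcongr
      _ = (((m : ℝ) + 1) ^ (r + 3) * e) * U.card := by ring
      _ ≤ (((m : ℝ) + 1) ^ (r + 4) * e) * U.card := by
          have h6 : ((m : ℝ) + 1) ^ (r + 3) ≤ ((m : ℝ) + 1) ^ (r + 4) :=
            pow_le_pow_right₀ (by linarith) (by omega)
          gcongr
      _ ≤ (1 / 20) * U.card := by gcongr
      _ = U.card / 20 := by ring
  rw [hdec1, hdec2]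
  linarith

end SmoothUC
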