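import Pool.Agent.SmoothUC.Mu
import Pool.Agent.SmoothUC.Star

/-!
# Rare members
-/

namespace SmoothUC

open Finset

variable {n m : ℕ}

/-- the boundary of `U` -/
def bd (U : Finset (Finset (Fin m))) : Finset (Finset (Fin m)) :=
  U.filter (fun A => ∃ x ∈ A, A.erase x ∉ U)

/-- vertex form of `lym_hit` -/
theorem lym_vertex (U : Finset (Finset (Fin m))) (h1 : univ ∈ U) (B : Finset (Fin m))
    (hB : B ∉ U) :
    (1 : ℝ) ≤ ∑ A ∈ (bd U).filter (fun A => B ⊆ A),
      1 / ((m - B.card).choose (A.card - B.card) : ℝ) := by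
  classical
  refine (lym_hit U h1 B hB).trans ?_
  have hsub : (bd U).filter (fun A => B ⊆ A) ⊆ U.filter (fun A => B ⊆ A) := by
    intro A hA
    rw [Finset.mem_filter] at hA ⊢
    exact ⟨(Finset.mem_filter.mp hA.1).1, hA.2⟩
  rw [← Finset.sum_subset hsub]
  · refine Finset.sum_le_sum fun A hA => ?_
    have hBA : B ⊆ A := (Finset.mem_filter.mp hA).2
    have hcard : (((A \ B).filter (fun x => A.erase x ∉ U)).card : ℝ) ≤
        ((A.card - B.card : ℕ) : ℝ) := by
      rw [← Finset.card_sdiff_of_subset hBA]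
      exact_mod_cast Finset.card_filter_le _ _
    by_cases h0 : A.card - B.card = 0
    · rw [h0]
      simp
    · have hpos : (0 : ℝ) < ((A.card - B.card : ℕ) : ℝ) := by
        exact_mod_cast Nat.pos_of_ne_zero h0
      rw [div_mul_eq_div_div]
      refine div_le_div_of_nonneg_right ?_ (Nat.cast_nonneg _)
      rw [div_le_one hpos]
      exact hcard
  · intro A hA hA2
    rw [Finset.mem_filter] at hA
    have hnot : ¬ ∃ x ∈ A, A.erase x ∉ U := by
      intro h
      exact hA2 (Finset.mem_filter.mpr ⟨Finset.mem_filter.mpr ⟨hA.1, h⟩, hA.2⟩)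
    have : (A \ B).filter (fun x => A.erase x ∉ U) = ∅ := by
      rw [Finset.filter_eq_empty_iff]
      intro x hx hx2
      exact hnot ⟨x, (Finset.mem_sdiff.mp hx).1, hx2⟩
    rw [this]
    simp

/-- summation over sets outside `U` -/
theorem sum_not_mem_le (U : Finset (Finset (Fin m))) (h1 : univ ∈ U)
    (φ : Finset (Fin m) → ℝ) (hφ : ∀ B, 0 ≤ φ B) :
    ∑ B ∈ univ.filter (fun B => B ∉ U), φ B ≤
      ∑ A ∈ bd U, ∑ B ∈ A.powerset, φ B / ((m - B.card).choose (A.card - B.card) : ℝ) := by
  classical
  calc ∑ B ∈ univ.filter (fun B => B ∉ U), φ B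
      ≤ ∑ B ∈ univ.filter (fun B => B ∉ U), ∑ A ∈ (bd U).filter (fun A => B ⊆ A),
          φ B / ((m - B.card).choose (A.card - B.card) : ℝ) := by
        refine Finset.sum_le_sum fun B hB => ?_
        have h2 := lym_vertex U h1 B (Finset.mem_filter.mp hB).2
        calc φ B = φ B * 1 := (mul_one _).symm
          _ ≤ φ B * ∑ A ∈ (bd U).filter (fun A => B ⊆ A),
            1 / ((m - B.card).choose (A.card - B.card) : ℝ) :=
              mul_le_mul_of_nonneg_left h2 (hφ B)
          _ = _ := by
              rw [Finset.mul_sum]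
              refine Finset.sum_congr rfl fun A _ => ?_
              ring
    _ ≤ ∑ B : Finset (Fin m), ∑ A ∈ (bd U).filter (fun A => B ⊆ A),
          φ B / ((m - B.card).choose (A.card - B.card) : ℝ) := by
        refine Finset.sum_le_sum_of_subset_of_nonneg (Finset.filter_subset _ _) ?_
        intro B _ _
        exact Finset.sum_nonneg fun A _ => div_nonneg (hφ B) (Nat.cast_nonneg _)
    _ = ∑ A ∈ bd U, ∑ B ∈ A.powerset, φ B / ((m - B.card).choose (A.card - B.card) : ℝ) := by
        simp_rw [Finset.sum_filter]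
        rw [Finset.sum_comm]
        refine Finset.sum_congr rfl fun A _ => ?_
        rw [← Finset.sum_filter]
        refine Finset.sum_congr ?_ fun _ _ => rfl
        ext B
        simp

/-- `(m+w)^t ≤ m^t C(w+t,t)` for `t ≤ m`, `w ≤ m` -/
theorem choose_lower (m w : ℕ) (hw : w ≤ m) (t : ℕ) (ht : t ≤ m) :
    (m + w) ^ t ≤ m ^ t * (w + t).choose t := by
  induction t with
  | zero => simp
  | succ t ih =>
    have ih' := ih (by omega)
    have h1 : (w + (t + 1)).choose (t + 1) * (t + 1) = (w + t).choose t * (w + t + 1) := by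
      have := Nat.add_one_mul_choose_eq (w + t) t
      rw [show w + (t + 1) = w + t + 1 from rfl, ← this]
      ring
    have h2 : (m + w) * (t + 1) ≤ m * (w + t + 1) := by nlinarith
    have h3 : (m + w) ^ (t + 1) * (t + 1) ≤ m ^ (t + 1) * (w + (t + 1)).choose (t + 1) * (t + 1) := by
      calc (m + w) ^ (t + 1) * (t + 1) = (m + w) ^ t * ((m + w) * (t + 1)) := by ring
        _ ≤ (m ^ t * (w + t).choose t) * (m * (w + t + 1)) := Nat.mul_le_mul ih' h2
        _ = m ^ (t + 1) * ((w + t).choose t * (w + t + 1)) := by ring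
        _ = m ^ (t + 1) * (w + (t + 1)).choose (t + 1) * (t + 1) := by rw [← h1]; ring
    exact Nat.le_of_mul_le_mul_right h3 (Nat.succ_pos t)

/-- `C(a,t) w^t ≤ m^t C(w+t,t)` for `a ≤ m`, `w ≤ m` -/
theorem choose_ratio (m w a : ℕ) (ha : a + w = m) (t : ℕ) :
    a.choose t * w ^ t ≤ m ^ t * (w + t).choose t := by
  induction t with
  | zero => simp
  | succ t ih =>
    have h1 : (w + (t + 1)).choose (t + 1) * (t + 1) = (w + t).choose t * (w + t + 1) := by
      have := Nat.add_one_mul_choose_eq (w + t) t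
      rw [show w + (t + 1) = w + t + 1 from rfl, ← this]
      ring
    have h2 : a.choose (t + 1) * (t + 1) = a.choose t * (a - t) := Nat.choose_succ_right_eq a t
    have h3 : (a - t) * w ≤ m * (w + t + 1) := by
      have : a - t ≤ m := by omega
      exact Nat.mul_le_mul this (by omega)
    have h4 : a.choose (t + 1) * w ^ (t + 1) * (t + 1) ≤
        m ^ (t + 1) * (w + (t + 1)).choose (t + 1) * (t + 1) := by
      calc a.choose (t + 1) * w ^ (t + 1) * (t + 1) =
            (a.choose (t + 1) * (t + 1)) * w ^ (t + 1) := by ring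
        _ = (a.choose t * w ^ t) * ((a - t) * w) := by rw [h2]; ring
        _ ≤ (m ^ t * (w + t).choose t) * (m * (w + t + 1)) := Nat.mul_le_mul ih h3
        _ = m ^ (t + 1) * ((w + t).choose t * (w + t + 1)) := by ring
        _ = m ^ (t + 1) * (w + (t + 1)).choose (t + 1) * (t + 1) := by rw [← h1]; ring
    exact Nat.le_of_mul_le_mul_right h4 (Nat.succ_pos t)

/-- the sum over subsets by cardinality of the complement in `A` -/
theorem sum_powerset_sdiff (A : Finset (Fin m)) (f : ℕ → ℝ) :
    ∑ B ∈ A.powerset, f (A.card - B.card) = ∑ t ∈ Finset.range (A.card + 1), (A.card.choose t : ℝ) * f t := by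
  classical
  have h1 := Finset.sum_powerset_apply_card (fun j => f (A.card - j)) (x := A)
  rw [h1]
  rw [← Finset.sum_range_reflect]
  refine Finset.sum_congr rfl fun t ht => ?_
  have ht' : t ≤ A.card := by
    have := Finset.mem_range.mp ht
    omega
  have h2 : A.card + 1 - 1 - t = A.card - t := by omega
  rw [h2, Nat.choose_symm ht', nsmul_eq_mul]
  congr 2
  omega

variable {p : Fin n → Fin m → ℝ} {ε : ℝ}

/-- the level set `{μ ≥ c}` -/
noncomputable def lev (p : Fin n → Fin m → ℝ) (c : ℝ) : Finset (Finset (Fin m)) :=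
  by classical exact univ.filter (fun B => c ≤ mu p B)

theorem mem_lev {c : ℝ} {B : Finset (Fin m)} : B ∈ lev p c ↔ c ≤ mu p B := by
  classical
  simp [lev]

theorem lev_upSet (hε : 0 < ε) (hp : Fair ε p) (c : ℝ) : UpSet (lev p c) := by
  intro A hA B hAB
  rw [mem_lev] at hA ⊢
  exact hA.trans (mu_mono hε hp hAB)

theorem mu_bd_le (hε : 0 < ε) (hp : Fair ε p) {c : ℝ} {A : Finset (Fin m)}
    (hA : A ∈ bd (lev p c)) : mu p A ≤ c / ε := by
  unfold bd at hA
  rw [Finset.mem_filter] at hA
  obtain ⟨_, x, hx, hx2⟩ := hA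
  rw [mem_lev, not_le] at hx2
  have h1 := pow_le_mu hε hp (Finset.erase_subset x A)
  have h2 : (A \ A.erase x).card = 1 := by
    rw [Finset.card_sdiff_of_subset (Finset.erase_subset x A), Finset.card_erase_of_mem hx]
    have := Finset.card_pos.mpr ⟨x, hx⟩
    omega
  rw [h2, pow_one] at h1
  rw [le_div_iff₀ hε, mul_comm]
  linarith

/-- sum of `μ^κ` over the sets outside `U` -/
theorem sum_mu_pow_le (hε : 0 < ε) (hε1 : ε ≤ 1) (hp : Fair ε p) {c c2 : ℝ} (hc : 0 < c) (hc2 : 0 < c2)
    (hm : 0 < m) (h1 : univ ∈ lev p c) (κ : ℕ) (hκ : (1 - ε) ^ κ ≤ c2 / 2)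
    (hw : ∀ A ∈ bd (lev p c), c2 * m ≤ ((m - A.card : ℕ) : ℝ)) :
    ∑ B ∈ univ.filter (fun B => B ∉ lev p c), mu p B ^ κ ≤
      2 * (c / ε) ^ κ * (lev p c).card := by
  classical
  refine (sum_not_mem_le _ h1 (fun B => mu p B ^ κ)
    (fun B => pow_nonneg (mu_nonneg hε hp B) κ)).trans ?_
  have hq0 : 0 ≤ 1 - ε := by linarith
  have key : ∀ A ∈ bd (lev p c), ∑ B ∈ A.powerset,
      mu p B ^ κ / ((m - B.card).choose (A.card - B.card) : ℝ) ≤ 2 * (c / ε) ^ κ := by
    intro A hA
    have hAm : A.card ≤ m := by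
      have := Finset.card_le_univ A
      rwa [Fintype.card_fin] at this
    have hwA := hw A hA
    set w : ℕ := m - A.card with hwdef
    have hwpos : (0 : ℝ) < w := by
      have : (0 : ℝ) < m := by exact_mod_cast hm
      have : 0 < c2 * m := by positivity
      linarith
    have hmu := mu_bd_le hε hp hA
    have hmu0 := mu_nonneg hε hp A
    have hce : 0 ≤ c / ε := by positivity
    have step1 : ∀ B ∈ A.powerset, mu p B ^ κ / ((m - B.card).choose (A.card - B.card) : ℝ) ≤
        (c / ε) ^ κ * (((1 - ε) ^ κ) ^ (A.card - B.card) /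
          ((w + (A.card - B.card)).choose (A.card - B.card) : ℝ)) := by
      intro B hB
      have hBA := Finset.mem_powerset.mp hB
      have hBc := Finset.card_le_card hBA
      have e1 : m - B.card = w + (A.card - B.card) := by omega
      rw [e1, ← mul_div_assoc]
      refine div_le_div_of_nonneg_right ?_ (Nat.cast_nonneg _)
      have h2 := mu_le_pow hε hp hBA
      rw [Finset.card_sdiff_of_subset hBA] at h2
      calc mu p B ^ κ ≤ ((1 - ε) ^ (A.card - B.card) * mu p A) ^ κ :=
            pow_le_pow_left₀ (mu_nonneg hε hp B) h2 κ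
        _ ≤ ((1 - ε) ^ (A.card - B.card) * (c / ε)) ^ κ := by
            refine pow_le_pow_left₀ (by positivity) ?_ κ
            exact mul_le_mul_of_nonneg_left hmu (by positivity)
        _ = _ := by rw [mul_pow, ← pow_mul, ← pow_mul, mul_comm κ]; ring
    refine (Finset.sum_le_sum step1).trans ?_
    rw [← Finset.mul_sum, mul_comm 2]
    refine mul_le_mul_of_nonneg_left ?_ (by positivity)
    rw [sum_powerset_sdiff A (fun t => ((1 - ε) ^ κ) ^ t / ((w + t).choose t : ℝ))]
    have step2 : ∀ t ∈ Finset.range (A.card + 1), (A.card.choose t : ℝ) *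
        (((1 - ε) ^ κ) ^ t / ((w + t).choose t : ℝ)) ≤ (1 / 2) ^ t := by
      intro t _
      have h3 := choose_ratio m w A.card (by omega) t
      have h3' : (A.card.choose t : ℝ) * (w : ℝ) ^ t ≤ (m : ℝ) ^ t * ((w + t).choose t : ℝ) := by
        exact_mod_cast h3
      have hch : (0 : ℝ) < ((w + t).choose t : ℝ) := by
        exact_mod_cast Nat.choose_pos (by omega)
      have hwt : (0 : ℝ) < (w : ℝ) ^ t := by positivity
      have h4 : (A.card.choose t : ℝ) / ((w + t).choose t : ℝ) ≤ ((m : ℝ) / w) ^ t := by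
        rw [div_pow, div_le_div_iff₀ hch hwt]
        exact h3'
      have h5 : (m : ℝ) / w ≤ 1 / c2 := by
        rw [div_le_div_iff₀ hwpos hc2]
        linarith
      have h6 : (1 - ε) ^ κ * ((m : ℝ) / w) ≤ 1 / 2 := by
        calc (1 - ε) ^ κ * ((m : ℝ) / w) ≤ (c2 / 2) * (1 / c2) := by
              refine mul_le_mul hκ h5 (by positivity) (by positivity)
          _ = 1 / 2 := by field_simp
      calc (A.card.choose t : ℝ) * (((1 - ε) ^ κ) ^ t / ((w + t).choose t : ℝ))
          = ((1 - ε) ^ κ) ^ t * ((A.card.choose t : ℝ) / ((w + t).choose t : ℝ)) := by ring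
        _ ≤ ((1 - ε) ^ κ) ^ t * ((m : ℝ) / w) ^ t :=
            mul_le_mul_of_nonneg_left h4 (by positivity)
        _ = ((1 - ε) ^ κ * ((m : ℝ) / w)) ^ t := by rw [mul_pow]
        _ ≤ (1 / 2) ^ t := pow_le_pow_left₀ (by positivity) h6 t
    refine (Finset.sum_le_sum step2).trans ?_
    have h6 := geom_sum_eq (x := (1 / 2 : ℝ)) (by norm_num) (A.card + 1)
    rw [h6]
    have h7 : (0 : ℝ) < (1 / 2) ^ (A.card + 1) := by positivity
    rw [div_le_iff_of_neg (by norm_num)]
    linarith
  calc _ ≤ ∑ _A ∈ bd (lev p c), 2 * (c / ε) ^ κ := Finset.sum_le_sum key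
    _ = (bd (lev p c)).card * (2 * (c / ε) ^ κ) := by rw [Finset.sum_const, nsmul_eq_mul]
    _ ≤ (lev p c).card * (2 * (c / ε) ^ κ) := by
        refine mul_le_mul_of_nonneg_right ?_ (by positivity)
        exact_mod_cast Finset.card_le_card (Finset.filter_subset _ _)
    _ = _ := by ring

/-- fixed `k`: the expected number of `k`-unions outside `U` -/
theorem sum_k_unions (hε : 0 < ε) (hε1 : ε ≤ 1) (hp : Fair ε p) {c c2 : ℝ} (hc : 0 < c) (hc2 : 0 < c2)
    (hm : 0 < m) (h1 : univ ∈ lev p c) (k : ℕ)
    (hw : ∀ A ∈ bd (lev p c), c2 * m ≤ ((m - A.card : ℕ) : ℝ)) :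
    ∑ B ∈ univ.filter (fun B => B ∉ lev p c), ∑ T ∈ (univ : Finset (Fin n)).powersetCard k,
      Pr p (fun ω => T.biUnion (row ω) = B) ≤
      (c / ε) ^ k * ((lev p c).card * Real.exp (-(ε ^ k * (c2 / 2) * (m / 4))) +
        ((lev p c).filter (fun A => (A.card : ℝ) ≤ m / 2 - m / 4)).card) := by
  classical
  refine (sum_not_mem_le _ h1 (fun B => ∑ T ∈ (univ : Finset (Fin n)).powersetCard k,
      Pr p (fun ω => T.biUnion (row ω) = B))
    (fun B => Finset.sum_nonneg fun T _ => Pr_nonneg hε.le hp _)).trans ?_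
  have hm' : (0 : ℝ) < m := by exact_mod_cast hm
  have key : ∀ A ∈ bd (lev p c), ∑ B ∈ A.powerset,
      (∑ T ∈ (univ : Finset (Fin n)).powersetCard k, Pr p (fun ω => T.biUnion (row ω) = B)) /
        ((m - B.card).choose (A.card - B.card) : ℝ) ≤
      (c / ε) ^ k * Real.exp (-(ε ^ k * (c2 / 2) * A.card)) := by
    intro A hA
    have hAm : A.card ≤ m := by
      have := Finset.card_le_univ A
      rwa [Fintype.card_fin] at this
    have hwA := hw A hA
    set w : ℕ := m - A.card with hwdef
    have hwpos : (0 : ℝ) < w := by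
      have : 0 < c2 * m := by positivity
      linarith
    have hwm : (w : ℝ) ≤ m := by
      exact_mod_cast Nat.sub_le _ _
    have hmu := mu_bd_le hε hp hA
    have hmu0 := mu_nonneg hε hp A
    set θ : ℝ := (m : ℝ) / (m + w) with hθ
    have hθ0 : 0 < θ := by positivity
    have hθ1 : c2 / 2 ≤ 1 - θ := by
      rw [hθ]
      have : 1 - (m : ℝ) / (m + w) = w / (m + w) := by
        field_simp
        ring
      rw [this, le_div_iff₀ (by positivity)]
      nlinarith
    have hT : ∀ T ∈ (univ : Finset (Fin n)).powersetCard k,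
        ∑ B ∈ A.powerset, Pr p (fun ω => T.biUnion (row ω) = B) /
          ((m - B.card).choose (A.card - B.card) : ℝ) ≤
        (∏ i ∈ T, av p i A) * Real.exp (-(ε ^ k * (c2 / 2) * A.card)) := by
      intro T hT
      have hTk : T.card = k := (Finset.mem_powersetCard.mp hT).2
      have step1 : ∀ B ∈ A.powerset, Pr p (fun ω => T.biUnion (row ω) = B) /
          ((m - B.card).choose (A.card - B.card) : ℝ) ≤
          (∏ i ∈ T, av p i A) * ((∏ x ∈ B, (1 - rho p T x)) * ∏ x ∈ A \ B, (rho p T x * θ)) := by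
        intro B hB
        have hBA := Finset.mem_powerset.mp hB
        have hBc := Finset.card_le_card hBA
        have e1 : m - B.card = w + (A.card - B.card) := by omega
        rw [e1]
        have h2 : (1 : ℝ) / ((w + (A.card - B.card)).choose (A.card - B.card) : ℝ) ≤
            θ ^ (A.card - B.card) := by
          have h3 := choose_lower m w (Nat.sub_le _ _) (A.card - B.card) (by omega)
          have h3' : ((m : ℝ) + w) ^ (A.card - B.card) ≤ (m : ℝ) ^ (A.card - B.card) *
            ((w + (A.card - B.card)).choose (A.card - B.card) : ℝ) := by exact_mod_cast h3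
          have hch : (0 : ℝ) < ((w + (A.card - B.card)).choose (A.card - B.card) : ℝ) := by
            exact_mod_cast Nat.choose_pos (by omega)
          rw [hθ, div_pow, div_le_div_iff₀ hch (by positivity), one_mul]
          exact h3'
        rw [Pr_biUnion, ← prod_rho]
        have h4 : ∏ y ∈ Bᶜ, rho p T y = (∏ y ∈ Aᶜ, rho p T y) * ∏ y ∈ A \ B, rho p T y := by
          rw [← Finset.prod_union]
          · congr 1
            ext y
            simp only [Finset.mem_compl, Finset.mem_union, Finset.mem_sdiff]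
            constructor
            · intro hy
              by_cases hA : y ∈ A
              · exact Or.inr ⟨hA, hy⟩
              · exact Or.inl hA
            · rintro (hy | hy)
              · exact fun hB => hy (hBA hB)
              · exact hy.2
          · rw [Finset.disjoint_left]
            intro y hy hy2
            exact (Finset.mem_compl.mp hy) (Finset.mem_sdiff.mp hy2).1
        rw [h4, Finset.prod_mul_distrib, Finset.prod_const, Finset.card_sdiff_of_subset hBA]
        have h5 : 0 ≤ (∏ y ∈ Aᶜ, rho p T y) * (∏ y ∈ A \ B, rho p T y) *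
            ∏ x ∈ B, (1 - rho p T x) := by
          refine mul_nonneg (mul_nonneg ?_ ?_) ?_
          · exact Finset.prod_nonneg fun y _ => rho_nonneg hε hp T y
          · exact Finset.prod_nonneg fun y _ => rho_nonneg hε hp T y
          · exact Finset.prod_nonneg fun y _ => by have := rho_le_one hε hp T y; linarith
        calc (∏ y ∈ Aᶜ, rho p T y) * (∏ y ∈ A \ B, rho p T y) * (∏ x ∈ B, (1 - rho p T x)) /
              ((w + (A.card - B.card)).choose (A.card - B.card) : ℝ)
            = (∏ y ∈ Aᶜ, rho p T y) * (∏ y ∈ A \ B, rho p T y) * (∏ x ∈ B, (1 - rho p T x)) *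
              (1 / ((w + (A.card - B.card)).choose (A.card - B.card) : ℝ)) := by ring
          _ ≤ (∏ y ∈ Aᶜ, rho p T y) * (∏ y ∈ A \ B, rho p T y) * (∏ x ∈ B, (1 - rho p T x)) *
              θ ^ (A.card - B.card) := mul_le_mul_of_nonneg_left h2 h5
          _ = _ := by ring
      refine (Finset.sum_le_sum step1).trans ?_
      rw [← Finset.mul_sum]
      refine mul_le_mul_of_nonneg_left ?_ (Finset.prod_nonneg fun i _ => av_nonneg hε hp i A)
      rw [← Finset.prod_add]
      have h6 : ∀ x ∈ A, (1 - rho p T x) + rho p T x * θ ≤ Real.exp (-(ε ^ k * (c2 / 2))) := by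
        intro x _
        have h7 := pow_le_rho hε hp T x
        rw [hTk] at h7
        have h8 := Real.add_one_le_exp (-(ε ^ k * (c2 / 2)))
        have h9 : ε ^ k * (c2 / 2) ≤ rho p T x * (1 - θ) :=
          mul_le_mul h7 hθ1 (by positivity) (rho_nonneg hε hp T x)
        linarith
      calc ∏ x ∈ A, ((1 - rho p T x) + rho p T x * θ) ≤
            ∏ _x ∈ A, Real.exp (-(ε ^ k * (c2 / 2))) := by
              refine Finset.prod_le_prod (fun x _ => ?_) h6
              have := rho_le_one hε hp T x
              have := rho_nonneg hε hp T x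
              have : 0 ≤ rho p T x * θ := by positivity
              linarith
        _ = Real.exp (-(ε ^ k * (c2 / 2) * A.card)) := by
              rw [Finset.prod_const, ← Real.exp_nat_mul]
              congr 1
              ring
    calc ∑ B ∈ A.powerset,
          (∑ T ∈ (univ : Finset (Fin n)).powersetCard k, Pr p (fun ω => T.biUnion (row ω) = B)) /
            ((m - B.card).choose (A.card - B.card) : ℝ)
        = ∑ T ∈ (univ : Finset (Fin n)).powersetCard k, ∑ B ∈ A.powerset,
          Pr p (fun ω => T.biUnion (row ω) = B) /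
            ((m - B.card).choose (A.card - B.card) : ℝ) := by
          rw [Finset.sum_comm]
          refine Finset.sum_congr rfl fun B _ => ?_
          rw [Finset.sum_div]
      _ ≤ ∑ T ∈ (univ : Finset (Fin n)).powersetCard k,
          (∏ i ∈ T, av p i A) * Real.exp (-(ε ^ k * (c2 / 2) * A.card)) :=
          Finset.sum_le_sum hT
      _ = (∑ T ∈ (univ : Finset (Fin n)).powersetCard k, ∏ i ∈ T, av p i A) *
          Real.exp (-(ε ^ k * (c2 / 2) * A.card)) := by rw [Finset.sum_mul]
      _ ≤ (mu p A) ^ k * Real.exp (-(ε ^ k * (c2 / 2) * A.card)) :=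
          mul_le_mul_of_nonneg_right (esymm_mu_le hε hp A k) (Real.exp_pos _).le
      _ ≤ _ := mul_le_mul_of_nonneg_right (pow_le_pow_left₀ hmu0 hmu k) (Real.exp_pos _).le
  refine (Finset.sum_le_sum key).trans ?_
  rw [← Finset.mul_sum]
  refine mul_le_mul_of_nonneg_left ?_ (by positivity)
  have hsub : bd (lev p c) ⊆ lev p c := Finset.filter_subset _ _
  calc ∑ A ∈ bd (lev p c), Real.exp (-(ε ^ k * (c2 / 2) * A.card))
      ≤ ∑ A ∈ lev p c, Real.exp (-(ε ^ k * (c2 / 2) * A.card)) :=
        Finset.sum_le_sum_of_subset_of_nonneg hsub (fun A _ _ => (Real.exp_pos _).le)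
    _ ≤ ∑ A ∈ lev p c, (Real.exp (-(ε ^ k * (c2 / 2) * (m / 4))) +
          if (A.card : ℝ) ≤ m / 2 - m / 4 then 1 else 0) := by
        refine Finset.sum_le_sum fun A _ => ?_
        split_ifs with h
        · have h10 : Real.exp (-(ε ^ k * (c2 / 2) * A.card)) ≤ 1 := by
            rw [Real.exp_le_one_iff]
            have : 0 ≤ ε ^ k * (c2 / 2) * A.card := by positivity
            linarith
          have := Real.exp_pos (-(ε ^ k * (c2 / 2) * (m / 4)))
          linarith
        · rw [add_zero, Real.exp_le_exp]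
          push Not at h
          have h11 : (m : ℝ) / 4 ≤ A.card := by linarith
          have h12 : ε ^ k * (c2 / 2) * (m / 4) ≤ ε ^ k * (c2 / 2) * A.card :=
            mul_le_mul_of_nonneg_left h11 (by positivity)
          linarith
    _ = _ := by
        rw [Finset.sum_add_distrib, Finset.sum_const, nsmul_eq_mul, ← Finset.sum_filter,
          Finset.sum_const, nsmul_eq_mul, mul_one]

end SmoothUC
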