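import Pool.Agent.SmoothUC.Prob

/-!
# Union-closed families of random generators: few generators, and small ground sets

`reg_bounded`: bounded ground set, many generators.
`reg_small`: at least two and at most exponentially many generators.
-/

namespace SmoothUC

open Finset

variable {n m : ℕ}

/-! ### Probabilities of patterns in one column or row -/

/-- one vector with prescribed coordinates in `S` -/
theorem sum_pattern {k : ℕ} (a : Fin k → ℝ) (S : Finset (Fin k)) (b : Fin k → Bool) :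
    (∑ c : Fin k → Bool, if (∀ i ∈ S, c i = b i) then
      ∏ i, (if c i = true then a i else 1 - a i) else 0) =
      ∏ i ∈ S, (if b i = true then a i else 1 - a i) := by
  classical
  have h1 : ∀ c : Fin k → Bool, (if (∀ i ∈ S, c i = b i) then
      ∏ i, (if c i = true then a i else 1 - a i) else 0) =
      ∏ i, (if i ∈ S ∧ c i ≠ b i then 0 else (if c i = true then a i else 1 - a i)) := by
    intro c
    split_ifs with h
    · refine Finset.prod_congr rfl fun i _ => ?_
      rw [if_neg (fun h' : i ∈ S ∧ c i ≠ b i => h'.2 (h i h'.1))]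
    · push Not at h
      obtain ⟨i, hi, hc⟩ := h
      rw [Finset.prod_eq_zero (Finset.mem_univ i)]
      rw [if_pos ⟨hi, hc⟩]
  simp_rw [h1]
  rw [sum_bool_fun (fun i (e : Bool) => if i ∈ S ∧ e ≠ b i then 0 else
    (if e = true then a i else 1 - a i))]
  rw [← Finset.prod_subset (Finset.subset_univ S)]
  · refine Finset.prod_congr rfl fun i hi => ?_
    cases hb : b i <;> simp [hi]
  · intro i _ hi
    simp [hi]

theorem pattern_lower {k : ℕ} {ε : ℝ} (hε : 0 ≤ ε) (a : Fin k → ℝ)
    (ha : ∀ i, ε ≤ a i ∧ a i ≤ 1 - ε) (S : Finset (Fin k)) (b : Fin k → Bool) :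
    ε ^ S.card ≤ ∏ i ∈ S, (if b i = true then a i else 1 - a i) := by
  rw [← Finset.prod_const]
  refine Finset.prod_le_prod (fun _ _ => hε) fun i _ => ?_
  have := ha i
  split_ifs <;> linarith

/-- upper bound for events that are products over the columns -/
theorem Pr_cols_le {ε : ℝ} (hε : 0 ≤ ε) {p : Fin n → Fin m → ℝ} (hp : Fair ε p)
    (C : Fin m → (Fin n → Bool) → Prop) [∀ x c, Decidable (C x c)] (β : Fin m → ℝ)
    (h : ∀ x, (∑ c : Fin n → Bool, if C x c then
      ∏ i, (if c i = true then p i x else 1 - p i x) else 0) ≤ β x) :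
    Pr p (fun ω => ∀ x, C x (fun i => ω i x)) ≤ ∏ x, β x := by
  rw [Pr_cols p C]
  refine Finset.prod_le_prod (fun x _ => Finset.sum_nonneg fun c _ => ?_) (fun x _ => h x)
  split_ifs
  · refine Finset.prod_nonneg fun i _ => ?_
    have := hp i x
    split_ifs <;> linarith
  · exact le_refl _

/-- no column has a prescribed pattern -/
theorem Pr_no_pattern_cols {ε : ℝ} (hε : 0 ≤ ε) {p : Fin n → Fin m → ℝ} (hp : Fair ε p)
    (S : Finset (Fin n)) (b : Fin n → Bool) :
    Pr p (fun ω => ∀ x, ¬ ∀ i ∈ S, ω i x = b i) ≤ (1 - ε ^ S.card) ^ m := by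
  classical
  have h := Pr_cols_le hε hp (fun _ c => ¬ ∀ i ∈ S, c i = b i) (fun _ => 1 - ε ^ S.card) ?_
  · simpa using h
  · intro x
    have h1 := sum_vec_compl (fun i => p i x) (fun c => ∀ i ∈ S, c i = b i)
    have h2 : (∑ c : Fin n → Bool, if ¬ (∀ i ∈ S, c i = b i) then
      ∏ i, (if c i = true then p i x else 1 - p i x) else 0) =
      ∑ c : Fin n → Bool, if (∀ i ∈ S, c i = b i) then 0 else
      ∏ i, (if c i = true then p i x else 1 - p i x) :=
      Finset.sum_congr rfl fun c _ => by rw [ite_not]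
    rw [h2, h1, sum_pattern]
    have := pattern_lower hε (fun i => p i x) (fun i => hp i x) S b
    linarith

/-- no row has a prescribed pattern -/
theorem Pr_no_pattern_rows {ε : ℝ} (hε : 0 ≤ ε) {p : Fin n → Fin m → ℝ} (hp : Fair ε p)
    (S : Finset (Fin m)) (b : Fin m → Bool) :
    Pr p (fun ω => ∀ i, ¬ ∀ x ∈ S, ω i x = b x) ≤ (1 - ε ^ S.card) ^ n := by
  classical
  rw [Pr_rows p (fun _ r => ¬ ∀ x ∈ S, r x = b x)]
  have h0 : (1 - ε ^ S.card) ^ n = ∏ _i : Fin n, (1 - ε ^ S.card) := by simp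
  rw [h0]
  refine Finset.prod_le_prod (fun x _ => Finset.sum_nonneg fun c _ => ?_) (fun i _ => ?_)
  · split_ifs
    · exact le_refl _
    · refine Finset.prod_nonneg fun y _ => ?_
      have := hp x y
      split_ifs <;> linarith
  · have h1 := sum_vec_compl (fun x => p i x) (fun r => ∀ x ∈ S, r x = b x)
    have h2 : (∑ r : Fin m → Bool, if ¬ (∀ x ∈ S, r x = b x) then
      ∏ x, (if r x = true then p i x else 1 - p i x) else 0) =
      ∑ r : Fin m → Bool, if (∀ x ∈ S, r x = b x) then 0 else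
      ∏ x, (if r x = true then p i x else 1 - p i x) :=
      Finset.sum_congr rfl fun c _ => by rw [ite_not]
    rw [h2, h1, sum_pattern]
    have := pattern_lower hε (fun x => p i x) (fun x => hp i x) S b
    linarith

theorem mem_row {ω : Fin n → Fin m → Bool} {i : Fin n} {x : Fin m} :
    x ∈ row ω i ↔ ω i x = true := by
  simp [row]

/-- `P(∪_{T} S_i = ∪_{T'} S_i)` is exponentially small -/
theorem Pr_union_eq {ε : ℝ} (hε : 0 ≤ ε) {p : Fin n → Fin m → ℝ} (hp : Fair ε p)
    (T T' : Finset (Fin n)) (i : Fin n) (hi : i ∈ T) (hi' : i ∉ T') :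
    Pr p (fun ω => T.biUnion (row ω) = T'.biUnion (row ω)) ≤ (1 - ε ^ (T'.card + 1)) ^ m := by
  classical
  have h := Pr_no_pattern_cols hε hp (insert i T') (fun j => decide (j = i))
  rw [Finset.card_insert_of_notMem hi'] at h
  refine le_trans (Pr_mono hε hp fun ω hω x hx => ?_) h
  have h1 : x ∈ T.biUnion (row ω) := by
    rw [Finset.mem_biUnion]
    refine ⟨i, hi, mem_row.mpr ?_⟩
    rw [hx i (Finset.mem_insert_self _ _)]
    simp
  rw [hω, Finset.mem_biUnion] at h1
  obtain ⟨j, hj, hjx⟩ := h1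
  rw [mem_row, hx j (Finset.mem_insert_of_mem hj)] at hjx
  have : j = i := by simpa using hjx
  exact hi' (this ▸ hj)

/-- `P(∪_T S_i ⊆ B)` -/
theorem Pr_union_subset {ε : ℝ} (hε : 0 ≤ ε) {p : Fin n → Fin m → ℝ}
    (hp : Fair ε p) (T : Finset (Fin n)) (B : Finset (Fin m)) :
    Pr p (fun ω => T.biUnion (row ω) ⊆ B) ≤ ((1 - ε) ^ T.card) ^ (Bᶜ).card := by
  classical
  have h := Pr_cols_le hε hp (fun x c => x ∉ B → ∀ i ∈ T, c i = false)
    (fun x => if x ∈ B then 1 else (1 - ε) ^ T.card) ?_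
  · have h2 : ∏ x, (if x ∈ B then (1 : ℝ) else (1 - ε) ^ T.card) =
        ((1 - ε) ^ T.card) ^ (Bᶜ).card := by
      rw [← Finset.prod_const ((1 - ε) ^ T.card), Finset.prod_ite]
      simp only [Finset.prod_const_one, one_mul]
      have h3 : (univ.filter (fun x => x ∉ B)) = Bᶜ := by
        ext x; simp
      rw [h3]
    rw [h2] at h
    refine le_trans (Pr_mono hε hp fun ω hω x hx i hi => ?_) h
    by_contra hne
    have : ω i x = true := by simpa using hne
    exact hx (hω (Finset.mem_biUnion.mpr ⟨i, hi, mem_row.mpr this⟩))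
  · intro x
    by_cases hx : x ∈ B
    · rw [if_pos hx]
      have h1 := sum_one_vec (fun i => p i x)
      refine le_trans (Finset.sum_le_sum fun c _ => ?_) h1.le
      rw [if_pos (fun hx' : x ∉ B => absurd hx hx')]
    · rw [if_neg hx]
      have h1 := sum_all_false (fun i => p i x) T
      have h2 : (∑ c : Fin n → Bool, if (x ∉ B → ∀ i ∈ T, c i = false) then
        ∏ i, (if c i = true then p i x else 1 - p i x) else 0) =
        ∑ c : Fin n → Bool, if (∀ i ∈ T, c i = false) then
        ∏ i, (if c i = true then p i x else 1 - p i x) else 0 := by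
        refine Finset.sum_congr rfl fun c _ => ?_
        simp only [hx, not_false_eq_true, forall_const]
      rw [h2, h1, ← Finset.prod_const]
      refine Finset.prod_le_prod (fun i _ => ?_) fun i _ => ?_
      · have := hp i x; linarith
      · have := hp i x; linarith

/-! ### Deterministic parts -/

theorem mem_family {ω : Fin n → Fin m → Bool} {A : Finset (Fin m)} :
    A ∈ family ω ↔ ∃ T : Finset (Fin n), T.biUnion (row ω) = A := by
  simp [family]

theorem good_of_singletons (ω : Fin n → Fin m → Bool) (h : ∀ x, ∃ i, row ω i = {x}) :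
    Good (family ω) := by
  classical
  left
  have h1 : family ω = univ := by
    ext A
    simp only [Finset.mem_univ, iff_true]
    rw [mem_family]
    refine ⟨univ.filter (fun i => row ω i ⊆ A), ?_⟩
    ext x
    rw [Finset.mem_biUnion]
    constructor
    · rintro ⟨i, hi, hx⟩
      exact (Finset.mem_filter.mp hi).2 hx
    · intro hx
      obtain ⟨i, hi⟩ := h x
      refine ⟨i, Finset.mem_filter.mpr ⟨Finset.mem_univ _, ?_⟩, ?_⟩
      · rw [hi]
        exact Finset.singleton_subset_iff.mpr hx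
      · rw [hi]
        exact Finset.mem_singleton_self x
  rw [h1]
  have h2 : (univ : Finset (Finset (Fin m))).sup id = univ := by
    refine le_antisymm (Finset.subset_univ _) ?_
    exact Finset.le_sup (f := id) (Finset.mem_univ (univ : Finset (Fin m)))
  rw [h2, Finset.powerset_univ]

theorem good_of_common (ω : Fin n → Fin m → Bool) (x : Fin m) (hx : ∀ i, ω i x = true)
    (i j : Fin n) (hij : row ω i ≠ row ω j) : Good (family ω) := by
  classical
  right
  refine ⟨x, ?_⟩
  have h0 : (∅ : Finset (Fin m)) ∈ family ω := mem_family.mpr ⟨∅, by simp⟩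
  have hi : row ω i ∈ family ω := mem_family.mpr ⟨{i}, by simp⟩
  have hj : row ω j ∈ family ω := mem_family.mpr ⟨{j}, by simp⟩
  have hxi : ∀ k, x ∈ row ω k := fun k => mem_row.mpr (hx k)
  have hne : ∀ k, row ω k ≠ ∅ := fun k h => by
    have := hxi k
    rw [h] at this
    simp at this
  have h3 : 3 ≤ (family ω).card := by
    have hsub : ({∅, row ω i, row ω j} : Finset (Finset (Fin m))) ⊆ family ω := by
      intro A hA
      simp only [Finset.mem_insert, Finset.mem_singleton] at hA
      rcases hA with rfl | rfl | rfl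
      · exact h0
      · exact hi
      · exact hj
    have hc : ({∅, row ω i, row ω j} : Finset (Finset (Fin m))).card = 3 := by
      rw [Finset.card_insert_of_notMem, Finset.card_pair hij]
      simp only [Finset.mem_insert, Finset.mem_singleton, not_or]
      exact ⟨(hne i).symm, (hne j).symm⟩
    rw [← hc]
    exact Finset.card_le_card hsub
  have h4 : (family ω).erase ∅ ⊆ (family ω).filter (fun A => x ∈ A) := by
    intro A hA
    rw [Finset.mem_erase] at hA
    refine Finset.mem_filter.mpr ⟨hA.2, ?_⟩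
    obtain ⟨T, hT⟩ := mem_family.mp hA.2
    have hTn : T.Nonempty := by
      rw [Finset.nonempty_iff_ne_empty]
      rintro rfl
      exact hA.1 (by rw [← hT]; simp)
    obtain ⟨k, hk⟩ := hTn
    rw [← hT]
    exact Finset.mem_biUnion.mpr ⟨k, hk, hxi k⟩
  have h5 := Finset.card_le_card h4
  rw [Finset.card_erase_of_mem h0] at h5
  omega

/-- if few members are of size at most `3m/4`, the average size is more than `m/2` -/
theorem good_of_average {F : Finset (Finset (Fin m))} (hm : 0 < m)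
    (h : 3 * (F.filter (fun A => 4 * A.card ≤ 3 * m)).card < F.card) : Good F := by
  classical
  right
  by_contra hcon
  push Not at hcon
  have hsum : ∑ A ∈ F, A.card = ∑ x : Fin m, (F.filter (fun A => x ∈ A)).card := by
    have h1 : ∀ A : Finset (Fin m), A.card = ∑ x : Fin m, if x ∈ A then 1 else 0 := by
      intro A
      simp
    calc ∑ A ∈ F, A.card = ∑ A ∈ F, ∑ x : Fin m, (if x ∈ A then 1 else 0) :=
          Finset.sum_congr rfl fun A _ => h1 A
      _ = ∑ x : Fin m, ∑ A ∈ F, (if x ∈ A then 1 else 0) := Finset.sum_comm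
      _ = _ := Finset.sum_congr rfl fun x _ => by rw [Finset.card_filter]
  have hup : 2 * ∑ A ∈ F, A.card ≤ m * F.card := by
    rw [hsum, Finset.mul_sum]
    calc ∑ x : Fin m, 2 * (F.filter (fun A => x ∈ A)).card ≤ ∑ _x : Fin m, F.card :=
          Finset.sum_le_sum fun x _ => hcon x
      _ = m * F.card := by simp
  have hlow : 3 * m * (F.filter (fun A => ¬ 4 * A.card ≤ 3 * m)).card ≤
      4 * ∑ A ∈ F, A.card := by
    rw [Finset.mul_sum]
    calc 3 * m * (F.filter (fun A => ¬ 4 * A.card ≤ 3 * m)).card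
        = ∑ _A ∈ F.filter (fun A => ¬ 4 * A.card ≤ 3 * m), 3 * m := by
          rw [Finset.sum_const, smul_eq_mul, mul_comm]
      _ ≤ ∑ A ∈ F.filter (fun A => ¬ 4 * A.card ≤ 3 * m), 4 * A.card := by
          refine Finset.sum_le_sum fun A hA => ?_
          have := (Finset.mem_filter.mp hA).2
          omega
      _ ≤ ∑ A ∈ F, 4 * A.card :=
          Finset.sum_le_sum_of_subset_of_nonneg (Finset.filter_subset _ _)
            (fun _ _ _ => Nat.zero_le _)
  have hsplit := Finset.card_filter_add_card_filter_not (s := F)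
    (fun A : Finset (Fin m) => 4 * A.card ≤ 3 * m)
  set s := (F.filter (fun A => 4 * A.card ≤ 3 * m)).card
  set t := (F.filter (fun A => ¬ 4 * A.card ≤ 3 * m)).card
  have h6 : 3 * m * t ≤ 2 * (m * F.card) := le_trans hlow (by omega)
  have h7 : m * (3 * t) ≤ m * (2 * F.card) := by
    calc m * (3 * t) = 3 * m * t := by ring
      _ ≤ 2 * (m * F.card) := h6
      _ = m * (2 * F.card) := by ring
  have h8 := Nat.le_of_mul_le_mul_left h7 hm
  omega

theorem good_of_big (ω : Fin n → Fin m → Bool) (K : ℕ) (hm : 0 < m)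
    (h1 : ∀ T : Finset (Fin n), T.card = K → ¬ 4 * (T.biUnion (row ω)).card ≤ 3 * m)
    (h2 : ∀ T T' : Finset (Fin n), T.card = K + 1 → T'.card = K + 1 →
      T.biUnion (row ω) = T'.biUnion (row ω) → T = T')
    (h3 : 3 * (K * n ^ K) < n.choose (K + 1)) : Good (family ω) := by
  classical
  have hn : 0 < n := by
    rcases Nat.eq_zero_or_pos n with h | h
    · subst h
      simp at h3
    · exact h
  refine good_of_average hm ?_
  have hs : ((family ω).filter (fun A => 4 * A.card ≤ 3 * m)).card ≤ K * n ^ K := by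
    have hsub : (family ω).filter (fun A => 4 * A.card ≤ 3 * m) ⊆
        ((range K).biUnion (fun k => powersetCard k (univ : Finset (Fin n)))).image
          (fun T => T.biUnion (row ω)) := by
      intro A hA
      rw [Finset.mem_filter] at hA
      obtain ⟨T, hT⟩ := mem_family.mp hA.1
      refine Finset.mem_image.mpr ⟨T, ?_, hT⟩
      rw [Finset.mem_biUnion]
      refine ⟨T.card, Finset.mem_range.mpr ?_, by simp⟩
      by_contra hlt
      push Not at hlt
      obtain ⟨R, hR, hRc⟩ := Finset.exists_subset_card_eq hlt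
      refine h1 R hRc (le_trans ?_ hA.2)
      rw [← hT]
      exact Nat.mul_le_mul_left 4
        (Finset.card_le_card (Finset.biUnion_subset_biUnion_of_subset_left _ hR))
    refine le_trans (Finset.card_le_card hsub) (le_trans Finset.card_image_le ?_)
    refine le_trans (Finset.card_biUnion_le_card_mul _ _ (n ^ K) ?_) (by simp)
    intro k hk
    rw [Finset.card_powersetCard, Finset.card_univ, Fintype.card_fin]
    exact le_trans (Nat.choose_le_pow n k)
      (Nat.pow_le_pow_right hn (le_of_lt (Finset.mem_range.mp hk)))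
  have hF : n.choose (K + 1) ≤ (family ω).card := by
    have hinj : Set.InjOn (fun T : Finset (Fin n) => T.biUnion (row ω))
        (powersetCard (K + 1) (univ : Finset (Fin n)) : Set (Finset (Fin n))) := by
      intro T hT T' hT' he
      have e1 := (Finset.mem_powersetCard.mp (Finset.mem_coe.mp hT)).2
      have e2 := (Finset.mem_powersetCard.mp (Finset.mem_coe.mp hT')).2
      exact h2 T T' e1 e2 he
    have h5 := Finset.card_image_of_injOn hinj
    rw [Finset.card_powersetCard, Finset.card_univ, Fintype.card_fin] at h5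
    rw [← h5]
    refine Finset.card_le_card ?_
    intro A hA
    obtain ⟨T, _, hT⟩ := Finset.mem_image.mp hA
    exact mem_family.mpr ⟨T, hT⟩
  omega

/-! ### Bounded ground set -/

theorem fair_le_half {ε : ℝ} {p : Fin n → Fin m → ℝ} (hp : Fair ε p) (hn : 0 < n)
    (hm : 0 < m) : ε ≤ 1 / 2 := by
  have := hp ⟨0, hn⟩ ⟨0, hm⟩
  linarith

/-- B1: m bounded, n large: every singleton is a generator (so F = all subsets). -/
theorem reg_bounded (ε η : ℝ) (hε : 0 < ε) (hη : 0 < η) (m₀ : ℕ) : ∃ N : ℕ, ∀ n m : ℕ,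
    m ≤ m₀ → N ≤ n → ∀ p : Fin n → Fin m → ℝ, Fair ε p →
    Pr p (fun ω => ¬ Good (family ω)) ≤ η := by
  classical
  by_cases hhalf : ε ≤ 1 / 2
  · -- choose N
    have hq0 : 0 < ε ^ m₀ := pow_pos hε _
    have hq1 : ε ^ m₀ ≤ 1 := pow_le_one₀ hε.le (by linarith)
    have htend : Filter.Tendsto (fun n : ℕ => (m₀ : ℝ) * (1 - ε ^ m₀) ^ n) Filter.atTop
        (nhds ((m₀ : ℝ) * 0)) :=
      (tendsto_pow_atTop_nhds_zero_of_lt_one (by linarith) (by linarith)).const_mul _
    rw [mul_zero] at htend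
    obtain ⟨N, hN⟩ := Filter.eventually_atTop.mp (htend.eventually (gt_mem_nhds hη))
    refine ⟨N, fun n m hm hn p hp => ?_⟩
    have h1 : Pr p (fun ω => ¬ Good (family ω)) ≤
        Pr p (fun ω => ∃ x ∈ (univ : Finset (Fin m)), ∀ i, ¬ ∀ y ∈ (univ : Finset (Fin m)),
          ω i y = decide (y = x)) := by
      refine Pr_mono hε.le hp fun ω hω => ?_
      by_contra hcon
      push Not at hcon
      refine hω (good_of_singletons ω fun x => ?_)
      obtain ⟨i, hi⟩ := hcon x (Finset.mem_univ x)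
      refine ⟨i, ?_⟩
      ext y
      rw [mem_row, hi y (Finset.mem_univ y)]
      simp
    refine le_trans h1 (le_trans (Pr_exists hε.le hp univ _) ?_)
    have h2 : ∀ x ∈ (univ : Finset (Fin m)), Pr p (fun ω => ∀ i, ¬ ∀ y ∈
        (univ : Finset (Fin m)), ω i y = decide (y = x)) ≤ (1 - ε ^ m₀) ^ n := by
      intro x _
      refine le_trans (Pr_no_pattern_rows hε.le hp univ (fun y => decide (y = x))) ?_
      rw [Finset.card_univ, Fintype.card_fin]
      have h3 : ε ^ m₀ ≤ ε ^ m := pow_le_pow_of_le_one hε.le (by linarith) hm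
      have h4 : ε ^ m ≤ 1 := pow_le_one₀ hε.le (by linarith)
      exact pow_le_pow_left₀ (by linarith) (by linarith) n
    refine le_trans (Finset.sum_le_sum h2) ?_
    rw [Finset.sum_const, Finset.card_univ, Fintype.card_fin, nsmul_eq_mul]
    refine le_trans ?_ (hN n hn).le
    refine mul_le_mul_of_nonneg_right (by exact_mod_cast hm) (pow_nonneg (by linarith) _)
  · refine ⟨1, fun n m _ hn p hp => ?_⟩
    rcases Nat.eq_zero_or_pos m with h0 | h0
    · subst h0
      have : Pr p (fun ω => ¬ Good (family ω)) ≤ Pr p (fun _ => False) :=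
        Pr_mono hε.le hp fun ω hω => hω (good_of_singletons ω fun x => x.elim0)
      refine le_trans this ?_
      unfold Pr
      simp [hη.le]
    · exact absurd (fair_le_half hp hn h0) hhalf

/-! ### At most exponentially many generators -/

theorem choose_large (K : ℕ) (n : ℕ)
    (hn : 3 * K * 2 ^ (K + 1) * (K + 1).factorial + 2 * K + 1 ≤ n) :
    3 * (K * n ^ K) < n.choose (K + 1) := by
  have hn0 : 0 < n := by omega
  have h1 : (n + 1 - (K + 1)) ^ (K + 1) ≤ (K + 1).factorial * n.choose (K + 1) := by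
    rw [← Nat.descFactorial_eq_factorial_mul_choose]
    exact Nat.pow_sub_le_descFactorial n (K + 1)
  by_contra hcon
  push Not at hcon
  have h2 : n ^ (K + 1) ≤ 2 ^ (K + 1) * (n + 1 - (K + 1)) ^ (K + 1) := by
    rw [← Nat.mul_pow]
    exact Nat.pow_le_pow_left (by omega) _
  have h3 : n ^ K * n ≤ n ^ K * (3 * K * 2 ^ (K + 1) * (K + 1).factorial) := by
    calc n ^ K * n = n ^ (K + 1) := (pow_succ n K).symm
      _ ≤ 2 ^ (K + 1) * (n + 1 - (K + 1)) ^ (K + 1) := h2
      _ ≤ 2 ^ (K + 1) * ((K + 1).factorial * n.choose (K + 1)) := Nat.mul_le_mul_left _ h1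
      _ ≤ 2 ^ (K + 1) * ((K + 1).factorial * (3 * (K * n ^ K))) :=
          Nat.mul_le_mul_left _ (Nat.mul_le_mul_left _ hcon)
      _ = _ := by ring
  have h4 := Nat.le_of_mul_le_mul_left h3 (pow_pos hn0 K)
  omega

/-- at least two but boundedly many generators -/
theorem Pr_few {ε : ℝ} (hε : 0 < ε) (hε1 : ε ≤ 1 / 2) (n₂ : ℕ) (hn : n ≤ n₂) (hn2 : 2 ≤ n)
    {p : Fin n → Fin m → ℝ} (hp : Fair ε p) :
    Pr p (fun ω => ¬ Good (family ω)) ≤ (1 - ε ^ n₂) ^ m + (1 - ε ^ 2) ^ m := by
  classical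
  have h1 := Pr_no_pattern_cols hε.le hp (univ : Finset (Fin n)) (fun _ => true)
  have hne : (⟨0, by omega⟩ : Fin n) ∉ ({⟨1, by omega⟩} : Finset (Fin n)) := by
    simp
  have h2 := Pr_union_eq hε.le hp ({⟨0, by omega⟩} : Finset (Fin n)) {⟨1, by omega⟩}
    ⟨0, by omega⟩ (Finset.mem_singleton_self _) hne
  rw [Finset.card_univ, Fintype.card_fin] at h1
  rw [Finset.card_singleton] at h2
  have h3 : (1 - ε ^ n) ^ m ≤ (1 - ε ^ n₂) ^ m := by
    have h4 : ε ^ n₂ ≤ ε ^ n := pow_le_pow_of_le_one hε.le (by linarith) hn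
    have h5 : ε ^ n ≤ 1 := pow_le_one₀ hε.le (by linarith)
    exact pow_le_pow_left₀ (by linarith) (by linarith) m
  refine le_trans (Pr_mono hε.le hp (E' := fun ω =>
    (∀ x, ¬ ∀ i ∈ (univ : Finset (Fin n)), ω i x = true) ∨
    (({⟨0, by omega⟩} : Finset (Fin n)).biUnion (row ω) =
      ({⟨1, by omega⟩} : Finset (Fin n)).biUnion (row ω))) fun ω hω => ?_)
    (le_trans (Pr_or hε.le hp _ _) (add_le_add (le_trans h1 h3) h2))
  by_contra hcon
  push Not at hcon
  obtain ⟨⟨x, hx⟩, hne2⟩ := hcon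
  refine hω (good_of_common ω x (fun i => hx i (Finset.mem_univ i)) ⟨0, by omega⟩
    ⟨1, by omega⟩ ?_)
  simpa using hne2

/-- a union of `K` generators is large -/
theorem Pr_small_union {ε : ℝ} (hε : 0 ≤ ε) (hε1 : ε ≤ 1) (K : ℕ)
    (hK : (1 - ε) ^ K ≤ 1 / 256) {p : Fin n → Fin m → ℝ} (hp : Fair ε p)
    (T : Finset (Fin n)) (hT : T.card = K) :
    Pr p (fun ω => 4 * (T.biUnion (row ω)).card ≤ 3 * m) ≤ (1 / 2) ^ m := by
  classical
  have h1 : Pr p (fun ω => 4 * (T.biUnion (row ω)).card ≤ 3 * m) ≤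
      Pr p (fun ω => ∃ B ∈ (univ : Finset (Finset (Fin m))).filter
        (fun B => 4 * B.card ≤ 3 * m), T.biUnion (row ω) ⊆ B) :=
    Pr_mono hε hp fun ω hω => ⟨T.biUnion (row ω),
      Finset.mem_filter.mpr ⟨Finset.mem_univ _, hω⟩, subset_rfl⟩
  refine le_trans h1 (le_trans (Pr_exists hε hp _ _) ?_)
  have h2 : ∀ B ∈ (univ : Finset (Finset (Fin m))).filter (fun B => 4 * B.card ≤ 3 * m),
      Pr p (fun ω => T.biUnion (row ω) ⊆ B) ≤ (1 / 4) ^ m := by
    intro B hB
    have hB2 := (Finset.mem_filter.mp hB).2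
    refine le_trans (Pr_union_subset hε hp T B) ?_
    rw [hT]
    have h3 : (Bᶜ).card = m - B.card := by
      rw [Finset.card_compl, Fintype.card_fin]
    have h4 : B.card ≤ m := by
      have := Finset.card_le_univ B
      rwa [Fintype.card_fin] at this
    have h5 : m ≤ 4 * (Bᶜ).card := by omega
    calc ((1 - ε) ^ K) ^ (Bᶜ).card ≤ (1 / 256) ^ (Bᶜ).card :=
          pow_le_pow_left₀ (pow_nonneg (by linarith) _) hK _
      _ = (1 / 4 : ℝ) ^ (4 * (Bᶜ).card) := by
          rw [pow_mul]; norm_num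
      _ ≤ (1 / 4) ^ m := pow_le_pow_of_le_one (by norm_num) (by norm_num) h5
  refine le_trans (Finset.sum_le_sum h2) ?_
  rw [Finset.sum_const, nsmul_eq_mul]
  have h6 : (((univ : Finset (Finset (Fin m))).filter
      (fun B => 4 * B.card ≤ 3 * m)).card : ℝ) ≤ 2 ^ m := by
    have := Finset.card_filter_le (univ : Finset (Finset (Fin m)))
      (fun B => 4 * B.card ≤ 3 * m)
    rw [Finset.card_univ, Fintype.card_finset, Fintype.card_fin] at this
    exact_mod_cast this
  calc (((univ : Finset (Finset (Fin m))).filter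
      (fun B => 4 * B.card ≤ 3 * m)).card : ℝ) * (1 / 4) ^ m ≤ 2 ^ m * (1 / 4) ^ m :=
        mul_le_mul_of_nonneg_right h6 (by positivity)
    _ = (1 / 2) ^ m := by
        rw [← mul_pow]; norm_num

/-- many but at most exponentially many generators -/
theorem Pr_many {ε : ℝ} (hε : 0 < ε) (hε1 : ε ≤ 1 / 2) (K : ℕ)
    (hK : (1 - ε) ^ K ≤ 1 / 256) (hm : 0 < m)
    (hn : 3 * K * 2 ^ (K + 1) * (K + 1).factorial + 2 * K + 1 ≤ n)
    {p : Fin n → Fin m → ℝ} (hp : Fair ε p) :
    Pr p (fun ω => ¬ Good (family ω)) ≤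
      (n : ℝ) ^ K * (1 / 2) ^ m + (n : ℝ) ^ (2 * K + 2) * (1 - ε ^ (K + 2)) ^ m := by
  classical
  have h0 : Pr p (fun ω => ¬ Good (family ω)) ≤ Pr p (fun ω =>
      (∃ T ∈ powersetCard K (univ : Finset (Fin n)),
        4 * (T.biUnion (row ω)).card ≤ 3 * m) ∨
      (∃ q ∈ ((powersetCard (K + 1) (univ : Finset (Fin n))) ×ˢ
        (powersetCard (K + 1) (univ : Finset (Fin n)))).filter (fun q => q.1 ≠ q.2),
        q.1.biUnion (row ω) = q.2.biUnion (row ω))) := by
    refine Pr_mono hε.le hp fun ω hω => ?_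
    by_contra hcon
    rw [not_or] at hcon
    refine hω (good_of_big ω K hm ?_ ?_ (choose_large K n hn))
    · intro T hT hcard
      exact hcon.1 ⟨T, Finset.mem_powersetCard.mpr ⟨Finset.subset_univ _, hT⟩, hcard⟩
    · intro T T' hT hT' he
      by_contra hne
      refine hcon.2 ⟨(T, T'), ?_, he⟩
      rw [Finset.mem_filter, Finset.mem_product]
      exact ⟨⟨Finset.mem_powersetCard.mpr ⟨Finset.subset_univ _, hT⟩,
        Finset.mem_powersetCard.mpr ⟨Finset.subset_univ _, hT'⟩⟩, hne⟩
  refine le_trans h0 (le_trans (Pr_or hε.le hp _ _) (add_le_add ?_ ?_))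
  · refine le_trans (Pr_exists hε.le hp _ _) ?_
    refine le_trans (Finset.sum_le_sum fun T hT => Pr_small_union hε.le (by linarith) K hK hp T
      (Finset.mem_powersetCard.mp hT).2) ?_
    rw [Finset.sum_const, Finset.card_powersetCard, Finset.card_univ, Fintype.card_fin,
      nsmul_eq_mul]
    refine mul_le_mul_of_nonneg_right ?_ (by positivity)
    exact_mod_cast Nat.choose_le_pow n K
  · refine le_trans (Pr_exists hε.le hp _ _) ?_
    have hle1 : ε ^ (K + 2) ≤ 1 := pow_le_one₀ hε.le (by linarith)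
    have h2 : ∀ q ∈ ((powersetCard (K + 1) (univ : Finset (Fin n))) ×ˢ
        (powersetCard (K + 1) (univ : Finset (Fin n)))).filter (fun q => q.1 ≠ q.2),
        Pr p (fun ω => q.1.biUnion (row ω) = q.2.biUnion (row ω)) ≤
          (1 - ε ^ (K + 2)) ^ m := by
      intro q hq
      rw [Finset.mem_filter, Finset.mem_product] at hq
      obtain ⟨⟨hq1, hq2⟩, hne⟩ := hq
      have c1 := (Finset.mem_powersetCard.mp hq1).2
      have c2 := (Finset.mem_powersetCard.mp hq2).2
      have hns : ¬ q.1 ⊆ q.2 := fun hs =>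
        hne (Finset.eq_of_subset_of_card_le hs (by rw [c1, c2]))
      obtain ⟨i, hi, hi'⟩ := Finset.not_subset.mp hns
      have := Pr_union_eq hε.le hp q.1 q.2 i hi hi'
      rwa [c2] at this
    refine le_trans (Finset.sum_le_sum h2) ?_
    rw [Finset.sum_const, nsmul_eq_mul]
    refine mul_le_mul_of_nonneg_right ?_ (pow_nonneg (by linarith) _)
    have h3 : (((powersetCard (K + 1) (univ : Finset (Fin n))) ×ˢ
        (powersetCard (K + 1) (univ : Finset (Fin n)))).filter (fun q => q.1 ≠ q.2)).card ≤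
        n ^ (2 * K + 2) := by
      refine le_trans (Finset.card_filter_le _ _) ?_
      rw [Finset.card_product, Finset.card_powersetCard, Finset.card_univ, Fintype.card_fin]
      calc n.choose (K + 1) * n.choose (K + 1) ≤ n ^ (K + 1) * n ^ (K + 1) :=
            Nat.mul_le_mul (Nat.choose_le_pow n (K + 1)) (Nat.choose_le_pow n (K + 1))
        _ = n ^ (2 * K + 2) := by rw [← pow_add]; congr 1; ring
    exact_mod_cast h3

/-- B2: 2 <= n <= exp(c m). -/
theorem reg_small (ε : ℝ) (hε : 0 < ε) : ∃ c : ℝ, 0 < c ∧ ∀ η : ℝ, 0 < η → ∃ m₀ : ℕ,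
    ∀ m : ℕ, m₀ ≤ m → ∀ n : ℕ, 2 ≤ n → (n : ℝ) ≤ Real.exp (c * m) →
    ∀ p : Fin n → Fin m → ℝ, Fair ε p → Pr p (fun ω => ¬ Good (family ω)) ≤ η := by
  classical
  by_cases hhalf : ε ≤ 1 / 2
  swap
  · refine ⟨1, one_pos, fun η hη => ⟨1, fun m hm n hn _ p hp => ?_⟩⟩
    exact absurd (fair_le_half hp (by omega) (by omega)) hhalf
  obtain ⟨K, hK⟩ := exists_pow_lt_of_lt_one (show (0 : ℝ) < 1 / 256 by norm_num)
    (show 1 - ε < 1 by linarith)
  set δ : ℝ := ε ^ (K + 2) with hδ
  have hδ0 : 0 < δ := pow_pos hε _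
  have hδ1 : δ ≤ 1 := pow_le_one₀ hε.le (by linarith)
  set n₂ : ℕ := 3 * K * 2 ^ (K + 1) * (K + 1).factorial + 2 * K + 1 with hn₂
  have hK0 : (0 : ℝ) ≤ K := Nat.cast_nonneg K
  refine ⟨δ / (4 * (K + 1)), by positivity, fun η hη => ?_⟩
  have hq0 : 0 < ε ^ n₂ := pow_pos hε _
  have hq1 : ε ^ n₂ ≤ 1 := pow_le_one₀ hε.le (by linarith)
  have hr0 : 0 < ε ^ 2 := pow_pos hε _
  have hr1 : ε ^ 2 ≤ 1 := pow_le_one₀ hε.le (by linarith)
  have ht1 : Filter.Tendsto (fun m : ℕ => (1 - ε ^ n₂) ^ m + (1 - ε ^ 2) ^ m) Filter.atTop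
      (nhds (0 + 0)) :=
    (tendsto_pow_atTop_nhds_zero_of_lt_one (by linarith) (by linarith)).add
      (tendsto_pow_atTop_nhds_zero_of_lt_one (by linarith) (by linarith))
  rw [add_zero] at ht1
  have ht2 : Filter.Tendsto (fun m : ℕ => 2 * (Real.exp (-(δ / 4))) ^ m) Filter.atTop
      (nhds (2 * 0)) :=
    (tendsto_pow_atTop_nhds_zero_of_lt_one (Real.exp_pos _).le
      (by rw [Real.exp_lt_one_iff]; linarith)).const_mul _
  rw [mul_zero] at ht2
  obtain ⟨m₀, hm₀⟩ := Filter.eventually_atTop.mp ((ht1.eventually (gt_mem_nhds hη)).and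
    (ht2.eventually (gt_mem_nhds hη)))
  refine ⟨m₀ + 1, fun m hm n hn2 hn p hp => ?_⟩
  obtain ⟨e1, e2⟩ := hm₀ m (by omega)
  rcases Nat.lt_or_ge n n₂ with hlt | hge
  · exact le_trans (Pr_few hε hhalf n₂ hlt.le hn2 hp) e1.le
  · refine le_trans (Pr_many hε hhalf K hK.le (by omega) hge hp) (le_trans ?_ e2.le)
    have hm0 : (0 : ℝ) ≤ m := Nat.cast_nonneg m
    have hn0 : (0 : ℝ) ≤ n := Nat.cast_nonneg n
    have hc : δ / (4 * (K + 1)) * (K + 1) = δ / 4 := by
      field_simp
    have hc2 : δ / (4 * (K + 1)) * K ≤ δ / 4 := by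
      rw [← hc]
      exact mul_le_mul_of_nonneg_left (by linarith) (by positivity)
    have hexp : (Real.exp (-(δ / 4))) ^ m = Real.exp (-(δ / 4) * m) := by
      rw [← Real.exp_nat_mul]; congr 1; ring
    rw [hexp, show (2 : ℝ) * Real.exp (-(δ / 4) * m) =
      Real.exp (-(δ / 4) * m) + Real.exp (-(δ / 4) * m) from two_mul _]
    refine add_le_add ?_ ?_
    · have hhalf2 : (1 / 2 : ℝ) ≤ Real.exp (-(1 / 2)) := by
        have := Real.add_one_le_exp (-(1 / 2) : ℝ)
        linarith
      calc (n : ℝ) ^ K * (1 / 2) ^ m ≤ (Real.exp (δ / (4 * (K + 1)) * m)) ^ K *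
            (Real.exp (-(1 / 2))) ^ m :=
            mul_le_mul (pow_le_pow_left₀ hn0 hn K) (pow_le_pow_left₀ (by norm_num) hhalf2 m)
              (by positivity) (by positivity)
        _ = Real.exp (δ / (4 * (K + 1)) * K * m + -(1 / 2) * m) := by
            rw [← Real.exp_nat_mul, ← Real.exp_nat_mul, ← Real.exp_add]
            congr 1; ring
        _ ≤ Real.exp (-(δ / 4) * m) := by
            refine Real.exp_le_exp.mpr ?_
            have h7 : δ / (4 * (K + 1)) * K * m ≤ δ / 4 * m :=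
              mul_le_mul_of_nonneg_right hc2 hm0
            nlinarith
    · have h8 : 1 - δ ≤ Real.exp (-δ) := by
        have := Real.add_one_le_exp (-δ)
        linarith
      calc (n : ℝ) ^ (2 * K + 2) * (1 - δ) ^ m ≤
            (Real.exp (δ / (4 * (K + 1)) * m)) ^ (2 * K + 2) * (Real.exp (-δ)) ^ m :=
            mul_le_mul (pow_le_pow_left₀ hn0 hn _) (pow_le_pow_left₀ (by linarith) h8 m)
              (pow_nonneg (by linarith) _) (by positivity)
        _ = Real.exp (2 * (δ / (4 * (K + 1)) * (K + 1)) * m + -δ * m) := by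
            rw [← Real.exp_nat_mul, ← Real.exp_nat_mul, ← Real.exp_add]
            congr 1; push_cast; ring
        _ ≤ Real.exp (-(δ / 4) * m) := by
            refine Real.exp_le_exp.mpr ?_
            rw [hc]
            nlinarith

end SmoothUC
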