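import Pool.Agent.SmoothUC.Det

/-!
# The main regime: probability bound for fixed `m`
-/

namespace SmoothUC

open Finset

variable {n m : ℕ} {p : Fin n → Fin m → ℝ} {ε : ℝ}

/-- separation fails with small probability -/
theorem Pr_not_sep (hε : 0 < ε) (hε2 : ε ≤ 1 / 2) (hp : Fair ε p) :
    Pr p (fun ω => ∃ i j : Fin m, i ≠ j ∧ ∀ k, ¬ (ω k i = true ∧ ω k j = false)) ≤
      (m : ℝ) ^ 2 * (1 - ε ^ 2) ^ n := by
  classical
  have h1 : ∀ ω : Fin n → Fin m → Bool,
      (∃ i j : Fin m, i ≠ j ∧ ∀ k, ¬ (ω k i = true ∧ ω k j = false)) →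
      ∃ q ∈ (univ : Finset (Fin m × Fin m)).filter (fun q => q.1 ≠ q.2),
        ∀ k, ¬ (ω k q.1 = true ∧ ω k q.2 = false) := by
    rintro ω ⟨i, j, hij, h⟩
    exact ⟨(i, j), Finset.mem_filter.mpr ⟨Finset.mem_univ _, hij⟩, h⟩
  refine (Pr_mono hε.le hp h1).trans ((Pr_exists hε.le hp _ _).trans ?_)
  have h2 : ∀ q ∈ (univ : Finset (Fin m × Fin m)).filter (fun q => q.1 ≠ q.2),
      Pr p (fun ω => ∀ k, ¬ (ω k q.1 = true ∧ ω k q.2 = false)) ≤ (1 - ε ^ 2) ^ n := by
    rintro ⟨i, j⟩ hq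
    have hij : i ≠ j := (Finset.mem_filter.mp hq).2
    dsimp only
    rw [Pr_rows p (fun k r => ¬ (r i = true ∧ r j = false))]
    have h3 : ∀ k : Fin n, (∑ r : Fin m → Bool, if ¬ (r i = true ∧ r j = false) then
          ∏ x, (if r x = true then p k x else 1 - p k x) else 0) = 1 - p k i * (1 - p k j) := by
      intro k
      have h4 : (∑ r : Fin m → Bool, if (r i = true ∧ r j = false) then
          ∏ x, (if r x = true then p k x else 1 - p k x) else 0) = p k i * (1 - p k j) := by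
        have h5 : ∀ r : Fin m → Bool, (r i = true ∧ r j = false) ↔
            (∀ x, (x = i → r x = true) ∧ (x = j → r x = false)) := by
          intro r
          constructor
          · rintro ⟨h1, h2⟩ x
            exact ⟨fun h => h ▸ h1, fun h => h ▸ h2⟩
          · intro h
            exact ⟨(h i).1 rfl, (h j).2 rfl⟩
        simp_rw [h5]
        rw [sum_coord (fun x => p k x) (fun x b => (x = i → b = true) ∧ (x = j → b = false))]
        rw [← Finset.mul_prod_erase univ _ (Finset.mem_univ i),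
          ← Finset.mul_prod_erase (univ.erase i) _ (Finset.mem_erase.mpr ⟨hij.symm, Finset.mem_univ j⟩)]
        rw [Finset.prod_eq_one]
        · simp [hij, hij.symm]
        · intro x hx
          have hxj : x ≠ j := (Finset.mem_erase.mp hx).1
          have hxi : x ≠ i := (Finset.mem_erase.mp (Finset.mem_erase.mp hx).2).1
          simp [hxj, hxi]
      rw [← h4, ← sum_vec_compl]
      refine Finset.sum_congr rfl fun r _ => ?_
      by_cases h : (r i = true ∧ r j = false)
      · rw [if_neg (not_not.mpr h), if_pos h]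
      · rw [if_pos h, if_neg h]
    simp_rw [h3]
    calc ∏ k : Fin n, (1 - p k i * (1 - p k j)) ≤ ∏ _k : Fin n, (1 - ε ^ 2) := by
          refine Finset.prod_le_prod (fun k _ => ?_) (fun k _ => ?_)
          · have a1 := hp k i
            have a2 := hp k j
            nlinarith
          · have a1 := hp k i
            have a2 := hp k j
            nlinarith
      _ = _ := by simp
  refine (Finset.sum_le_sum h2).trans ?_
  rw [Finset.sum_const, nsmul_eq_mul]
  have h0 : 0 ≤ (1 - ε ^ 2) ^ n := by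
    have : 0 ≤ 1 - ε ^ 2 := by nlinarith
    positivity
  refine mul_le_mul_of_nonneg_right ?_ h0
  have : ((univ : Finset (Fin m × Fin m)).filter (fun q => q.1 ≠ q.2)).card ≤ m * m := by
    refine (Finset.card_filter_le _ _).trans ?_
    simp
  calc (((univ : Finset (Fin m × Fin m)).filter (fun q => q.1 ≠ q.2)).card : ℝ) ≤ ((m * m : ℕ) : ℝ) := by
        exact_mod_cast this
    _ = (m : ℝ) ^ 2 := by push_cast; ring

/-- expected number of members of `U` that are missing -/
theorem Ex_missing (hε : 0 < ε) (hp : Fair ε p) (c : ℝ) :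
    ∑ B ∈ lev p c, Pr p (fun ω => B ∉ family ω) ≤
      (lev p c).card * (m * Real.exp (-(ε * c))) := by
  calc ∑ B ∈ lev p c, Pr p (fun ω => B ∉ family ω) ≤ ∑ _B ∈ lev p c, m * Real.exp (-(ε * c)) := by
        refine Finset.sum_le_sum fun B hB => (Pr_not_mem hε hp B).trans ?_
        refine mul_le_mul_of_nonneg_left ?_ (Nat.cast_nonneg _)
        rw [Real.exp_le_exp]
        have := mem_lev.mp hB
        have := mul_le_mul_of_nonneg_left this hε.le
        linarith
    _ = _ := by rw [Finset.sum_const, nsmul_eq_mul]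

/-- expected number of rare members -/
theorem Ex_rare (hε : 0 < ε) (hε2 : ε ≤ 1 / 2) (hp : Fair ε p) (hm : 2 ≤ m) {c2 : ℝ} (hc2 : 0 < c2)
    (κ : ℕ) (hκ : (1 - ε) ^ κ ≤ c2 / 2) (hn : (m : ℝ) ≤ n)
    (hw : ∀ A : Finset (Fin m), mu p A ≤ m / ε → c2 * m ≤ ((m - A.card : ℕ) : ℝ)) :
    ∑ B ∈ univ.filter (fun B => B ∉ lev p (1 / (m : ℝ))), Pr p (fun ω => B ∈ family ω) ≤
      (lev p (m : ℝ)).card * (((2 * κ + 10 : ℕ) : ℝ) * (m / ε) ^ (2 * κ + 10) *
        (Real.exp (-(ε ^ (2 * κ + 10) * (c2 / 2) * (m / 4))) +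
          (m + 1) ^ 2 * Real.exp (-((m : ℝ) / 8))) + 4 * (1 / ε) ^ κ * (1 / (m : ℝ)) ^ 10) := by
  classical
  have hm0 : (2 : ℝ) ≤ m := by exact_mod_cast hm
  have hmpos : (0 : ℝ) < m := by linarith
  set K := 2 * κ + 10 with hK
  have huniv : (univ : Finset (Fin m)) ∈ lev p (m : ℝ) := by
    rw [mem_lev, mu_univ]
    exact hn
  have hwbd : ∀ A ∈ bd (lev p (m : ℝ)), c2 * m ≤ ((m - A.card : ℕ) : ℝ) :=
    fun A hA => hw A (mu_bd_le hε hp hA)
  have hsub : univ.filter (fun B => B ∉ lev p (1 / (m : ℝ))) ⊆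
      univ.filter (fun B : Finset (Fin m) => B ∉ lev p (m : ℝ)) := by
    intro B hB
    rw [Finset.mem_filter] at hB ⊢
    refine ⟨hB.1, fun h => hB.2 ?_⟩
    rw [mem_lev] at h ⊢
    refine le_trans ?_ h
    rw [div_le_iff₀ hmpos]
    nlinarith
  -- split over the size of T
  have hsplit : ∀ B ∈ univ.filter (fun B => B ∉ lev p (1 / (m : ℝ))),
      Pr p (fun ω => B ∈ family ω) ≤
      ∑ k ∈ Finset.range K, ∑ T ∈ (univ : Finset (Fin n)).powersetCard k,
        Pr p (fun ω => T.biUnion (row ω) = B) + 2 * (1 / (m : ℝ)) ^ (K - κ) * mu p B ^ κ := by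
    intro B hB
    have hB' := (Finset.mem_filter.mp hB).2
    rw [mem_lev, not_le] at hB'
    have hmu0 := mu_nonneg hε hp B
    refine (Pr_mem_le hε hp B).trans ?_
    rw [← Finset.sum_filter_not_add_sum_filter (s := univ) (fun T : Finset (Fin n) => K ≤ T.card)]
    refine add_le_add ?_ ?_
    · apply le_of_eq
      rw [← Finset.sum_fiberwise_of_maps_to (t := Finset.range K) (g := fun T => T.card)]
      · refine Finset.sum_congr rfl fun k hk => ?_
        refine Finset.sum_congr ?_ fun _ _ => rfl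
        ext T
        simp only [Finset.mem_filter, Finset.mem_univ, true_and, Finset.mem_powersetCard,
          Finset.subset_univ]
        constructor
        · exact fun h => h.2
        · intro h
          have := Finset.mem_range.mp hk
          exact ⟨by omega, h⟩
      · intro T hT
        have := (Finset.mem_filter.mp hT).2
        rw [Finset.mem_range]
        omega
    · refine (sum_large_T hε hp B K ?_).trans ?_
      · refine hB'.le.trans ?_
        rw [div_le_div_iff₀ hmpos (by norm_num)]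
        linarith
      · rw [mul_assoc]
        refine mul_le_mul_of_nonneg_left ?_ (by norm_num)
        have h1 : mu p B ^ K = mu p B ^ (K - κ) * mu p B ^ κ := by
          rw [← pow_add]
          congr 1
          omega
        rw [h1]
        exact mul_le_mul_of_nonneg_right (pow_le_pow_left₀ hmu0 hB'.le _) (pow_nonneg hmu0 _)
  refine (Finset.sum_le_sum hsplit).trans ?_
  rw [Finset.sum_add_distrib]
  have hbig1 : ∑ B ∈ univ.filter (fun B => B ∉ lev p (1 / (m : ℝ))),
      ∑ k ∈ Finset.range K, ∑ T ∈ (univ : Finset (Fin n)).powersetCard k,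
        Pr p (fun ω => T.biUnion (row ω) = B) ≤
      (lev p (m : ℝ)).card * ((K : ℝ) * (m / ε) ^ K *
        (Real.exp (-(ε ^ K * (c2 / 2) * (m / 4))) + (m + 1) ^ 2 * Real.exp (-((m : ℝ) / 8)))) := by
    rw [Finset.sum_comm]
    have hk : ∀ k ∈ Finset.range K, ∑ B ∈ univ.filter (fun B => B ∉ lev p (1 / (m : ℝ))),
        ∑ T ∈ (univ : Finset (Fin n)).powersetCard k,
        Pr p (fun ω => T.biUnion (row ω) = B) ≤
        (lev p (m : ℝ)).card * ((m / ε) ^ K * (Real.exp (-(ε ^ K * (c2 / 2) * (m / 4))) +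
          (m + 1) ^ 2 * Real.exp (-((m : ℝ) / 8)))) := by
      intro k hk
      have hkK : k ≤ K := (Finset.mem_range.mp hk).le
      refine (Finset.sum_le_sum_of_subset_of_nonneg hsub (fun B _ _ =>
        Finset.sum_nonneg fun T _ => Pr_nonneg hε.le hp _)).trans ?_
      refine (sum_k_unions hε (by linarith) hp hmpos hc2 (by omega) huniv k hwbd).trans ?_
      have hsmall := small_upset (by omega : 0 < m) (lev p (m : ℝ)) (lev_upSet hε hp _) ((m : ℝ) / 4)
        (by positivity)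
      have he : -2 * ((m : ℝ) / 4) ^ 2 / m = -((m : ℝ) / 8) := by
        field_simp
        ring
      rw [he] at hsmall
      have h1 : ((m : ℝ) / ε) ^ k ≤ (m / ε) ^ K := by
        refine pow_le_pow_right₀ ?_ hkK
        rw [le_div_iff₀ hε]
        nlinarith
      have h2 : Real.exp (-(ε ^ k * (c2 / 2) * ((m : ℝ) / 4))) ≤
          Real.exp (-(ε ^ K * (c2 / 2) * (m / 4))) := by
        rw [Real.exp_le_exp]
        have : ε ^ K ≤ ε ^ k := pow_le_pow_of_le_one hε.le (by linarith) hkK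
        have : ε ^ K * (c2 / 2) * ((m : ℝ) / 4) ≤ ε ^ k * (c2 / 2) * (m / 4) := by
          refine mul_le_mul_of_nonneg_right (mul_le_mul_of_nonneg_right this (by positivity))
            (by positivity)
        linarith
      have h3 : ((lev p (m : ℝ)).card : ℝ) * Real.exp (-(ε ^ k * (c2 / 2) * ((m : ℝ) / 4))) +
          (((lev p (m : ℝ)).filter (fun A => (A.card : ℝ) ≤ m / 2 - m / 4)).card : ℝ) ≤
          (lev p (m : ℝ)).card * (Real.exp (-(ε ^ K * (c2 / 2) * (m / 4))) +
          (m + 1) ^ 2 * Real.exp (-((m : ℝ) / 8))) := by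
        rw [mul_add]
        refine add_le_add (mul_le_mul_of_nonneg_left h2 (Nat.cast_nonneg _)) ?_
        refine hsmall.trans (le_of_eq ?_)
        ring
      calc (m / ε) ^ k * (((lev p (m : ℝ)).card : ℝ) * Real.exp (-(ε ^ k * (c2 / 2) * ((m : ℝ) / 4))) +
          (((lev p (m : ℝ)).filter (fun A => (A.card : ℝ) ≤ m / 2 - m / 4)).card : ℝ))
          ≤ (m / ε) ^ K * ((lev p (m : ℝ)).card * (Real.exp (-(ε ^ K * (c2 / 2) * (m / 4))) +
          (m + 1) ^ 2 * Real.exp (-((m : ℝ) / 8)))) :=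
            mul_le_mul h1 h3 (by positivity) (by positivity)
        _ = _ := by ring
    refine (Finset.sum_le_sum hk).trans (le_of_eq ?_)
    rw [Finset.sum_const, nsmul_eq_mul, Finset.card_range]
    ring
  have hbig2 : ∑ B ∈ univ.filter (fun B => B ∉ lev p (1 / (m : ℝ))),
      2 * (1 / (m : ℝ)) ^ (K - κ) * mu p B ^ κ ≤
      (lev p (m : ℝ)).card * (4 * (1 / ε) ^ κ * (1 / (m : ℝ)) ^ 10) := by
    refine (Finset.sum_le_sum_of_subset_of_nonneg hsub (fun B _ _ => by
      have := mu_nonneg hε hp B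
      positivity)).trans ?_
    rw [← Finset.mul_sum]
    have h1 := sum_mu_pow_le hε (by linarith) hp hmpos hc2 (by omega) huniv κ hκ hwbd
    calc 2 * (1 / (m : ℝ)) ^ (K - κ) * ∑ B ∈ univ.filter (fun B => B ∉ lev p (m : ℝ)), mu p B ^ κ
        ≤ 2 * (1 / (m : ℝ)) ^ (K - κ) * (2 * (m / ε) ^ κ * (lev p (m : ℝ)).card) :=
          mul_le_mul_of_nonneg_left h1 (by positivity)
      _ = _ := by
          have h2 : K - κ = κ + 10 := by omega
          rw [h2, pow_add]
          have h3 : (m / ε : ℝ) ^ κ = (m : ℝ) ^ κ * (1 / ε) ^ κ := by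
            rw [← mul_pow]
            congr 1
            ring
          rw [h3]
          have h4 : (1 / (m : ℝ)) ^ κ * (m : ℝ) ^ κ = 1 := by
            rw [← mul_pow]
            rw [one_div, inv_mul_cancel₀ hmpos.ne', one_pow]
          calc 2 * ((1 / (m : ℝ)) ^ κ * (1 / (m : ℝ)) ^ 10) * (2 * ((m : ℝ) ^ κ * (1 / ε) ^ κ) * (lev p (m : ℝ)).card)
              = ((1 / (m : ℝ)) ^ κ * (m : ℝ) ^ κ) * ((lev p (m : ℝ)).card * (4 * (1 / ε) ^ κ * (1 / (m : ℝ)) ^ 10)) := by ring
            _ = _ := by rw [h4, one_mul]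
  calc _ ≤ _ := add_le_add hbig1 hbig2
    _ = _ := by ring

/-- the bound for fixed `m` in the main regime -/
theorem reg_large_bound (hε : 0 < ε) (hε2 : ε ≤ 1 / 2) (hp : Fair ε p) (hm : 2 ≤ m) {c2 : ℝ}
    (hc2 : 0 < c2) (κ : ℕ) (hκ : (1 - ε) ^ κ ≤ c2 / 2) (r : ℕ) (hr1 : 1 ≤ r)
    (hr : (1 - ε) ^ r * (m : ℝ) ^ 2 ≤ 1) (hn : (m : ℝ) ≤ n)
    (hw : ∀ A : Finset (Fin m), mu p A ≤ m / ε → c2 * m ≤ ((m - A.card : ℕ) : ℝ))
    (hbig : 100 * r ^ 2 ≤ m)
    (hexp : ((m : ℝ) + 1) ^ (r + 4) * Real.exp (-(m : ℝ) / (1152 * r ^ 2)) ≤ 1 / 20) :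
    Pr p (fun ω => ¬ Good (family ω)) ≤
      8 * m * (m * Real.exp (-(ε * m)) + (((2 * κ + 10 : ℕ) : ℝ) * (m / ε) ^ (2 * κ + 10) *
        (Real.exp (-(ε ^ (2 * κ + 10) * (c2 / 2) * (m / 4))) +
          (m + 1) ^ 2 * Real.exp (-((m : ℝ) / 8))) + 4 * (1 / ε) ^ κ * (1 / (m : ℝ)) ^ 10)) +
      (m : ℝ) ^ 2 * (1 - ε ^ 2) ^ n := by
  classical
  have hm0 : (2 : ℝ) ≤ m := by exact_mod_cast hm
  have hmpos : (0 : ℝ) < m := by linarith
  set U := lev p (m : ℝ) with hU
  set U' := lev p (1 / (m : ℝ)) with hU'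
  have huniv : (univ : Finset (Fin m)) ∈ U := by
    rw [hU, mem_lev, mu_univ]
    exact hn
  have hUpos : (0 : ℝ) < U.card := by
    exact_mod_cast Finset.card_pos.mpr ⟨_, huniv⟩
  have hsub : U ⊆ U' := by
    intro B hB
    rw [hU, mem_lev] at hB
    rw [hU', mem_lev]
    refine le_trans ?_ hB
    rw [div_le_iff₀ hmpos]
    nlinarith
  have hstep : ∀ B ∈ U', ∀ A, B ⊆ A → B.card + r ≤ A.card → A ∈ U := by
    intro B hB A hBA hcard
    rw [hU', mem_lev] at hB
    rw [hU, mem_lev]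
    have h1 := mu_le_pow hε hp hBA
    rw [Finset.card_sdiff_of_subset hBA] at h1
    have h2 : (1 - ε) ^ (A.card - B.card) ≤ (1 - ε) ^ r :=
      pow_le_pow_of_le_one (by linarith) (by linarith) (by omega)
    have h3 : mu p B ≤ (1 - ε) ^ r * mu p A :=
      h1.trans (mul_le_mul_of_nonneg_right h2 (mu_nonneg hε hp A))
    have h4 : (1 : ℝ) / m ≤ (1 - ε) ^ r * mu p A := hB.trans h3
    have h5 : (m : ℝ) ≤ (1 - ε) ^ r * (m : ℝ) ^ 2 * mu p A := by
      rw [div_le_iff₀ hmpos] at h4
      nlinarith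
    calc (m : ℝ) ≤ (1 - ε) ^ r * (m : ℝ) ^ 2 * mu p A := h5
      _ ≤ 1 * mu p A := mul_le_mul_of_nonneg_right hr (mu_nonneg hε hp A)
      _ = _ := one_mul _
  have hstar := fun h => star U U' (lev_upSet hε hp _) (lev_upSet hε hp _) hsub huniv hr1 hstep
    hbig hexp h
  set X : (Fin n → Fin m → Bool) → ℝ := fun ω =>
    ((U.filter (fun B => B ∉ family ω)).card : ℝ) +
      (((univ.filter (fun B => B ∉ U')).filter (fun B => B ∈ family ω)).card : ℝ) with hX
  have hX0 : ∀ ω, 0 ≤ X ω := fun ω => by positivity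
  have himp : ∀ ω : Fin n → Fin m → Bool, ¬ Good (family ω) →
      ((U.card : ℝ) / (8 * m) < X ω) ∨
      (∃ i j : Fin m, i ≠ j ∧ ∀ k, ¬ (ω k i = true ∧ ω k j = false)) := by
    intro ω hbad
    by_contra hcon
    push Not at hcon
    obtain ⟨hXle, hsep⟩ := hcon
    apply hbad
    refine good_of_close hm (family ω) U U' (family_union ω) hstar ?_ ?_
    · have h1 : (family ω).filter (fun B => B ∉ U') =
          (univ.filter (fun B => B ∉ U')).filter (fun B => B ∈ family ω) := by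
        ext B
        simp only [Finset.mem_filter, Finset.mem_univ, true_and]
        exact and_comm
      rw [h1]
      have h2 : (m : ℝ) * X ω ≤ U.card / 8 := by
        calc (m : ℝ) * X ω ≤ m * ((U.card : ℝ) / (8 * m)) := mul_le_mul_of_nonneg_left hXle hmpos.le
          _ = U.card / 8 := by field_simp
      rw [hX] at h2
      dsimp only at h2
      linarith
    · intro i j hij
      obtain ⟨k, hk1, hk2⟩ := hsep i j hij
      refine ⟨row ω k, row_mem_family ω k, ?_, ?_⟩
      · simp [row, hk1]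
      · simp [row, hk2]
  refine (Pr_mono hε.le hp himp).trans ((Pr_or hε.le hp _ _).trans ?_)
  refine add_le_add ?_ (Pr_not_sep hε hε2 hp)
  have ha : (0 : ℝ) < U.card / (8 * m) := by positivity
  refine (markov hε.le hp X hX0 _ ha).trans ?_
  rw [div_le_iff₀ ha]
  have hEx : Ex p X = ∑ B ∈ U, Pr p (fun ω => B ∉ family ω) +
      ∑ B ∈ univ.filter (fun B => B ∉ U'), Pr p (fun ω => B ∈ family ω) := by
    rw [← Ex_card p U (fun B ω => B ∉ family ω),
      ← Ex_card p (univ.filter (fun B => B ∉ U')) (fun B ω => B ∈ family ω)]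
    unfold Ex
    rw [← Finset.sum_add_distrib]
    refine Finset.sum_congr rfl fun ω _ => ?_
    rw [← mul_add]
  rw [hEx]
  have h1 := Ex_missing (m := m) hε hp (m : ℝ)
  have h2 := Ex_rare hε hε2 hp hm hc2 κ hκ hn hw
  calc _ ≤ _ := add_le_add h1 h2
    _ = _ := by
        rw [← hU]
        field_simp

end SmoothUC
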